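import Pool.Agent.PRT.GS

/-! # The search -/

set_option autoImplicit false

namespace Pool.Agent.PRT

theorem sN_spec (p k : ℕ) :
    (∃ i < k, stopC p (2 ^ i) = true ∧ (∀ j < i, stopC p (2 ^ j) = false) ∧
      sN p k = (2 ^ i, true)) ∨
    ((∀ j < k, stopC p (2 ^ j) = false) ∧ sN p k = (2 ^ k, false)) := by
  induction k with
  | zero => right; exact ⟨fun j hj => absurd hj (Nat.not_lt_zero _), rfl⟩
  | succ k ih =>
    have hstep : sN p (k + 1) = stepS p (sN p k) := rfl
    rcases ih with ⟨i, hi, hs, hm, he⟩ | ⟨hm, he⟩
    · left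
      refine ⟨i, by omega, hs, hm, ?_⟩
      rw [hstep, he]
      simp [stepS]
    · by_cases h : stopC p (2 ^ k) = true
      · left
        refine ⟨k, by omega, h, hm, ?_⟩
        rw [hstep, he]
        simp [stepS, h]
      · right
        rw [Bool.not_eq_true] at h
        constructor
        · intro j hj
          rcases Nat.lt_succ_iff_lt_or_eq.1 hj with h1 | h1
          · exact hm j h1
          · rw [h1]; exact h
        · rw [hstep, he]
          simp [stepS, h, pow_succ, mul_comm]

end Pool.Agent.PRT
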