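import Pool.Agent.PRT.GPT3
import Pool.Agent.PRT.GN5

/-! # The search as a fold -/

set_option autoImplicit false

namespace Pool.Agent.PRT

open Pool.NPC Pool.NPC.Enc Pool.NPC.Tr Polynomial

private theorem fold_step (l m : List Bool) (x : ℕ × Bool) :
    m.foldl (fun s _ => (s.1, stepS (bval s.1) s.2)) (l, x) =
      (l, Nat.rec (motive := fun _ => ℕ × Bool) x (fun _ s => stepS (bval l) s) m.length) := by
  induction m using List.reverseRecOn with
  | nil => rfl
  | append_singleton m b ih =>
    rw [List.foldl_append, ih]
    simp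

/-- the state after the whole search and after a part of it -/
theorem srch_eq (l : List Bool) : srch l = (l, sN (bval l) l.length) := by
  unfold srch sN
  rw [fold_step]

private theorem sN_mono_succ (p k : ℕ) : (sN p k).1 ≤ (sN p (k + 1)).1 := by
  have h : sN p (k + 1) = stepS p (sN p k) := rfl
  rw [h]
  unfold stepS
  split_ifs
  · exact le_rfl
  · exact le_rfl
  · show (sN p k).1 ≤ 2 * (sN p k).1
    omega

theorem sN_mono (p : ℕ) {k k' : ℕ} (h : k ≤ k') : (sN p k).1 ≤ (sN p k').1 :=
  monotone_nat_of_le_succ (f := fun k => (sN p k).1) (sN_mono_succ p) h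

/-- `MC.foldl` with `M l = (sN (bval l) l.length).1`; the size of the state after `k` steps is
`l.length + (sN p k).1 + 1`, `sN_mono`. -/
theorem MC.srch : MC srch (fun l => (sN (bval l) l.length).1) := by
  have hg : PT (fun y : List Bool × (Bool × (List Bool × (ℕ × Bool))) =>
      (y.2.2.1, stepS (bval y.2.2.1) y.2.2.2)) := by
    have h1 : PT (fun y : List Bool × (Bool × (List Bool × (ℕ × Bool))) => y.2.2.1) :=
      PT.fst' (PT.snd' (PT.snd' PT.id))
    have h2 : PT (fun y : List Bool × (Bool × (List Bool × (ℕ × Bool))) => y.2.2.2) :=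
      PT.snd' (PT.snd' (PT.snd' PT.id))
    exact PT.pair h1 (PT.stepS (BT.bval h1) h2)
  exact MC.foldl (l := fun l : List Bool => l) (i := fun l : List Bool => (l, (1, false)))
    (g := fun y : List Bool × (Bool × (List Bool × (ℕ × Bool))) =>
      (y.2.2.1, stepS (bval y.2.2.1) y.2.2.2))
    PT.id (PT.pair PT.id (PT.const (1, false))) hg (fun l => (sN (bval l) l.length).1) (X + C 1)
    (fun l l1 hl => by
      have h3 : sz (l1.foldl (fun s b => ((fun y : List Bool × (Bool × (List Bool × (ℕ × Bool))) =>
          (y.2.2.1, stepS (bval y.2.2.1) y.2.2.2)) (l, (b, s)))) (l, (1, false))) =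
          l.length + (sN (bval l) l1.length).1 + 1 := by
        have h4 := fold_step l l1 (1, false)
        show sz (l1.foldl (fun s _ => (s.1, stepS (bval s.1) s.2)) (l, (1, false))) = _
        rw [h4]
        simp only [sz_prod, sz_list, sz_nat, sz_bool]
        rfl
      rw [h3]
      have h5 := sN_mono (bval l) hl.length_le
      simp only [eval_add, eval_X, eval_C, sz_list]
      omega)

end Pool.Agent.PRT
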