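import Pool.Agent.PRT.Alg

/-! # The group generated by `-1, 2, 3, ..., B` -/

set_option autoImplicit false

namespace Pool.Agent.PRT

open Finset

theorem genSub_mono {G : Type*} [CommGroup G] (a : ℕ → G) {B C : ℕ} (h : B ≤ C) :
    PrimRoot.genSub a B ≤ PrimRoot.genSub a C := by
  unfold PrimRoot.genSub
  apply Subgroup.closure_mono
  apply Set.image_mono
  exact Set.Icc_subset_Icc_right h

theorem genSub_le (p : ℕ) [Fact p.Prime] {B : ℕ} (hB : 1 ≤ B) :
    PrimRoot.genSub (PrimRoot.res p) B ≤ PrimRoot.genSub (aU p) B := by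
  have hp : p.Prime := Fact.out
  unfold PrimRoot.genSub
  rw [Subgroup.closure_le]
  rintro _ ⟨i, hi, rfl⟩
  by_cases h1 : i = 1
  · have h2 : PrimRoot.res p i = 1 := by
      subst h1
      have h3 : ((1 : ℕ) : ZMod p) ≠ 0 := by
        rw [Nat.cast_one]
        exact one_ne_zero
      apply Units.ext
      simp [PrimRoot.res]
    rw [h2]
    exact Subgroup.one_mem _
  · apply Subgroup.subset_closure
    refine ⟨i, hi, ?_⟩
    simp [aU, h1]

/-- The index `i` divides `p - 1`, so by the hypothesis it is a power of two; `-3` lies in the group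
and is not a square (`PrimRoot.not_isSquare_neg_three`), and a subgroup of even index of a cyclic
group consists of squares. -/
theorem genSub_eq_top (p : ℕ) [Fact p.Prime] {B : ℕ} (hp : 3 < p) (hB : 3 ≤ B)
    (h3 : ¬ 3 ∣ p - 1)
    (h : ∀ q : ℕ, q.Prime → q ∣ p - 1 → q ≠ 2 → (PrimRoot.genSub (aU p) B).index < q) :
    PrimRoot.genSub (aU p) B = ⊤ := by
  have hpp : p.Prime := Fact.out
  set H := PrimRoot.genSub (aU p) B with hH
  rw [← Subgroup.index_eq_one]
  by_contra hne
  have hi0 : H.index ≠ 0 := Subgroup.index_ne_zero_of_finite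
  have hcard : Nat.card H * H.index = p - 1 := by
    rw [Subgroup.card_mul_index, Nat.card_eq_fintype_card, ZMod.card_units]
  have hdvd : H.index ∣ p - 1 := ⟨Nat.card H, by rw [← hcard, mul_comm]⟩
  have h2 : 2 ∣ H.index := by
    have hq := Nat.minFac_prime hne
    have hqd := Nat.minFac_dvd H.index
    by_cases hq2 : H.index.minFac = 2
    · rwa [hq2] at hqd
    · have h4 := h _ hq (hqd.trans hdvd) hq2
      have h5 := Nat.le_of_dvd (Nat.pos_of_ne_zero hi0) hqd
      omega
  obtain ⟨m, hm⟩ := h2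
  have hodd : p % 2 = 1 := by
    rcases hpp.eq_two_or_odd with h4 | h4
    · omega
    · exact h4
  have hhalf : p / 2 = Nat.card H * m := by
    have : Nat.card H * (2 * m) = p - 1 := by rw [← hm]; exact hcard
    have h5 : Nat.card H * (2 * m) = 2 * (Nat.card H * m) := by ring
    omega
  -- `-3` lies in `H`
  have hmem : (-1 : (ZMod p)ˣ) * PrimRoot.res p 3 ∈ H := by
    apply Subgroup.mul_mem
    · apply Subgroup.subset_closure
      refine ⟨1, Set.mem_Icc.2 ⟨le_rfl, by omega⟩, ?_⟩
      simp [aU]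
    · apply Subgroup.subset_closure
      refine ⟨3, Set.mem_Icc.2 ⟨by omega, hB⟩, ?_⟩
      simp [aU]
  have hpow : ((-1 : (ZMod p)ˣ) * PrimRoot.res p 3) ^ (p / 2) = 1 := by
    rw [hhalf, pow_mul, PrimRoot.pow_card_sub hmem, one_pow]
  obtain ⟨y, hy⟩ := (ZMod.euler_criterion_units p _).2 hpow
  apply PrimRoot.not_isSquare_neg_three p hp h3
  have h30 : ((3 : ℕ) : ZMod p) ≠ 0 := by
    rw [Ne, ZMod.natCast_eq_zero_iff]
    intro h4
    have := Nat.le_of_dvd (by norm_num) h4
    omega
  refine ⟨(y : ZMod p), ?_⟩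
  have h4 := congrArg (Units.val) hy
  rw [Units.val_mul, Units.val_pow_eq_pow_val] at h4
  have h5 : ((PrimRoot.res p 3 : (ZMod p)ˣ) : ZMod p) = 3 := by
    unfold PrimRoot.res
    rw [dif_pos h30]
    simp
  rw [h5] at h4
  rw [← sq, h4]
  simp

end Pool.Agent.PRT
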