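import Pool.Agent.PRT.AN6

/-! # One more entry -/

set_option autoImplicit false

namespace Pool.Agent.PRT

theorem Most.cons {M : ℕ} {l : List ℕ} {P : ℕ → Prop} (x : ℕ) (h : Most (2 * M) l P)
    (hM : 2 * M ≤ l.length) : Most M (x :: l) P := by
  classical
  obtain ⟨_, h2⟩ := h
  refine ⟨by simp, ?_⟩
  have h3 : (x :: l).countP (fun x => decide (¬ P x)) ≤
      l.countP (fun x => decide (¬ P x)) + 1 := by
    rw [List.countP_cons]
    split_ifs
    · exact le_rfl
    · omega
  have h4 : (x :: l).countP (fun x => decide (¬ P x)) * M ≤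
      (l.countP (fun x => decide (¬ P x)) + 1) * M := Nat.mul_le_mul_right _ h3
  have h5 : l.countP (fun x => decide (¬ P x)) * (2 * M) ≤ l.length := h2
  rw [List.length_cons]
  have h6 : (l.countP (fun x => decide (¬ P x)) + 1) * M =
      l.countP (fun x => decide (¬ P x)) * M + M := by ring
  have h7 : l.countP (fun x => decide (¬ P x)) * (2 * M) =
      2 * (l.countP (fun x => decide (¬ P x)) * M) := by ring
  omega

end Pool.Agent.PRT
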