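import Pool.Agent.PRT.AN2

/-! # Meaning of `uN`, `mN`, `wN`, `candN` -/

set_option autoImplicit false

namespace Pool.Agent.PRT

open Finset

private theorem an3_small_pos {N R : ℕ} (h : (R + 1).Prime ∧ N % (R + 1) = 0) (hN : N ≠ 0) :
    PrimRoot.smallPrimes (R + 1) N = insert (R + 1) (PrimRoot.smallPrimes R N) := by
  ext q
  rw [PrimRoot.mem_smallPrimes, mem_insert, PrimRoot.mem_smallPrimes]
  constructor
  · rintro ⟨h1, h2⟩
    rcases Nat.lt_or_ge R q with h3 | h3
    · left; omega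
    · right; exact ⟨h1, h3⟩
  · rintro (h1 | ⟨h1, h2⟩)
    · subst h1
      exact ⟨⟨h.1, Nat.dvd_of_mod_eq_zero h.2, hN⟩, le_rfl⟩
    · exact ⟨h1, by omega⟩

private theorem an3_small_neg {N R : ℕ} (h : ¬ ((R + 1).Prime ∧ N % (R + 1) = 0)) :
    PrimRoot.smallPrimes (R + 1) N = PrimRoot.smallPrimes R N := by
  ext q
  rw [PrimRoot.mem_smallPrimes, PrimRoot.mem_smallPrimes]
  constructor
  · rintro ⟨h1, h2⟩
    refine ⟨h1, ?_⟩
    by_contra h3
    have h4 : q = R + 1 := by omega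
    subst h4
    exact h ⟨h1.1, Nat.mod_eq_zero_of_dvd h1.2.1⟩
  · rintro ⟨h1, h2⟩
    exact ⟨h1, by omega⟩

private theorem an3_notMem (N R : ℕ) : R + 1 ∉ PrimRoot.smallPrimes R N := by
  rw [PrimRoot.mem_smallPrimes]
  omega

private theorem an3_small_zero (N : ℕ) : PrimRoot.smallPrimes 0 N = ∅ := by
  rw [Finset.eq_empty_iff_forall_notMem]
  intro q hq
  rw [PrimRoot.mem_smallPrimes] at hq
  have := hq.1.1.pos
  omega

/-- Induction on `R`: `smallPrimes (R + 1) N` is `smallPrimes R N` or has the new element `R + 1`. -/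
theorem uN_cast (p : ℕ) [Fact p.Prime] {g : ℕ → ℕ} {a : ℕ → (ZMod p)ˣ} {B : ℕ} (hB : 1 ≤ B)
    (h : ∀ i ∈ Icc 1 B, ((g i : ℕ) : ZMod p) = (a i : ZMod p)) (R : ℕ) :
    ((uN p g B R : ℕ) : ZMod p) =
      ((PrimRoot.uElt a R (p - 1) (io p g B) : (ZMod p)ˣ) : ZMod p) := by
  have hp : p.Prime := Fact.out
  have hN : p - 1 ≠ 0 := by have := hp.two_le; omega
  induction R with
  | zero =>
    rw [PrimRoot.uElt, an3_small_zero]
    simp [uN]
  | succ R ih =>
    have hs : uN p g B (R + 1) = if (R + 1).Prime ∧ (p - 1) % (R + 1) = 0 then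
        mmod (uN p g B R) (iel p g B (R + 1)) p else uN p g B R := rfl
    rw [hs]
    by_cases hc : (R + 1).Prime ∧ (p - 1) % (R + 1) = 0
    · rw [if_pos hc, mmod_cast _ _ hp.ne_zero, ih, iel_cast p hB h hc.1, PrimRoot.uElt,
        PrimRoot.uElt, an3_small_pos hc hN, Finset.prod_insert (an3_notMem _ _), Units.val_mul,
        mul_comm]
    · rw [if_neg hc, ih, PrimRoot.uElt, PrimRoot.uElt, an3_small_neg hc]

/-- Induction on `R`, `cf_eq`, `PrimRoot.cofac_mul`. -/
theorem mN_eq {p : ℕ} (hp : 2 ≤ p) (R : ℕ) : mN p R = PrimRoot.smoothPart R (p - 1) := by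
  have hN : p - 1 ≠ 0 := by omega
  induction R with
  | zero =>
    rw [PrimRoot.smoothPart, an3_small_zero]
    simp [mN]
  | succ R ih =>
    have hs : mN p (R + 1) = if (R + 1).Prime ∧ (p - 1) % (R + 1) = 0 then
        mN p R * ((p - 1) / cf p (R + 1)) else mN p R := rfl
    rw [hs]
    by_cases hc : (R + 1).Prime ∧ (p - 1) % (R + 1) = 0
    · have h1 : (p - 1) / cf p (R + 1) = (R + 1) ^ (p - 1).factorization (R + 1) := by
        rw [cf_eq hp hc.1]
        have h2 := PrimRoot.cofac_mul (N := p - 1) (q := R + 1)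
        have h3 : 0 < PrimRoot.cofac (p - 1) (R + 1) := by
          rcases Nat.eq_zero_or_pos (PrimRoot.cofac (p - 1) (R + 1)) with h4 | h4
          · rw [h4, zero_mul] at h2
            exact absurd h2.symm hN
          · exact h4
        exact Nat.div_eq_of_eq_mul_right h3 h2.symm
      rw [if_pos hc, ih, h1, PrimRoot.smoothPart, PrimRoot.smoothPart, an3_small_pos hc hN,
        Finset.prod_insert (an3_notMem _ _), mul_comm]
    · rw [if_neg hc, ih, PrimRoot.smoothPart, PrimRoot.smoothPart, an3_small_neg hc]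

/-- After `k ≤ B` steps the value is the product of the `a i ^ (t ^ (i - (B - k)))` over
`B - k < i ≤ B`. -/
theorem wN_cast (p : ℕ) [Fact p.Prime] {g : ℕ → ℕ} {a : ℕ → (ZMod p)ˣ} {B : ℕ}
    (h : ∀ i ∈ Icc 1 B, ((g i : ℕ) : ZMod p) = (a i : ZMod p)) (t : ℕ) :
    ((wN p g B t : ℕ) : ZMod p) = ((PrimRoot.wElt a B t : (ZMod p)ˣ) : ZMod p) := by
  have hp : p.Prime := Fact.out
  set F : ℕ → ℕ := fun k => Nat.rec (motive := fun _ => ℕ) 1
    (fun i s => pmod (mmod s (g (B - i)) p) t p) k with hF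
  have key : ∀ k, k ≤ B → ((F k : ℕ) : ZMod p) =
      ((∏ i ∈ Ioc (B - k) B, a i ^ (t ^ (i - (B - k))) : (ZMod p)ˣ) : ZMod p) := by
    intro k
    induction k with
    | zero =>
      intro _
      simp [hF]
    | succ k ih =>
      intro hk
      have hs : F (k + 1) = pmod (mmod (F k) (g (B - k)) p) t p := rfl
      rw [hs, pmod_cast _ _ hp.ne_zero, mmod_cast _ _ hp.ne_zero, ih (by omega),
        h (B - k) (by rw [mem_Icc]; omega)]
      have e1 : Ioc (B - (k + 1)) B = insert (B - k) (Ioc (B - k) B) := by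
        ext i
        simp only [mem_Ioc, mem_insert]
        omega
      rw [e1, Finset.prod_insert (by simp)]
      have e2 : B - k - (B - (k + 1)) = 1 := by omega
      rw [e2, pow_one]
      have e3 : ∏ i ∈ Ioc (B - k) B, a i ^ (t ^ (i - (B - (k + 1)))) =
          (∏ i ∈ Ioc (B - k) B, a i ^ (t ^ (i - (B - k)))) ^ t := by
        rw [← Finset.prod_pow]
        refine Finset.prod_congr rfl fun i hi => ?_
        rw [mem_Ioc] at hi
        rw [← pow_mul, ← pow_succ]
        congr 2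
        omega
      rw [e3, ← mul_pow]
      push_cast
      ring
  have h1 := key B le_rfl
  have h2 : Ioc (B - B) B = Icc 1 B := by
    ext i
    simp only [mem_Ioc, mem_Icc]
    omega
  rw [h2] at h1
  simp only [Nat.sub_self, Nat.sub_zero] at h1
  exact h1

theorem candN_cast (p : ℕ) [Fact p.Prime] {g g' : ℕ → ℕ} {a a' : ℕ → (ZMod p)ˣ} {B B' : ℕ}
    (hB : 1 ≤ B) (h : ∀ i ∈ Icc 1 B, ((g i : ℕ) : ZMod p) = (a i : ZMod p))
    (h' : ∀ i ∈ Icc 1 B', ((g' i : ℕ) : ZMod p) = (a' i : ZMod p)) (R t : ℕ) :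
    ((candN p g B g' B' R t : ℕ) : ZMod p) =
      ((PrimRoot.uElt a R (p - 1) (io p g B) *
        PrimRoot.wElt a' B' t ^ PrimRoot.smoothPart R (p - 1) : (ZMod p)ˣ) : ZMod p) := by
  have hp : p.Prime := Fact.out
  rw [candN, mmod_cast _ _ hp.ne_zero, pmod_cast _ _ hp.ne_zero, uN_cast p hB h, wN_cast p h',
    mN_eq hp.two_le]
  push_cast
  rfl

end Pool.Agent.PRT
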