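import Pool.Agent.PRT.GS
import Pool.Agent.PRT.AN3

/-! # Meaning of the check `okC` -/

set_option autoImplicit false

namespace Pool.Agent.PRT

open Finset

private theorem GN4_pmod (p : ℕ) [hp : Fact p.Prime] (y e : ℕ) :
    pmod y e p = 1 ↔ ((y : ℕ) : ZMod p) ^ e = 1 := by
  have h0 : p ≠ 0 := hp.out.ne_zero
  have h1 : 1 < p := hp.out.one_lt
  constructor
  · intro h
    rw [← pmod_cast y e h0, h, Nat.cast_one]
  · intro h
    rw [← pmod_cast y e h0] at h
    have h2 : ((pmod y e p : ℕ) : ZMod p) = ((1 : ℕ) : ZMod p) := by rw [h, Nat.cast_one]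
    rw [ZMod.natCast_eq_natCast_iff'] at h2
    have h3 : pmod y e p < p := by
      unfold pmod
      rw [if_neg h0]
      exact Nat.mod_lt _ (by omega)
    rwa [Nat.mod_eq_of_lt h3, Nat.mod_eq_of_lt h1] at h2

private theorem GN4_card (p : ℕ) [Fact p.Prime] : Nat.card (ZMod p)ˣ = p - 1 := by
  rw [Nat.card_eq_fintype_card, ZMod.card_units]

/-- If `q` divides the index of `H` then `x ^ ((p - 1) / q) = 1` for every `x` in `H`. -/
theorem okC_index (p : ℕ) [Fact p.Prime] {g : ℕ → ℕ} {a : ℕ → (ZMod p)ˣ} {B R : ℕ} (hB : 1 ≤ B)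
    (h : ∀ i ∈ Icc 1 B, ((g i : ℕ) : ZMod p) = (a i : ZMod p)) (hok : okC p g B R = true) :
    ∀ q : ℕ, q.Prime → q ≤ R → ¬ q ∣ (PrimRoot.genSub a B).index := by
  intro q hq hqR hdvd
  obtain ⟨H, hH⟩ : ∃ H, H = PrimRoot.genSub a B := ⟨_, rfl⟩
  rw [← hH] at hdvd
  have hmul : Nat.card H * H.index = p - 1 := by
    rw [Subgroup.card_mul_index, GN4_card]
  have hqp : q ∣ p - 1 := by rw [← hmul]; exact hdvd.mul_left _
  obtain ⟨j, hj⟩ : ∃ j, q = j + 1 := ⟨q - 1, by have := hq.pos; omega⟩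
  unfold okC at hok
  rw [List.all_eq_true] at hok
  have h1 := hok j (List.mem_range.2 (by omega))
  rw [← hj] at h1
  have h2 : (p - 1) % q = 0 := Nat.mod_eq_zero_of_dvd hqp
  simp only [hq, h2, decide_true, Bool.and_self, Bool.not_true, Bool.false_or,
    decide_eq_true_eq] at h1
  apply h1
  rw [GN4_pmod, h _ (io_mem p g hB q), ← Units.val_pow_eq_pow_val]
  have hmem : a (io p g B q) ∈ H := by
    rw [hH]; exact PrimRoot.a_mem a B (io_mem p g hB q)
  obtain ⟨m, hm⟩ := hdvd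
  have h3 : (p - 1) / q = Nat.card H * m := by
    rw [← hmul, hm, show Nat.card H * (q * m) = q * (Nat.card H * m) by ring,
      Nat.mul_div_cancel_left _ hq.pos]
  rw [h3, pow_mul, PrimRoot.pow_card_sub hmem, one_pow, Units.val_one]

/-- `PrimRoot.qpart_ne_one` with `card H = p - 1`, `io_adm`. -/
theorem okC_of_top (p : ℕ) [Fact p.Prime] {g : ℕ → ℕ} {a : ℕ → (ZMod p)ˣ} {B : ℕ} (R : ℕ)
    (hB : 1 ≤ B) (h : ∀ i ∈ Icc 1 B, ((g i : ℕ) : ZMod p) = (a i : ZMod p))
    (htop : PrimRoot.genSub a B = ⊤) : okC p g B R = true := by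
  have hp : p.Prime := Fact.out
  unfold okC
  rw [List.all_eq_true]
  intro j hj
  rw [List.mem_range] at hj
  obtain ⟨q, hq⟩ : ∃ q, q = j + 1 := ⟨_, rfl⟩
  rw [← hq]
  by_cases hqp : q.Prime
  swap
  · simp [hqp]
  by_cases hdvd : (p - 1) % q = 0
  swap
  · simp [hdvd]
  simp only [hqp, hdvd, decide_true, Bool.and_self, Bool.not_true, Bool.false_or,
    decide_eq_true_eq]
  rw [Ne, GN4_pmod, h _ (io_mem p g hB q), ← Units.val_pow_eq_pow_val]
  intro hone
  have hone' : a (io p g B q) ^ ((p - 1) / q) = 1 := by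
    apply Units.ext
    rw [hone, Units.val_one]
  have hcyc : IsCyclic (ZMod p)ˣ := inferInstance
  have hqd : q ∣ p - 1 := Nat.dvd_of_mod_eq_zero hdvd
  have hp1 : p - 1 ≠ 0 := by have := hp.two_le; omega
  have hadm : PrimRoot.Adm a B R (Nat.card (ZMod p)ˣ) (io p g B) := by
    rw [GN4_card]; exact io_adm p hB h R
  have hmem : q ∈ PrimRoot.smallPrimes R (Nat.card (ZMod p)ˣ) := by
    rw [GN4_card]
    exact (PrimRoot.mem_smallPrimes R).2 ⟨⟨hqp, hqd, hp1⟩, by omega⟩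
  have hcard : Nat.card (PrimRoot.genSub a B) = p - 1 := by
    rw [htop, Subgroup.card_top, GN4_card]
  have hne := PrimRoot.qpart_ne_one a B R hadm hmem (by rw [hcard]; exact hqd)
  apply hne
  rw [hcard, ← pow_mul, mul_comm, pow_mul, hone', one_pow]

end Pool.Agent.PRT
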