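import Pool.Agent.PRT.AN5

/-! # `rootN` generates -/

set_option autoImplicit false

namespace Pool.Agent.PRT

open Finset

private theorem AN5b_small {N R : ℕ} (h : ∀ q : ℕ, q.Prime → q ∣ N → q ≤ R) :
    PrimRoot.smallPrimes R N = N.primeFactors := by
  ext q
  rw [PrimRoot.mem_smallPrimes, Nat.mem_primeFactors]
  constructor
  · exact fun h1 => h1.1
  · exact fun h1 => ⟨h1, h q h1.1 h1.2.1⟩

private theorem AN5b_all {N : ℕ} (hN : N ≠ 0) : PrimRoot.smallPrimes N N = N.primeFactors :=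
  AN5b_small fun _ _ hd => Nat.le_of_dvd (Nat.pos_of_ne_zero hN) hd

private theorem AN5b_card (p : ℕ) [Fact p.Prime] : Nat.card (ZMod p)ˣ = p - 1 := by
  rw [Nat.card_eq_fintype_card, ZMod.card_units_eq_totient, Nat.totient_prime Fact.out]

theorem rootN_cast (p : ℕ) [Fact p.Prime] {g : ℕ → ℕ} {a : ℕ → (ZMod p)ˣ} {B : ℕ} (hB : 1 ≤ B)
    (h : ∀ i ∈ Icc 1 B, ((g i : ℕ) : ZMod p) = (a i : ZMod p)) {R : ℕ}
    (hR : ∀ q q' : ℕ, q.Prime → q'.Prime → q ∣ p - 1 → q' ∣ p - 1 → R < q → R < q' → q = q') :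
    ((rootN p g B R : ℕ) : ZMod p) =
      ((PrimRoot.uElt a (p - 1) (p - 1) (io p g B) : (ZMod p)ˣ) : ZMod p) := by
  have hp : p.Prime := Fact.out
  have hN : p - 1 ≠ 0 := by
    have := hp.two_le
    omega
  rcases rough_cases hp.two_le hR with ⟨h1, h2⟩ | ⟨q, J, hq, hJ, hRq, hqd, hr, h2⟩
  · rw [rootN, if_pos h1, uN_cast p hB h]
    congr 1
    unfold PrimRoot.uElt
    rw [AN5b_all hN, AN5b_small h2]
  · have hne : rough p R ≠ 1 := by
      rw [hr]
      exact (Nat.one_lt_pow (by omega) hq.one_lt).ne'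
    rw [rootN, if_neg hne, mmod_cast _ _ hp.ne_zero, uN_cast p hB h, hr, base_pow hq hJ,
      iel_cast p hB h hq, ← Units.val_mul]
    congr 1
    have hmem : q ∈ (p - 1).primeFactors := Nat.mem_primeFactors.2 ⟨hq, hqd, hN⟩
    unfold PrimRoot.uElt
    rw [AN5b_all hN, ← Finset.prod_erase_mul _ _ hmem]
    congr 1
    apply Finset.prod_congr _ (fun _ _ => rfl)
    ext r
    rw [PrimRoot.mem_smallPrimes, Finset.mem_erase, Nat.mem_primeFactors]
    constructor
    · rintro ⟨h3, h4⟩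
      refine ⟨?_, h3⟩
      rintro rfl
      omega
    · rintro ⟨h3, h4⟩
      exact ⟨h4, h2 r h4.1 h4.2.1 h3⟩

/-- `PrimRoot.core_of_good` with `R = p - 1` and, for instance, `t = 0`: there is no prime factor
above `p - 1`, the smooth part is `p - 1`, and `w ^ (p - 1) = 1`. -/
theorem zpowers_all (p : ℕ) [Fact p.Prime] {g : ℕ → ℕ} {a : ℕ → (ZMod p)ˣ} {B : ℕ} (hB : 1 ≤ B)
    (h : ∀ i ∈ Icc 1 B, ((g i : ℕ) : ZMod p) = (a i : ZMod p)) :
    Subgroup.zpowers (PrimRoot.uElt a (p - 1) (p - 1) (io p g B)) = PrimRoot.genSub a B := by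
  have hp : p.Prime := Fact.out
  have hN : p - 1 ≠ 0 := by
    have := hp.two_le
    omega
  have hc := AN5b_card p
  have hadm := io_adm p hB h (p - 1)
  have hs : PrimRoot.smoothPart (p - 1) (p - 1) = p - 1 := by
    unfold PrimRoot.smoothPart
    rw [AN5b_all hN]
    conv_rhs => rw [← Nat.prod_factorization_pow_eq_self hN]
    unfold Finsupp.prod
    rw [Nat.support_factorization]
  have key := PrimRoot.core_of_good a B (R := p - 1) (t := 0) (ι := io p g B) ?_ ?_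
  · rw [hc, hs] at key
    have h1 : PrimRoot.wElt a B 0 ^ (p - 1) = 1 := by
      rw [← hc]
      exact pow_card_eq_one'
    rw [h1, mul_one] at key
    exact key
  · intro q hq hlt hd
    exfalso
    have h1 : q ∣ Nat.card (ZMod p)ˣ := hd.trans (Subgroup.card_subgroup_dvd_card _)
    rw [hc] at h1
    have := Nat.le_of_dvd (Nat.pos_of_ne_zero hN) h1
    omega
  · rw [hc]
    exact hadm

/-- the residue `rootN` generates the group generated by `a 1, ..., a B` -/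
theorem rootN_gen (p : ℕ) [Fact p.Prime] {g : ℕ → ℕ} {a : ℕ → (ZMod p)ˣ} {B : ℕ} (hB : 1 ≤ B)
    (h : ∀ i ∈ Icc 1 B, ((g i : ℕ) : ZMod p) = (a i : ZMod p)) {R : ℕ}
    (hR : ∀ q q' : ℕ, q.Prime → q'.Prime → q ∣ p - 1 → q' ∣ p - 1 → R < q → R < q' → q = q') :
    ∃ u : (ZMod p)ˣ, ((rootN p g B R : ℕ) : ZMod p) = u ∧
      Subgroup.zpowers u = PrimRoot.genSub a B :=
  ⟨_, rootN_cast p hB h hR, zpowers_all p hB h⟩

end Pool.Agent.PRT
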