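import Pool.Agent.PRT.AN6

/-! # Almost all candidates are good: two sets of generators -/

set_option autoImplicit false

namespace Pool.Agent.PRT

open Finset

private theorem AN6b_count (T : ℕ) (p : ℕ → Bool) (s : Finset ℕ)
    (h : ∀ i < T, p i = true → i + 1 ∈ s) : (List.range T).countP p ≤ s.card := by
  have h1 : (List.range T).countP p = ((Finset.range T).filter (fun i => p i = true)).card := by
    rw [List.countP_eq_length_filter]
    have : (fun i => decide (p i = true)) = p := by
      funext i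
      simp
    show ((List.range T).filter p).length =
      ((List.range T).filter (fun i => decide (p i = true))).length
    rw [this]
  rw [h1]
  apply Finset.card_le_card_of_injOn (fun i => i + 1)
  · intro i hi
    rw [Finset.mem_coe, Finset.mem_filter, Finset.mem_range] at hi
    exact h i hi.1 hi.2
  · intro i _ j _ hij
    exact Nat.succ_injective hij

private theorem AN6b_card (p : ℕ) [Fact p.Prime] : Nat.card (ZMod p)ˣ = p - 1 := by
  rw [Nat.card_eq_fintype_card, ZMod.card_units_eq_totient, Nat.totient_prime Fact.out]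

private theorem AN6b_log (p : ℕ) [Fact p.Prime] : Nat.log 2 (p - 1) ≤ Nat.size p := by
  have hp : p.Prime := Fact.out
  have hN : p - 1 ≠ 0 := by
    have := hp.two_le
    omega
  have h1 : 2 ^ Nat.log 2 (p - 1) ≤ p := (Nat.pow_log_le_self 2 hN).trans (Nat.sub_le p 1)
  exact (Nat.lt_size.2 h1).le

section
variable {G : Type*} [CommGroup G] [Finite G]

omit [Finite G] in
/-- the other components of `u` vanish -/
private theorem AN6b_other {q r : ℕ} (hq : q.Prime) (hr : r.Prime) (hqN : q ∣ Nat.card G)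
    (hqr : q ≠ r) (x : G) : (x ^ PrimRoot.cofac (Nat.card G) r) ^ (Nat.card G / q) = 1 := by
  have hd : q ∣ PrimRoot.cofac (Nat.card G) r := by
    have h1 : q ∣ PrimRoot.cofac (Nat.card G) r * r ^ (Nat.card G).factorization r := by
      rw [PrimRoot.cofac_mul]
      exact hqN
    refine (Nat.Coprime.dvd_of_dvd_mul_right ?_ h1)
    exact Nat.Coprime.pow_right _ ((Nat.coprime_primes hq hr).2 hqr)
  obtain ⟨c, hc⟩ := hd
  obtain ⟨m, hm⟩ := hqN
  rw [← pow_mul, hc, hm, Nat.mul_div_cancel_left _ hq.pos,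
    show q * c * m = (q * m) * c by ring, ← hm, pow_mul, pow_card_eq_one', one_pow]

omit [Finite G] in
/-- if `z = y ^ (card H / q) ≠ 1`, `y ∈ H`, `q` prime to `k` and to the index, then
`y ^ (k * (card G / q)) ≠ 1` -/
private theorem AN6b_ne {H : Subgroup G} {y : G} (hy : y ∈ H) {q k : ℕ} (hq : q.Prime)
    (hqH : q ∣ Nat.card H) (hk : Nat.Coprime q k) (hi : ¬ q ∣ H.index)
    (hne : y ^ (Nat.card H / q) ≠ 1) : (y ^ k) ^ (Nat.card G / q) ≠ 1 := by
  intro hone
  apply hne
  have hG : Nat.card G = Nat.card H * H.index := (Subgroup.card_mul_index H).symm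
  have h1 : (y ^ (Nat.card H / q)) ^ (k * H.index) = 1 := by
    rw [← pow_mul]
    rw [← pow_mul] at hone
    rw [← hone]
    congr 1
    obtain ⟨m, hm⟩ := hqH
    rw [hG, hm, Nat.mul_div_cancel_left _ hq.pos, mul_assoc q m, Nat.mul_div_cancel_left _ hq.pos]
    ring
  have h2 : (y ^ (Nat.card H / q)) ^ q = 1 := by
    rw [← pow_mul, Nat.div_mul_cancel hqH]
    exact PrimRoot.pow_card_sub hy
  have hc : Nat.Coprime q (k * H.index) :=
    Nat.Coprime.mul_right hk ((Nat.Prime.coprime_iff_not_dvd hq).2 hi)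
  have h3 : orderOf (y ^ (Nat.card H / q)) ∣ 1 := by
    rw [← hc]
    exact Nat.dvd_gcd (orderOf_dvd_of_pow_eq_one h2) (orderOf_dvd_of_pow_eq_one h1)
  exact orderOf_eq_one_iff.1 (Nat.dvd_one.1 h3)

private theorem AN6b_good [IsCyclic G] (a a' : ℕ → G) (B B' : ℕ) {R t : ℕ} {ι : ℕ → ℕ}
    (hadm : PrimRoot.Adm a B R (Nat.card G) ι)
    (h1 : ∀ q : ℕ, q.Prime → q ≤ R → ¬ q ∣ (PrimRoot.genSub a B).index)
    (h2 : ∀ q : ℕ, q.Prime → R < q → ¬ q ∣ (PrimRoot.genSub a' B').index)
    (hgood : ∀ q, q.Prime → R < q → q ∣ Nat.card (PrimRoot.genSub a' B') →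
      (PrimRoot.wElt a' B' t) ^ (Nat.card (PrimRoot.genSub a' B') / q) ≠ 1) :
    orderOf (PrimRoot.uElt a R (Nat.card G) ι *
      PrimRoot.wElt a' B' t ^ PrimRoot.smoothPart R (Nat.card G)) = Nat.card G := by
  have hNne : Nat.card G ≠ 0 := Nat.card_pos.ne'
  apply orderOf_eq_of_pow_and_pow_div_prime Nat.card_pos pow_card_eq_one'
  intro q hq hqN
  rw [mul_pow]
  rcases le_or_gt q R with hqR | hqR
  · have hqS : q ∈ PrimRoot.smallPrimes R (Nat.card G) :=
      (PrimRoot.mem_smallPrimes R).2 ⟨⟨hq, hqN, hNne⟩, hqR⟩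
    have hqH : q ∣ Nat.card (PrimRoot.genSub a B) := by
      have h3 : q ∣ Nat.card (PrimRoot.genSub a B) * (PrimRoot.genSub a B).index := by
        rw [Subgroup.card_mul_index]
        exact hqN
      exact (hq.dvd_mul.1 h3).resolve_right (h1 q hq hqR)
    have hw1 : (PrimRoot.wElt a' B' t ^ PrimRoot.smoothPart R (Nat.card G)) ^
        (Nat.card G / q) = 1 := by
      have hqs : q ∣ PrimRoot.smoothPart R (Nat.card G) := by
        refine (dvd_pow_self q ?_).trans (PrimRoot.dvd_smoothPart R hqS)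
        have h5 := (hq.dvd_iff_one_le_factorization hNne).1 hqN
        omega
      obtain ⟨c, hc⟩ := hqs
      obtain ⟨m, hm⟩ := hqN
      rw [← pow_mul, hc]
      nth_rewrite 1 [hm]
      rw [Nat.mul_div_cancel_left _ hq.pos,
        show q * c * m = (q * m) * c by ring, ← hm, pow_mul, pow_card_eq_one', one_pow]
    rw [hw1, mul_one]
    have hu1 : (PrimRoot.uElt a R (Nat.card G) ι) ^ (Nat.card G / q) =
        (a (ι q) ^ PrimRoot.cofac (Nat.card G) q) ^ (Nat.card G / q) := by
      unfold PrimRoot.uElt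
      rw [← Finset.prod_pow]
      rw [← Finset.mul_prod_erase _ _ hqS]
      conv_rhs => rw [← mul_one ((a (ι q) ^ PrimRoot.cofac (Nat.card G) q) ^ (Nat.card G / q))]
      congr 1
      apply Finset.prod_eq_one
      intro r hr
      rw [Finset.mem_erase] at hr
      exact AN6b_other hq (PrimRoot.smallPrimes_prime R hr.2) hqN hr.1.symm _
    rw [hu1]
    have hne := PrimRoot.qpart_ne_one a B R hadm hqS hqH
    have hmem : a (ι q) ^ PrimRoot.cofac (Nat.card G) q ∈ PrimRoot.genSub a B :=
      Subgroup.pow_mem _ (PrimRoot.a_mem a B (hadm q hqS).1) _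
    have := AN6b_ne hmem hq hqH (Nat.coprime_one_right q) (h1 q hq hqR) hne
    rw [pow_one] at this
    exact this
  · have hqH : q ∣ Nat.card (PrimRoot.genSub a' B') := by
      have h3 : q ∣ Nat.card (PrimRoot.genSub a' B') * (PrimRoot.genSub a' B').index := by
        rw [Subgroup.card_mul_index]
        exact hqN
      exact (hq.dvd_mul.1 h3).resolve_right (h2 q hq hqR)
    have hu1 : (PrimRoot.uElt a R (Nat.card G) ι) ^ (Nat.card G / q) = 1 := by
      unfold PrimRoot.uElt
      rw [← Finset.prod_pow]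
      apply Finset.prod_eq_one
      intro r hr
      refine AN6b_other hq (PrimRoot.smallPrimes_prime R hr) hqN ?_ _
      rintro rfl
      have := ((PrimRoot.mem_smallPrimes R).1 hr).2
      omega
    rw [hu1, one_mul]
    exact AN6b_ne (PrimRoot.wElt_mem a' B' t) hq hqH (PrimRoot.coprime_smoothPart R hq hqR)
      (h2 q hq hqR) (hgood q hq hqR hqH)

open Classical in
private theorem AN6b_bad [IsCyclic G] (a' : ℕ → G) (B' : ℕ) {R T : ℕ} (hTR : T ≤ R) :
    ((Icc 1 T).filter (fun t => ¬ ∀ q, q.Prime → R < q →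
      q ∣ Nat.card (PrimRoot.genSub a' B') →
      (PrimRoot.wElt a' B' t) ^ (Nat.card (PrimRoot.genSub a' B') / q) ≠ 1)).card ≤
      B' * Nat.log 2 (Nat.card G) := by
  set H := PrimRoot.genSub a' B' with hH
  have hHpos : Nat.card H ≠ 0 := Nat.card_pos.ne'
  set Q := (Nat.card H).primeFactors.filter (fun q => R < q) with hQ
  set bad := Q.biUnion (fun q => (Icc 1 T).filter
    (fun t => (PrimRoot.wElt a' B' t) ^ (Nat.card H / q) = 1)) with hbad
  have hcard : bad.card ≤ B' * Nat.log 2 (Nat.card G) := by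
    calc bad.card ≤ ∑ q ∈ Q, ((Icc 1 T).filter
          (fun t => (PrimRoot.wElt a' B' t) ^ (Nat.card H / q) = 1)).card :=
          Finset.card_biUnion_le
      _ ≤ ∑ _q ∈ Q, B' := by
          apply Finset.sum_le_sum
          intro q hq
          rw [hQ, Finset.mem_filter, Nat.mem_primeFactors] at hq
          exact PrimRoot.bad_card a' B' T hq.1.1 (lt_of_le_of_lt hTR hq.2) hq.1.2.1
      _ = Q.card * B' := by rw [Finset.sum_const, smul_eq_mul]
      _ ≤ Nat.log 2 (Nat.card G) * B' := by
          apply Nat.mul_le_mul_right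
          calc Q.card ≤ (Nat.card H).primeFactors.card := Finset.card_filter_le _ _
            _ ≤ Nat.log 2 (Nat.card H) := PrimRoot.card_primeFactors_le _ hHpos
            _ ≤ Nat.log 2 (Nat.card G) :=
                Nat.log_mono_right (Nat.le_of_dvd Nat.card_pos (Subgroup.card_subgroup_dvd_card H))
      _ = _ := mul_comm _ _
  refine (Finset.card_le_card ?_).trans hcard
  intro t ht
  rw [Finset.mem_filter] at ht
  obtain ⟨ht, hne⟩ := ht
  push Not at hne
  obtain ⟨q, hq, hqR, hqH, hone⟩ := hne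
  rw [hbad, Finset.mem_biUnion]
  refine ⟨q, ?_, ?_⟩
  · rw [hQ, Finset.mem_filter, Nat.mem_primeFactors]
    exact ⟨⟨hq, hqH, hHpos⟩, hqR⟩
  · rw [Finset.mem_filter]
    exact ⟨ht, hone⟩

end

/-- Two sets of generators: if the index of the group of `a 1, ..., a B` has no prime factor `≤ R`
and the index of the group of `a' 1, ..., a' B'` has no prime factor `> R`, then almost all
candidates are primitive roots.  For a prime `q ≤ R` as in `PrimRoot.core_of_good` (the factor `u`),
for `q > R` with `PrimRoot.bad_card`, where `q ^ v_q(p - 1)` divides the order of the second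
group. -/
theorem most_cand_two (p : ℕ) [Fact p.Prime] {g g' : ℕ → ℕ} {a a' : ℕ → (ZMod p)ˣ} {B B' : ℕ}
    (hB : 1 ≤ B) (h : ∀ i ∈ Icc 1 B, ((g i : ℕ) : ZMod p) = (a i : ZMod p))
    (h' : ∀ i ∈ Icc 1 B', ((g' i : ℕ) : ZMod p) = (a' i : ZMod p)) {M R T : ℕ} (hT : 1 ≤ T)
    (hTR : T ≤ R) (hM : B' * Nat.size p * M ≤ T)
    (h1 : ∀ q : ℕ, q.Prime → q ≤ R → ¬ q ∣ (PrimRoot.genSub a B).index)
    (h2 : ∀ q : ℕ, q.Prime → R < q → ¬ q ∣ (PrimRoot.genSub a' B').index) :
    Most M (candList p g B g' B' R T)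
      (fun x => ∃ u : (ZMod p)ˣ, (x : ZMod p) = u ∧ orderOf u = p - 1) := by
  classical
  refine ⟨?_, ?_⟩
  · rw [candList]
    intro h0
    have := congrArg List.length h0
    simp at this
    omega
  · have hlen : (candList p g B g' B' R T).length = T := by simp [candList]
    rw [hlen]
    refine le_trans ?_ hM
    apply Nat.mul_le_mul_right
    have hbad := AN6b_bad (G := (ZMod p)ˣ) a' B' hTR
    rw [AN6b_card] at hbad
    refine le_trans ?_ (hbad.trans (Nat.mul_le_mul_left B' (AN6b_log p)))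
    rw [candList, List.countP_map]
    refine AN6b_count T _ _ ?_
    intro i hi hP
    rw [Finset.mem_filter, Finset.mem_Icc]
    refine ⟨⟨by omega, by omega⟩, ?_⟩
    intro hgood
    have hP' : ¬ ∃ u : (ZMod p)ˣ, ((candN p g B g' B' R (i + 1) : ℕ) : ZMod p) = u ∧
        orderOf u = p - 1 := by
      simpa using hP
    refine hP' ⟨_, candN_cast p hB h h' R (i + 1), ?_⟩
    have hc := AN6b_card p
    have key := AN6b_good a a' B B' (G := (ZMod p)ˣ) (t := i + 1)
      (ι := io p g B) (R := R) ?_ h1 h2 hgood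
    · rw [hc] at key
      exact key
    · rw [hc]
      exact io_adm p hB h R

end Pool.Agent.PRT
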