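import Pool.Agent.PRT.APT3

/-! # `rough`, `base`, `rootN` -/

set_option autoImplicit false

namespace Pool.Agent.PRT

open Pool.NPC Pool.NPC.Enc Pool.NPC.Tr Polynomial

variable {α β γ : Type} [Enc α] [Enc β] [Enc γ]

/-- `BT.natRec`; all states are `≤ r`: `iroot (i+1) r ≤ r` by `iroot_spec`. -/
theorem BT.base {r : α → ℕ} (hr : BT r) : BT (fun a => base (r a)) := by
  obtain ⟨Q, hQ⟩ := hr.size
  have hir : ∀ r i : ℕ, PRT.iroot (i + 1) r ≤ r := by
    intro r i
    have h := (iroot_spec (j := i + 1) (by omega) r).1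
    rcases Nat.eq_zero_or_pos (PRT.iroot (i + 1) r) with h0 | h0
    · omega
    · exact (Nat.le_self_pow (by omega) _).trans h
  have hle : ∀ a i, (Nat.rec (motive := fun _ => ℕ) (r a)
      (fun i s => if PRT.iroot (i + 1) (r a) ^ (i + 1) = r a then PRT.iroot (i + 1) (r a) else s)
      i : ℕ) ≤ r a := by
    intro a i
    induction i with
    | zero => exact le_rfl
    | succ i ih =>
      show (if PRT.iroot (i + 1) (r a) ^ (i + 1) = r a then PRT.iroot (i + 1) (r a)
        else (Nat.rec (motive := fun _ => ℕ) (r a)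
      (fun i s => if PRT.iroot (i + 1) (r a) ^ (i + 1) = r a then PRT.iroot (i + 1) (r a) else s)
      i : ℕ)) ≤ _
      split_ifs
      · exact hir _ _
      · exact ih
  have hr' : BT (fun y : α × (ℕ × Bin) => r y.1) := BT.comp (F := r) hr PT.fst
  have hs : BT (fun y : α × (ℕ × Bin) => y.2.2.val) := PT.snd' (PT.snd' PT.id)
  have hq : PT (fun y : α × (ℕ × Bin) => y.2.1 + 1) := PT.succ (PT.fst' (PT.snd' PT.id))
  exact BT.natRec (n := fun a => Nat.size (r a)) (z := r)
    (g := fun y => if PRT.iroot (y.2.1 + 1) (r y.1) ^ (y.2.1 + 1) = r y.1 then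
      PRT.iroot (y.2.1 + 1) (r y.1) else y.2.2.val) hr.sizeU hr
    (BT.ite (BT.eq (BT.powU (BT.iroot hq hr') hq) hr') (BT.iroot hq hr') hs)
    Q fun a i _ => (Nat.size_le_size (hle a i)).trans (hQ a)

theorem BT.rough {p R : α → ℕ} (hp : BT p) (hR : PT R) : BT (fun a => rough (p a) (R a)) :=
  BT.div (BT.sub hp (BT.const 1)) (BT.mN hp hR)

theorem BT.rootN {p : α → ℕ} {g : α × ℕ → ℕ} {B R : α → ℕ} (hp : BT p) (hg : BT g) (hB : PT B)
    (hR : PT R) : BT (fun a => rootN (p a) (fun i => g (a, i)) (B a) (R a)) :=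
  BT.ite (BT.eq (BT.rough hp hR) (BT.const 1)) (BT.uN hp hg hB hR)
    (BT.mmod (BT.uN hp hg hB hR) (BT.iel hp hg hB (BT.base (BT.rough hp hR))) hp)

end Pool.Agent.PRT
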