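import Pool.Agent.PRT.AN3

/-! # Almost all candidates are good -/

set_option autoImplicit false

namespace Pool.Agent.PRT

open Finset

/-- The list is not empty and at most the part `1 / M` of its entries fails `P`. -/
def Most (M : ℕ) (l : List ℕ) (P : ℕ → Prop) : Prop :=
  l ≠ [] ∧ open Classical in l.countP (fun x => decide (¬ P x)) * M ≤ l.length

theorem Most.mono {M : ℕ} {l : List ℕ} {P Q : ℕ → Prop} (h : Most M l P)
    (hPQ : ∀ x ∈ l, P x → Q x) : Most M l Q := by
  classical
  refine ⟨h.1, le_trans (Nat.mul_le_mul_right M ?_) h.2⟩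
  apply List.countP_mono_left
  intro x hx hq
  rw [decide_eq_true_eq] at hq ⊢
  exact fun hp => hq (hPQ x hx hp)

private theorem AN6_count (T : ℕ) (p : ℕ → Bool) (s : Finset ℕ)
    (h : ∀ i < T, p i = true → i + 1 ∈ s) : (List.range T).countP p ≤ s.card := by
  have h1 : (List.range T).countP p = ((Finset.range T).filter (fun i => p i = true)).card := by
    rw [List.countP_eq_length_filter]
    have : (fun i => decide (p i = true)) = p := by
      funext i
      simp
    show ((List.range T).filter p).length =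
      ((List.range T).filter (fun i => decide (p i = true))).length
    rw [this]
  rw [h1]
  apply Finset.card_le_card_of_injOn (fun i => i + 1)
  · intro i hi
    rw [Finset.mem_coe, Finset.mem_filter, Finset.mem_range] at hi
    exact h i hi.1 hi.2
  · intro i _ j _ hij
    exact Nat.succ_injective hij

private theorem AN6_card (p : ℕ) [Fact p.Prime] : Nat.card (ZMod p)ˣ = p - 1 := by
  rw [Nat.card_eq_fintype_card, ZMod.card_units_eq_totient, Nat.totient_prime Fact.out]

private theorem AN6_log (p : ℕ) [Fact p.Prime] : Nat.log 2 (p - 1) ≤ Nat.size p := by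
  have hp : p.Prime := Fact.out
  have hN : p - 1 ≠ 0 := by
    have := hp.two_le
    omega
  have h1 : 2 ^ Nat.log 2 (p - 1) ≤ p := (Nat.pow_log_le_self 2 hN).trans (Nat.sub_le p 1)
  exact (Nat.lt_size.2 h1).le

/-- `PrimRoot.bad_total` (with `T := R = T`): at most `B * log₂ (p - 1)` of the `t ∈ [1, T]` are bad. -/
theorem most_cand (p : ℕ) [Fact p.Prime] {g : ℕ → ℕ} {a : ℕ → (ZMod p)ˣ} {B : ℕ} (hB : 1 ≤ B)
    (h : ∀ i ∈ Icc 1 B, ((g i : ℕ) : ZMod p) = (a i : ZMod p)) {M T : ℕ} (hT : 1 ≤ T)
    (hM : B * Nat.size p * M ≤ T) :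
    Most M (candList p g B g B T T)
      (fun x => ∃ u : (ZMod p)ˣ, (x : ZMod p) = u ∧ Subgroup.zpowers u = PrimRoot.genSub a B) := by
  classical
  refine ⟨?_, ?_⟩
  · rw [candList]
    intro h0
    have := congrArg List.length h0
    simp at this
    omega
  · have hlen : (candList p g B g B T T).length = T := by simp [candList]
    rw [hlen]
    refine le_trans ?_ hM
    apply Nat.mul_le_mul_right
    have hbad := PrimRoot.bad_total (G := (ZMod p)ˣ) a B T
    rw [AN6_card] at hbad
    refine le_trans ?_ (hbad.trans (Nat.mul_le_mul_left B (AN6_log p)))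
    rw [candList, List.countP_map]
    refine AN6_count T _ _ ?_
    intro i hi hP
    rw [Finset.mem_filter, Finset.mem_Icc]
    refine ⟨⟨by omega, by omega⟩, io p g B, io_adm p hB h T, ?_⟩
    intro hz
    have hP' : ¬ ∃ u : (ZMod p)ˣ, ((candN p g B g B T (i + 1) : ℕ) : ZMod p) = u ∧
        Subgroup.zpowers u = PrimRoot.genSub a B := by
      simpa using hP
    exact hP' ⟨_, candN_cast p hB h h T (i + 1), hz⟩

/-- from the group to the order, in the multiplicative monoid `ZMod p` -/
theorem order_of_gen (p : ℕ) [Fact p.Prime] {x : ℕ} {u : (ZMod p)ˣ} (hx : (x : ZMod p) = u)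
    {H : Subgroup (ZMod p)ˣ} (hu : Subgroup.zpowers u = H) :
    orderOf (x : ZMod p) * H.index = p - 1 := by
  rw [hx, orderOf_units, ← hu, ← Nat.card_zpowers, Subgroup.card_mul_index, AN6_card]

end Pool.Agent.PRT
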