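import Pool.Agent.PRT.APT2

/-! # `uN`, `mN`, `wN`, `candN` -/

set_option autoImplicit false

namespace Pool.Agent.PRT

open Pool.NPC Pool.NPC.Enc Pool.NPC.Tr Polynomial

variable {α β γ : Type} [Enc α] [Enc β] [Enc γ]

private theorem apt3_size {x p : ℕ} (h : x ≤ p + 1) : Nat.size x ≤ Nat.size p + 1 := by
  refine Nat.size_le.mpr (h.trans_lt ?_)
  have h1 := Nat.lt_size_self p
  rw [pow_succ]
  have h2 : 1 ≤ 2 ^ Nat.size p := Nat.one_le_two_pow
  omega

private theorem apt3_mul (x y : ℕ) : Nat.size (x * y) ≤ Nat.size x + Nat.size y := by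
  refine Nat.size_le.mpr ?_
  rw [pow_add]
  exact Nat.mul_lt_mul'' (Nat.lt_size_self x) (Nat.lt_size_self y)

private theorem apt3_cond {p q : α → ℕ} (hp : BT p) (hq : PT q) :
    PT (fun a => decide ((q a).Prime ∧ (p a - 1) % q a = 0)) := by
  refine (PT.and (PT.prime hq) (BT.eq (BT.mod (BT.sub hp (BT.const 1)) (BT.ofUnary hq))
    (BT.const 0))).congr fun a => ?_
  rw [Bool.decide_and]

/-- `BT.natRec`; all states are `≤ max 1 p` (`mmod_le`). -/
theorem BT.uN {p : α → ℕ} {g : α × ℕ → ℕ} {B R : α → ℕ} (hp : BT p) (hg : BT g) (hB : PT B)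
    (hR : PT R) : BT (fun a => uN (p a) (fun i => g (a, i)) (B a) (R a)) := by
  obtain ⟨Q, hQ⟩ := hp.size
  have hle : ∀ a i, PRT.uN (p a) (fun i => g (a, i)) (B a) i ≤ p a + 1 := by
    intro a i
    induction i with
    | zero => exact Nat.le_add_left 1 _
    | succ i ih =>
      show (if (i + 1).Prime ∧ (p a - 1) % (i + 1) = 0 then
        PRT.mmod (PRT.uN (p a) (fun i => g (a, i)) (B a) i)
          (PRT.iel (p a) (fun i => g (a, i)) (B a) (i + 1)) (p a)
        else PRT.uN (p a) (fun i => g (a, i)) (B a) i) ≤ _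
      split_ifs
      · exact (mmod_le _ _ _).trans (Nat.le_succ _)
      · exact ih
  have hp' : BT (fun y : α × (ℕ × Bin) => p y.1) := BT.comp (F := p) hp PT.fst
  have hB' : PT (fun y : α × (ℕ × Bin) => B y.1) := PT.comp (g := B) hB PT.fst
  have hq : PT (fun y : α × (ℕ × Bin) => y.2.1 + 1) := PT.succ (PT.fst' (PT.snd' PT.id))
  have hs : BT (fun y : α × (ℕ × Bin) => y.2.2.val) := PT.snd' (PT.snd' PT.id)
  have hg' : BT (fun z : (α × (ℕ × Bin)) × ℕ => g (z.1.1, z.2)) :=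
    BT.comp (F := g) hg (PT.pair (PT.fst' PT.fst) PT.snd)
  exact BT.natRec (n := R) (z := fun _ => 1)
    (g := fun y => if (y.2.1 + 1).Prime ∧ (p y.1 - 1) % (y.2.1 + 1) = 0 then
      PRT.mmod y.2.2.val (PRT.iel (p y.1) (fun i => g (y.1, i)) (B y.1) (y.2.1 + 1)) (p y.1)
      else y.2.2.val) hR (BT.const 1)
    (BT.ite (apt3_cond hp' hq) (BT.mmod hs (BT.iel hp' hg' hB' (BT.ofUnary hq)) hp') hs)
    (Q + 1) fun a i _ => by
      refine (apt3_size (hle a i)).trans ?_
      rw [eval_add, eval_one]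
      exact Nat.add_le_add_right (hQ a) 1

/-- `BT.natRec`; every factor has size at most `size p`, so the states have size at most
`R * size p + 1`. -/
theorem BT.mN {p R : α → ℕ} (hp : BT p) (hR : PT R) : BT (fun a => mN (p a) (R a)) := by
  obtain ⟨Q, hQ⟩ := hp.size
  obtain ⟨QR, hQR⟩ := hR.size
  have hle : ∀ a i, Nat.size (PRT.mN (p a) i) ≤ 1 + i * Nat.size (p a) := by
    intro a i
    induction i with
    | zero => simp [PRT.mN]
    | succ i ih =>
      show Nat.size (if (i + 1).Prime ∧ (p a - 1) % (i + 1) = 0 then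
        PRT.mN (p a) i * ((p a - 1) / PRT.cf (p a) (i + 1)) else PRT.mN (p a) i) ≤ _
      have h1 : (i + 1) * Nat.size (p a) = i * Nat.size (p a) + Nat.size (p a) := by ring
      split_ifs
      · refine (apt3_mul _ _).trans ?_
        have h2 : Nat.size ((p a - 1) / PRT.cf (p a) (i + 1)) ≤ Nat.size (p a) :=
          Nat.size_le_size ((Nat.div_le_self _ _).trans (Nat.sub_le _ _))
        omega
      · omega
  have hp' : BT (fun y : α × (ℕ × Bin) => p y.1) := BT.comp (F := p) hp PT.fst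
  have hq : PT (fun y : α × (ℕ × Bin) => y.2.1 + 1) := PT.succ (PT.fst' (PT.snd' PT.id))
  have hs : BT (fun y : α × (ℕ × Bin) => y.2.2.val) := PT.snd' (PT.snd' PT.id)
  exact BT.natRec (n := R) (z := fun _ => 1)
    (g := fun y => if (y.2.1 + 1).Prime ∧ (p y.1 - 1) % (y.2.1 + 1) = 0 then
      y.2.2.val * ((p y.1 - 1) / PRT.cf (p y.1) (y.2.1 + 1)) else y.2.2.val) hR (BT.const 1)
    (BT.ite (apt3_cond hp' hq) (BT.mul hs (BT.div (BT.sub hp' (BT.const 1))
      (BT.cf hp' (BT.ofUnary hq)))) hs)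
    (1 + QR * Q) fun a i hi => by
      refine (hle a i).trans ?_
      rw [eval_add, eval_one, eval_mul]
      have h1 : R a ≤ QR.eval (sz a) := by simpa using hQR a
      exact Nat.add_le_add_left (Nat.mul_le_mul (hi.trans h1) (hQ a)) 1

/-- `BT.natRec`; all states are `≤ max 1 p` (`pmod_le`). -/
theorem BT.wN {p t : α → ℕ} {g : α × ℕ → ℕ} {B : α → ℕ} (hp : BT p) (hg : BT g) (hB : PT B)
    (ht : BT t) : BT (fun a => wN (p a) (fun i => g (a, i)) (B a) (t a)) := by
  obtain ⟨Q, hQ⟩ := hp.size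
  have hle : ∀ a i, (Nat.rec (motive := fun _ => ℕ) 1
      (fun i s => PRT.pmod (PRT.mmod s (g (a, B a - i)) (p a)) (t a) (p a)) i : ℕ) ≤ p a + 1 := by
    intro a i
    cases i with
    | zero => exact Nat.le_add_left 1 _
    | succ i => exact (pmod_le _ _ _).trans (Nat.le_succ _)
  have hp' : BT (fun y : α × (ℕ × Bin) => p y.1) := BT.comp (F := p) hp PT.fst
  have ht' : BT (fun y : α × (ℕ × Bin) => t y.1) := BT.comp (F := t) ht PT.fst
  have hs : BT (fun y : α × (ℕ × Bin) => y.2.2.val) := PT.snd' (PT.snd' PT.id)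
  have hg' : BT (fun y : α × (ℕ × Bin) => g (y.1, B y.1 - y.2.1)) :=
    BT.comp (F := g) hg (PT.pair PT.fst
      (PT.sub (PT.comp (g := B) hB PT.fst) (PT.fst' (PT.snd' PT.id))))
  exact BT.natRec (n := B) (z := fun _ => 1)
    (g := fun y => PRT.pmod (PRT.mmod y.2.2.val (g (y.1, B y.1 - y.2.1)) (p y.1)) (t y.1) (p y.1))
    hB (BT.const 1) (BT.pmod (BT.mmod hs hg' hp') ht' hp')
    (Q + 1) fun a i _ => by
      refine (apt3_size (hle a i)).trans ?_
      rw [eval_add, eval_one]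
      exact Nat.add_le_add_right (hQ a) 1

theorem BT.candN {p t : α → ℕ} {g g' : α × ℕ → ℕ} {B B' R : α → ℕ} (hp : BT p) (hg : BT g)
    (hB : PT B) (hg' : BT g') (hB' : PT B') (hR : PT R) (ht : BT t) :
    BT (fun a => candN (p a) (fun i => g (a, i)) (B a) (fun i => g' (a, i)) (B' a) (R a) (t a)) :=
  BT.mmod (BT.uN hp hg hB hR) (BT.pmod (BT.wN hp hg' hB' ht) (BT.mN hp hR) hp) hp

end Pool.Agent.PRT
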