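import Pool.Agent.PRT.Alg

/-! # Turing machines and encoded outputs -/

set_option autoImplicit false

namespace Pool.Agent.PRT

open Pool.NPC Pool.NPC.Enc Pool.NPC.Tr Polynomial

variable {α β γ : Type} [Enc α] [Enc β] [Enc γ]

private theorem atm_flatMap_range (l : List Bool) (f : Bool → List Bool) :
    l.flatMap f = (List.range l.length).flatMap fun i => f (l.getD i false) := by
  have h : l = (List.range l.length).map fun i => l.getD i false := by
    apply List.ext_getElem
    · simp
    · intro i h1 h2
      simp [List.getD_eq_getElem?_getD, h1]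
  conv_lhs => rw [h]
  rw [List.flatMap_map]

private theorem atm_delim : ∀ (w w' s s' : List Bool),
    w.flatMap (fun b => [true, b]) ++ (false :: s) = w'.flatMap (fun b => [true, b]) ++ (false :: s') →
      w = w' ∧ s = s'
  | [], [], s, s', h => by simpa using h
  | [], b :: w', s, s', h => by simp at h
  | b :: w, [], s, s', h => by simp at h
  | b :: w, b' :: w', s, s', h => by
    simp only [List.flatMap_cons, List.cons_append, List.nil_append, List.cons.injEq, true_and] at h
    obtain ⟨h1, h2⟩ := h
    obtain ⟨h3, h4⟩ := atm_delim w w' s s' h2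
    exact ⟨by rw [h1, h3], h4⟩

/-- Proof: `Nat.bits` of the value is in `PT` (`BT.bits`); write the `flatMap` over a list of bits as
the `flatMap` over `List.range (length)` of `[true, l.getD i false]` (`PT.flatMap`, `PT.getD`,
`PT.cons`), or use `PT.foldl` and `PT.append`. -/
theorem PT.enc1 {n : α → ℕ} (hn : BT n) : PT (fun a => enc1 (n a)) := by
  have h1 : PT (fun x : α × ℕ => [true, (Nat.bits (n x.1)).getD x.2 false]) := by
    refine PT.cons (PT.const true) (PT.cons ?_ (PT.const []))
    exact PT.getD (PT.comp (g := fun a => Nat.bits (n a)) hn.bits (PT.fst' PT.id)) (PT.snd' PT.id)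
  refine (PT.append (PT.flatMap (PT.length hn.bits) h1) (PT.const [false])).congr fun a => ?_
  show PRT.enc1 (n a) = _
  unfold PRT.enc1
  rw [atm_flatMap_range (Nat.bits (n a)) (fun b => [true, b])]

theorem PT.encMap {F : α × ℕ → ℕ} {n : α → ℕ} (hF : BT F) (hn : PT n) :
    PT (fun a => encList ((List.range (n a)).map fun i => F (a, i))) := by
  refine (PT.flatMap (g := fun x => PRT.enc1 (F x)) hn (PT.enc1 hF)).congr fun a => ?_
  rw [encList, List.flatMap_map]

/-- the output determines the list: `encList` is injective -/
theorem encList_injective : Function.Injective encList := by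
  intro l
  induction l with
  | nil =>
    intro l' h
    cases l' with
    | nil => rfl
    | cons n l' => simp [encList, PRT.enc1] at h
  | cons n l ih =>
    intro l' h
    cases l' with
    | nil => simp [encList, PRT.enc1] at h
    | cons n' l' =>
      simp only [encList, List.flatMap_cons, PRT.enc1, List.append_assoc, List.cons_append,
        List.nil_append] at h
      obtain ⟨h1, h2⟩ := atm_delim _ _ _ _ h
      have h3 : n = n' := by
        rw [← bval_bits n, ← bval_bits n', h1]
      rw [h3, ih h2]

/-- transfer of a machine to other encodings of the input and of the output -/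
theorem tm_of {δ ε : Type} {ea : δ → List Bool} {eb : ε → List Bool} {f : δ → ε}
    {F : List Bool → List Bool} (hF : PT F) (h : ∀ a, F (ea a) = eb (f a)) :
    Nonempty (Turing.TM2ComputableInPolyTime ea eb f) := by
  obtain ⟨M⟩ := hF.polyTime
  refine ⟨⟨M.toTM2ComputableAux, M.time, fun a => ?_⟩⟩
  have h1 := M.outputsFun (ea a)
  rw [h a] at h1
  exact h1

end Pool.Agent.PRT
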