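import Pool.Agent.PRT.MainA
import Pool.Agent.PRT.AN6
import Pool.Agent.PRT.APT3
import Pool.Agent.PRT.ATM

/-! # The list algorithm -/

set_option autoImplicit false

namespace Pool.Agent.PRT

open Pool.NPC Pool.NPC.Enc Pool.NPC.Tr Polynomial

variable {α β γ : Type} [Enc α] [Enc β] [Enc γ]

theorem PT.powC {f : α → ℕ} (hf : PT f) (A : ℕ) : PT (fun a => f a ^ A) := by
  induction A with
  | zero => exact (PT.const 1).congr fun a => by simp
  | succ A ih => exact (PT.mul ih hf).congr fun a => by rw [pow_succ]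

/-- the generators `-1, 2, 3, ...` in polynomial time -/
theorem BT.gens {p : α → ℕ} (hp : BT p) : BT (fun x : α × ℕ => PRT.rn (p x.1) x.2) :=
  BT.rn (BT.comp (F := p) hp PT.fst) (BT.ofUnary PT.snd)

/-- the list: for `p < p0` a table, otherwise the candidates -/
def listF (A c p0 : ℕ) (t : ℕ → ℕ) (p : ℕ) : List ℕ :=
  if p < p0 then [t p] else
    candList p (rn p) (Nat.size p ^ A) (rn p) (Nat.size p ^ A) (Nat.size p ^ (A + 1 + c))
      (Nat.size p ^ (A + 1 + c))

theorem BT.listF_cand (A c : ℕ) : BT (fun x : List Bool × ℕ => PRT.candN (PRT.bval x.1)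
    (fun i => PRT.rn (PRT.bval x.1) i) (Nat.size (PRT.bval x.1) ^ A)
    (fun i => PRT.rn (PRT.bval x.1) i) (Nat.size (PRT.bval x.1) ^ A)
    (Nat.size (PRT.bval x.1) ^ (A + 1 + c)) (x.2 + 1)) := by
  have hp : BT (fun l : List Bool => PRT.bval l) := BT.bval PT.id
  have hs : PT (fun l : List Bool => Nat.size (PRT.bval l)) := hp.sizeU
  have hA := PT.powC hs A
  have hT := PT.powC hs (A + 1 + c)
  have hp1 : BT (fun x : List Bool × ℕ => PRT.bval x.1) :=
    BT.comp (F := fun l => PRT.bval l) hp PT.fst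
  have hA1 : PT (fun x : List Bool × ℕ => Nat.size (PRT.bval x.1) ^ A) := PT.comp hA PT.fst
  have hT1 : PT (fun x : List Bool × ℕ => Nat.size (PRT.bval x.1) ^ (A + 1 + c)) :=
    PT.comp hT PT.fst
  have hg := BT.gens hp1
  exact BT.candN (g := fun x : (List Bool × ℕ) × ℕ => PRT.rn (PRT.bval x.1.1) x.2)
    (g' := fun x : (List Bool × ℕ) × ℕ => PRT.rn (PRT.bval x.1.1) x.2) hp1 hg hA1 hg hA1 hT1
    (BT.ofUnary (PT.succ PT.snd))

theorem PT.listF_enc (A c : ℕ) : PT (fun l : List Bool => encList (candList (bval l)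
    (rn (bval l)) (Nat.size (bval l) ^ A) (rn (bval l)) (Nat.size (bval l) ^ A)
    (Nat.size (bval l) ^ (A + 1 + c)) (Nat.size (bval l) ^ (A + 1 + c)))) := by
  have hp : BT (fun l : List Bool => PRT.bval l) := BT.bval PT.id
  have hs : PT (fun l : List Bool => Nat.size (PRT.bval l)) := hp.sizeU
  refine (PT.encMap (BT.listF_cand A c) (PT.powC hs (A + 1 + c))).congr fun l => ?_
  rw [candList]

theorem listF_poly (A c p0 : ℕ) (t : ℕ → ℕ) :
    Nonempty (Turing.TM2ComputableInPolyTime Nat.bits encList (listF A c p0 t)) := by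
  have hp : BT (fun l : List Bool => bval l) := BT.bval PT.id
  have hsmall := PT.enc1 (BT.table t p0 hp (BT.const 0))
  have h : PT (fun l => encList (listF A c p0 t (bval l))) := by
    refine (PT.ite (BT.lt hp (BT.const p0)) hsmall (PT.listF_enc A c)).congr fun l => ?_
    by_cases h : bval l < p0
    · rw [listF, if_pos h, if_pos h, if_pos h]
      simp [encList]
    · rw [listF, if_neg h, if_neg h]
  exact tm_of h fun p => by rw [bval_bits]

/-- for a prime `p ≥ p0` almost all entries generate the group generated by `-1, 2, ..., L ^ A` -/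
theorem listF_most {A c p0 : ℕ} {t : ℕ → ℕ} (p : ℕ) [hp : Fact p.Prime] (h : p0 ≤ p) :
    Most (Nat.size p ^ c) (listF A c p0 t p) (fun x => ∃ u : (ZMod p)ˣ, (x : ZMod p) = u ∧
      Subgroup.zpowers u = PrimRoot.genSub (aU p) (Nat.size p ^ A)) := by
  have hs : 0 < Nat.size p := Nat.size_pos.2 hp.out.pos
  unfold listF
  rw [if_neg (by omega)]
  refine most_cand p (Nat.one_le_pow _ _ hs) (fun i _ => rn_cast p i) (Nat.one_le_pow _ _ hs) ?_
  rw [← pow_succ, ← pow_add]

/-- for `p < p0` the table -/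
theorem listF_small {A c p0 : ℕ} {t : ℕ → ℕ} (M : ℕ) {p : ℕ} (h : p < p0) {P : ℕ → Prop}
    (hP : P (t p)) : Most M (listF A c p0 t p) P := by
  unfold listF
  rw [if_pos h]
  refine ⟨by simp, ?_⟩
  rw [List.countP_singleton]
  simp [hP]

end Pool.Agent.PRT
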