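import Pool.Agent.PRT.TCdef

set_option autoImplicit false

namespace Pool.Agent.PRT

open Pool.NPC Pool.NPC.Enc Pool.NPC.Tr Polynomial

open Turing Turing.TM2 in
/-- the run of the machine of a program on one input (copy of the proof of
`Pool.NPC.polyTime_of_exec`) -/
private theorem tc_outputs (c : Cmd) (x y : List Bool) (τ t : ℕ) (ht : t ≤ τ)
    (hE : Exec c (Function.update (fun _ => []) 0 x) (Function.update (fun _ => []) 1 y) t) :
    Nonempty (Turing.TM2OutputsInTime (machine c c.maxReg)
      (List.map (Equiv.refl _).invFun x) (some (List.map (Equiv.refl _).invFun y)) (τ + 1)) := by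
  have hr := code_correct (c.maxReg + 1) (machine c c.maxReg).m hE (by omega) some none
    (fun p => rfl) none
  choose v' hv' using hr
  have hr2 : Reach (machine c c.maxReg).m (t + 1)
      ⟨some (some c.entry), none, res (c.maxReg + 1) (Function.update (fun _ => []) 0 x)⟩
      ⟨none, none, res (c.maxReg + 1) (Function.update (fun _ => []) 1 y)⟩ := by
    refine hv'.trans (Reach.one ?_)
    rfl
  refine ⟨⟨⟨t + 1, ?_⟩, ?_⟩⟩
  · have e1 : initList (machine c c.maxReg) (List.map (Equiv.refl _).invFun x) =
      ⟨some (some c.entry), none, res (c.maxReg + 1) (Function.update (fun _ => []) 0 x)⟩ := by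
      have key : ∀ k : Fin (c.maxReg + 1 + 1),
          (initList (machine c c.maxReg) (List.map (Equiv.refl _).invFun x)).stk k =
            res (c.maxReg + 1) (Function.update (fun _ => []) 0 x) k := by
        intro k
        by_cases hk : k = 0
        · subst hk
          have : (initList (machine c c.maxReg) (List.map (Equiv.refl _).invFun x)).stk
            (0 : Fin (c.maxReg + 1 + 1)) = List.map (Equiv.refl _).invFun x :=
            initList_stk_self _ _
          rw [this]
          show List.map id x = _
          rw [List.map_id]
          simp [res]
        · have : (initList (machine c c.maxReg) (List.map (Equiv.refl _).invFun x)).stk k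
              = [] := initList_stk_ne _ _ _ hk
          rw [this]
          have hk' : k.val ≠ 0 := fun h0 => hk (Fin.ext h0)
          simp only [res]
          rw [Function.update_of_ne hk']
          rfl
      have : (initList (machine c c.maxReg) (List.map (Equiv.refl _).invFun x)).stk =
          res (c.maxReg + 1) (Function.update (fun _ => []) 0 x) := funext key
      rw [← this]
      rfl
    have e2 : haltList (machine c c.maxReg) (List.map (Equiv.refl _).invFun y) =
      ⟨none, none, res (c.maxReg + 1) (Function.update (fun _ => []) 1 y)⟩ := by
      have key : ∀ k : Fin (c.maxReg + 1 + 1),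
          (haltList (machine c c.maxReg) (List.map (Equiv.refl _).invFun y)).stk k =
            res (c.maxReg + 1) (Function.update (fun _ => []) 1 y) k := by
        intro k
        by_cases hk : k = 1
        · subst hk
          have : (haltList (machine c c.maxReg) (List.map (Equiv.refl _).invFun y)).stk
            (1 : Fin (c.maxReg + 1 + 1)) = List.map (Equiv.refl _).invFun y :=
            haltList_stk_self _ _
          rw [this]
          show List.map id y = _
          rw [List.map_id]
          simp [res]
        · have : (haltList (machine c c.maxReg) (List.map (Equiv.refl _).invFun y)).stk k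
              = [] := haltList_stk_ne _ _ _ hk
          rw [this]
          have hk' : k.val ≠ 1 := fun h0 => hk (Fin.ext (by rw [h0]; simp))
          simp only [res]
          rw [Function.update_of_ne hk']
          rfl
      have : (haltList (machine c c.maxReg) (List.map (Equiv.refl _).invFun y)).stk =
          res (c.maxReg + 1) (Function.update (fun _ => []) 1 y) := funext key
      rw [← this]
      rfl
    show (flip bind (TM2.step (machine c c.maxReg).m))^[t + 1]
      (some (initList (machine c c.maxReg) (List.map (Equiv.refl _).invFun x))) =
      some (haltList (machine c c.maxReg) (List.map (Equiv.refl _).invFun y))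
    rw [e1, e2]
    exact hr2
  · show t + 1 ≤ τ + 1
    omega

/-- From programs to machines, with a time bound which depends only on the length of the input.
Copy of `Pool.NPC.PT.polyTime` and `Pool.NPC.polyTime_of_exec` (the latter with
`TM2ComputableInTime` and a general time function), and of `tm_of` for the encodings. -/
theorem MC.machine {f : List Bool → List Bool} {M : List Bool → ℕ} (hf : MC f M)
    {δ ε : Type} {ea : δ → List Bool} {eb : ε → List Bool} {h : δ → ε}
    (hh : ∀ d, f (ea d) = eb (h d)) (T : ℕ → ℕ) (hT : ∀ d, M (ea d) ≤ T (ea d).length) :
    ∃ (Q : ℕ[X]) (m : Turing.TM2ComputableInTime ea eb h), ∀ n, m.time n ≤ Q.eval (n + T n) := by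
  obtain ⟨P, hP⟩ := hf
  obtain ⟨c, hc⟩ := hP (.leaf 0) (.leaf 1) 2 rfl rfl
    ⟨by simp [leaves], by simp [leaves], by simp [leaves], by simp [leaves]⟩
  have hex : ∀ x : List Bool, ∃ t ≤ P.eval (x.length + M x) + (2 * x.length + 1),
      Exec (.seq c (clear 0)) (Function.update (fun _ => []) 0 x)
        (Function.update (fun _ => []) 1 (f x)) t := by
    intro x
    obtain ⟨S1, k1, k2, k3⟩ := hc x (Function.update (fun _ => []) 0 x)
      (by show Function.update (fun _ => []) 0 x 0 = x; rw [Function.update_self])
      (fun r hr => by
        simp only [leaves, List.mem_singleton] at hr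
        rw [hr, Function.update_of_ne (by omega)])
      (fun r hr => by rw [Function.update_of_ne (by omega)])
    have k4 := k1.seq (execLe_clear 0 S1)
    have h0 : S1 0 = x := by
      rw [k3 0 (by simp [leaves]), Function.update_self]
    have h1 : S1 1 = f x := k2
    have e : Function.update S1 0 [] = Function.update (fun _ => []) 1 (f x) := by
      funext r
      by_cases hr : r = 0
      · rw [hr, Function.update_self, Function.update_of_ne (by omega)]
      · rw [Function.update_of_ne hr]
        by_cases hr1 : r = 1
        · rw [hr1, h1, Function.update_self]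
        · rw [k3 r (by simpa [leaves] using hr1), Function.update_of_ne hr,
            Function.update_of_ne hr1]
    rw [e, h0] at k4
    obtain ⟨t, ht, hE⟩ := k4
    refine ⟨t, ht.trans ?_, hE⟩
    simp only [sz_list]
    omega
  set c' : Cmd := .seq c (clear 0) with hc'
  have hout : ∀ d : δ, Nonempty (Turing.TM2OutputsInTime (Pool.NPC.machine c' c'.maxReg)
      (List.map (Equiv.refl _).invFun (ea d)) (some (List.map (Equiv.refl _).invFun (eb (h d))))
      ((P + (C 2 * X + C 2)).eval ((ea d).length + T (ea d).length))) := by
    intro d
    obtain ⟨t, ht, hE⟩ := hex (ea d)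
    rw [hh d] at hE
    obtain ⟨r⟩ := tc_outputs c' (ea d) (eb (h d)) _ t ht hE
    refine ⟨⟨r.toEvalsTo, r.steps_le_m.trans ?_⟩⟩
    have h1 : P.eval ((ea d).length + M (ea d)) ≤ P.eval ((ea d).length + T (ea d).length) :=
      poly_mono P (Nat.add_le_add_left (hT d) _)
    simp only [eval_add, eval_mul, eval_C, eval_X]
    omega
  set R : ℕ[X] := P + (C 2 * X + C 2) with hR
  let m : Turing.TM2ComputableInTime ea eb h :=
    { tm := Pool.NPC.machine c' c'.maxReg
      inputAlphabet := Equiv.refl _
      outputAlphabet := Equiv.refl _
      time := fun n => R.eval (n + T n)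
      outputsFun := fun d => (hout d).some }
  exact ⟨R, m, fun n => le_rfl⟩

end Pool.Agent.PRT
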