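import Pool.Agent.PRT.AN1

/-! # Meaning of `io`, `iel` -/

set_option autoImplicit false

namespace Pool.Agent.PRT

open Finset

private theorem AN2_fact_le {p q : ℕ} (hp : 2 ≤ p) (hq : q.Prime) :
    (p - 1).factorization q ≤ Nat.size p := by
  by_contra h
  push Not at h
  have h2 : 2 ^ Nat.size p ≤ q ^ (p - 1).factorization q :=
    (Nat.pow_le_pow_left hq.two_le _).trans (Nat.pow_le_pow_right hq.pos h.le)
  have h3 := Nat.ordProj_le q (show p - 1 ≠ 0 by omega)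
  have h4 := Nat.lt_size_self p
  omega

private theorem AN2_pow (p : ℕ) [Fact p.Prime] {q : ℕ} (hq : q.Prime) (x : (ZMod p)ˣ) :
    (x ^ PrimRoot.cofac (p - 1) q) ^ (q ^ Nat.size p) = 1 := by
  have hp : p.Prime := Fact.out
  have hc : Nat.card (ZMod p)ˣ = p - 1 := by
    rw [Nat.card_eq_fintype_card, ZMod.card_units]
  have h1 := PrimRoot.pow_cofac_pow x q
  rw [hc] at h1
  have h2 := AN2_fact_le hp.two_le hq
  obtain ⟨m, hm⟩ := Nat.exists_eq_add_of_le h2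
  rw [hm, pow_add, pow_mul, h1, one_pow]

/-- the `q`-part of the generator number `i`: its order is `q ^ ev ..`; use `am_spec`, `ev_eq`,
`cf_eq`, `PrimRoot.pow_cofac_pow`, `(p - 1).factorization q ≤ Nat.size p`. -/
theorem io_adm (p : ℕ) [Fact p.Prime] {g : ℕ → ℕ} {a : ℕ → (ZMod p)ˣ} {B : ℕ} (hB : 1 ≤ B)
    (h : ∀ i ∈ Icc 1 B, ((g i : ℕ) : ZMod p) = (a i : ZMod p)) (R : ℕ) :
    PrimRoot.Adm a B R (p - 1) (io p g B) := by
  have hp : p.Prime := Fact.out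
  intro q hq
  have hqp : q.Prime := PrimRoot.smallPrimes_prime R hq
  obtain ⟨h1, h2⟩ := am_spec (fun i => ev p q (Nat.size p) (pmod (g i) (cf p q) p)) hB
  have key : ∀ i ∈ Icc 1 B, q ^ ev p q (Nat.size p) (pmod (g i) (cf p q) p) =
      orderOf (a i ^ PrimRoot.cofac (p - 1) q) := by
    intro i hi
    apply ev_eq p hqp
    · rw [pmod_cast _ _ hp.ne_zero, h i hi, cf_eq hp.two_le hqp, Units.val_pow_eq_pow_val]
    · exact AN2_pow p hqp (a i)
  refine ⟨h1, fun i hi => ?_⟩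
  rw [← key i hi]
  unfold io
  rw [← key _ h1]
  exact Nat.pow_le_pow_right hqp.pos (h2 i hi)

theorem io_mem (p : ℕ) (g : ℕ → ℕ) {B : ℕ} (hB : 1 ≤ B) (q : ℕ) : io p g B q ∈ Icc 1 B :=
  (am_spec _ hB).1

theorem iel_cast (p : ℕ) [Fact p.Prime] {g : ℕ → ℕ} {a : ℕ → (ZMod p)ˣ} {B : ℕ} (hB : 1 ≤ B)
    (h : ∀ i ∈ Icc 1 B, ((g i : ℕ) : ZMod p) = (a i : ZMod p)) {q : ℕ} (hq : q.Prime) :
    ((iel p g B q : ℕ) : ZMod p) =
      ((a (io p g B q) ^ PrimRoot.cofac (p - 1) q : (ZMod p)ˣ) : ZMod p) := by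
  have hp : p.Prime := Fact.out
  unfold iel
  rw [pmod_cast _ _ hp.ne_zero, h _ (io_mem p g hB q), cf_eq hp.two_le hq,
    Units.val_pow_eq_pow_val]

end Pool.Agent.PRT
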