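import Pool.Agent.PRT.GN1

/-! # Meaning of `sq` -/

set_option autoImplicit false

namespace Pool.Agent.PRT

/-- the only element of order two of the units of the prime field is `-1` -/
private theorem GN1b_neg_one (p : ℕ) [Fact p.Prime] {x : (ZMod p)ˣ} (h1 : x ^ 2 = 1)
    (h2 : x ≠ 1) : x = -1 := by
  have h3 : (x : ZMod p) ^ 2 = 1 := by
    rw [← Units.val_pow_eq_pow_val, h1, Units.val_one]
  have h4 : ((x : ZMod p) - 1) * ((x : ZMod p) + 1) = 0 := by linear_combination h3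
  rcases (mul_eq_zero.1 h4).imp sub_eq_zero.1 eq_neg_of_add_eq_zero_left with h | h
  · exact absurd (Units.ext (by rw [h, Units.val_one])) h2
  · exact Units.ext (by rw [h, Units.val_neg, Units.val_one])

/-- if the order of `x` is `2 ^ (e + 1)` then `x ^ (2 ^ e) = -1` -/
private theorem GN1b_order (p : ℕ) [Fact p.Prime] {x : (ZMod p)ˣ} {e : ℕ}
    (h : orderOf x = 2 ^ (e + 1)) : x ^ (2 ^ e) = -1 := by
  apply GN1b_neg_one
  · rw [← pow_mul, ← pow_succ, ← h, pow_orderOf_eq_one]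
  · intro h1
    have h2 := orderOf_dvd_of_pow_eq_one h1
    rw [h, Nat.pow_dvd_pow_iff_le_right (by norm_num)] at h2
    omega

private theorem GN1b_yi (p : ℕ) [Fact p.Prime] {d r : ℕ} {δ ρ : (ZMod p)ˣ}
    (hd : (d : ZMod p) = δ) (hr : (r : ZMod p) = ρ) (h : (ρ ^ 2 * δ⁻¹) ^ 2 ^ Nat.size p = 1) :
    2 ^ yi p d r = orderOf (ρ ^ 2 * δ⁻¹) := by
  have hp : p.Prime := Fact.out
  refine ev_eq p Nat.prime_two _ ?_ h
  rw [mmod_cast _ _ hp.ne_zero, mmod_cast _ _ hp.ne_zero, pmod_cast _ _ hp.ne_zero, hd, hr]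
  rw [Units.val_mul, Units.val_pow_eq_pow_val, pow_two]
  congr 1
  have h1 : δ ^ (p - 1) = 1 := by
    have := pow_card_eq_one' (x := δ)
    rwa [Nat.card_eq_fintype_card, ZMod.card_units] at this
  have h2 : δ ^ (p - 2) = δ⁻¹ := by
    rw [eq_inv_iff_mul_eq_one, ← pow_succ]
    have : p - 2 + 1 = p - 1 := by have := hp.two_le; omega
    rw [this, h1]
  rw [← Units.val_pow_eq_pow_val, h2]

/-- Square roots.  Let `m = cofac (p - 1) 2` (odd).  Invariant for the unit `ρ` of the state after `i`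
steps: `y = ρ ^ 2 / δ` lies in the group generated by `ζ ^ 2` and `y ^ (2 ^ (f - 1 - i)) = 1`
(`y = δ ^ m` at the start).  If `y` has order `2 ^ e`, `e ≥ 1`, then `e ≤ f - 1`,
`ζ ^ (2 ^ (f - e))` has the same order, and the product `y' = y ζ ^ (2 ^ (f - e))` satisfies
`y' ^ (2 ^ (e - 1)) = (-1) (-1) = 1`, because `-1` is the only element of order 2.  `yi` is `e` by
`ev_eq`.  `f ≤ Nat.size p` because `2 ^ f ∣ p - 1`. -/
theorem sq_spec (p : ℕ) [Fact p.Prime] (hp2 : p ≠ 2) {z f d : ℕ} {ζ δ : (ZMod p)ˣ}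
    (hz : (z : ZMod p) = ζ) (hd : (d : ZMod p) = δ) (hf : orderOf ζ = 2 ^ f)
    (hδ : δ ^ PrimRoot.cofac (p - 1) 2 ∈ Subgroup.zpowers (ζ ^ 2)) :
    ((sq p z f d : ℕ) : ZMod p) ^ 2 = (d : ZMod p) := by
  have hp : p.Prime := Fact.out
  have hN : p - 1 ≠ 0 := by have := hp.two_le; omega
  have hfs : f ≤ Nat.size p := by
    have h1 : 2 ^ f ≤ p - 1 := by
      rw [← hf]
      have h2 : orderOf ζ ∣ p - 1 := by
        have := orderOf_dvd_natCard ζ
        rwa [Nat.card_eq_fintype_card, ZMod.card_units] at this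
      exact Nat.le_of_dvd (Nat.pos_of_ne_zero hN) h2
    have h2 := Nat.lt_size_self p
    have h3 : 2 ^ f < 2 ^ Nat.size p := by omega
    exact ((Nat.pow_lt_pow_iff_right (by norm_num)).1 h3).le
  have hodd : ¬ 2 ∣ PrimRoot.cofac (p - 1) 2 := PrimRoot.not_dvd_cofac Nat.prime_two hN
  set F : ℕ → ℕ := fun k => Nat.rec (motive := fun _ => ℕ) (pmod d ((cf p 2 + 1) / 2) p)
    (fun _ r => sqs p z f d r) k with hF
  have key : ∀ i, ∃ ρ : (ZMod p)ˣ, ((F i : ℕ) : ZMod p) = ρ ∧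
      ρ ^ 2 * δ⁻¹ ∈ Subgroup.zpowers (ζ ^ 2) ∧ (ρ ^ 2 * δ⁻¹) ^ (2 ^ (f - 1 - i)) = 1 := by
    intro i
    induction i with
    | zero =>
      refine ⟨δ ^ ((cf p 2 + 1) / 2), ?_, ?_, ?_⟩
      · show ((pmod d ((cf p 2 + 1) / 2) p : ℕ) : ZMod p) = _
        rw [pmod_cast _ _ hp.ne_zero, hd, Units.val_pow_eq_pow_val]
      · have h1 : (δ ^ ((cf p 2 + 1) / 2)) ^ 2 * δ⁻¹ = δ ^ PrimRoot.cofac (p - 1) 2 := by
          rw [cf_eq hp.two_le Nat.prime_two, ← pow_mul]
          have h2 : (PrimRoot.cofac (p - 1) 2 + 1) / 2 * 2 = PrimRoot.cofac (p - 1) 2 + 1 := by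
            omega
          rw [h2, pow_succ, mul_inv_cancel_right]
        rw [h1]
        exact hδ
      · have h1 : (δ ^ ((cf p 2 + 1) / 2)) ^ 2 * δ⁻¹ = δ ^ PrimRoot.cofac (p - 1) 2 := by
          rw [cf_eq hp.two_le Nat.prime_two, ← pow_mul]
          have h2 : (PrimRoot.cofac (p - 1) 2 + 1) / 2 * 2 = PrimRoot.cofac (p - 1) 2 + 1 := by
            omega
          rw [h2, pow_succ, mul_inv_cancel_right]
        rw [h1]
        obtain ⟨n, hn⟩ := Subgroup.mem_zpowers_iff.1 hδ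
        rw [← hn]
        have h3 : (ζ ^ 2) ^ 2 ^ (f - 1 - 0) = 1 := by
          rw [← pow_mul, ← pow_succ']
          rw [← orderOf_dvd_iff_pow_eq_one, hf, Nat.pow_dvd_pow_iff_le_right (by norm_num)]
          omega
        rw [← zpow_natCast, ← zpow_mul, mul_comm, zpow_mul, zpow_natCast, h3, one_zpow]
    | succ i ih =>
      obtain ⟨ρ, h1, h2, h3⟩ := ih
      have hs : F (i + 1) = sqs p z f d (F i) := rfl
      have h4 : (ρ ^ 2 * δ⁻¹) ^ 2 ^ Nat.size p = 1 := by
        obtain ⟨m, hm⟩ := Nat.exists_eq_add_of_le (show f - 1 - i ≤ Nat.size p by omega)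
        rw [hm, pow_add, pow_mul, h3, one_pow]
      have h5 := GN1b_yi p hd h1 h4
      rw [hs, sqs]
      by_cases h6 : yi p d (F i) = 0
      · rw [if_pos h6]
        refine ⟨ρ, h1, h2, ?_⟩
        rw [h6, pow_zero] at h5
        rw [orderOf_eq_one_iff.1 h5.symm, one_pow]
      · rw [if_neg h6]
        obtain ⟨e, he⟩ := Nat.exists_eq_succ_of_ne_zero h6
        rw [he, Nat.succ_eq_add_one] at h5
        have h7 : e + 1 ≤ f - 1 - i := by
          have := orderOf_dvd_of_pow_eq_one h3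
          rw [← h5, Nat.pow_dvd_pow_iff_le_right (by norm_num)] at this
          exact this
        rw [he, Nat.succ_eq_add_one]
        have h8 : (ρ * ζ ^ 2 ^ (f - (e + 1) - 1)) ^ 2 * δ⁻¹ =
            (ρ ^ 2 * δ⁻¹) * ζ ^ 2 ^ (f - (e + 1)) := by
          have h9 : 2 ^ (f - (e + 1)) = 2 ^ (f - (e + 1) - 1) * 2 := by
            rw [← pow_succ]
            congr 1
            omega
          rw [mul_pow, ← pow_mul, ← h9, mul_right_comm]
        refine ⟨ρ * ζ ^ 2 ^ (f - (e + 1) - 1), ?_, ?_, ?_⟩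
        · rw [mmod_cast _ _ hp.ne_zero, pmod_cast _ _ hp.ne_zero, h1, hz, Units.val_mul,
            Units.val_pow_eq_pow_val]
        · rw [h8]
          refine Subgroup.mul_mem _ h2 ?_
          have h9 : 2 ^ (f - (e + 1)) = 2 * 2 ^ (f - (e + 1) - 1) := by
            rw [← pow_succ']
            congr 1
            omega
          rw [h9, pow_mul]
          exact Subgroup.pow_mem _ (Subgroup.mem_zpowers _) _
        · rw [h8]
          have h9 : ((ρ ^ 2 * δ⁻¹) * ζ ^ 2 ^ (f - (e + 1))) ^ 2 ^ e = 1 := by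
            rw [mul_pow, GN1b_order p h5.symm, ← pow_mul, ← pow_add]
            have h10 : ζ ^ 2 ^ (f - (e + 1) + e) = -1 := by
              apply GN1b_order
              rw [hf]
              congr 1
              omega
            rw [h10, neg_mul_neg, one_mul]
          obtain ⟨m, hm⟩ := Nat.exists_eq_add_of_le (show e ≤ f - 1 - (i + 1) by omega)
          rw [hm, pow_add, pow_mul, h9, one_pow]
  obtain ⟨ρ, h1, -, h3⟩ := key (Nat.size p)
  have h4 : sq p z f d = F (Nat.size p) := rfl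
  have h5 : f - 1 - Nat.size p = 0 := by omega
  rw [h5, pow_zero, pow_one, mul_inv_eq_one] at h3
  rw [h4, h1, hd, ← h3, Units.val_pow_eq_pow_val]

end Pool.Agent.PRT
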