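import Pool.Agent.PRT.Alg

/-! # Meaning of `rn`, `strip`, `ev`, `am` -/

set_option autoImplicit false

namespace Pool.Agent.PRT

open Finset

theorem rn_cast (p : ℕ) [Fact p.Prime] (i : ℕ) : ((rn p i : ℕ) : ZMod p) = (aU p i : ZMod p) := by
  have hp : p.Prime := Fact.out
  unfold rn aU
  by_cases h1 : i = 1
  · rw [if_pos h1, if_pos h1, Nat.cast_sub hp.one_lt.le]
    simp
  · rw [if_neg h1, if_neg h1]
    by_cases h2 : i % p = 0
    · rw [if_pos h2]
      have h3 : ¬ ((i : ZMod p) ≠ 0) := by
        rw [not_not, ZMod.natCast_eq_zero_iff]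
        exact Nat.dvd_of_mod_eq_zero h2
      simp [PrimRoot.res, h3]
    · rw [if_neg h2]
      have h3 : (i : ZMod p) ≠ 0 := by
        rw [Ne, ZMod.natCast_eq_zero_iff]
        exact fun h => h2 (Nat.mod_eq_zero_of_dvd h)
      simp [PrimRoot.res, h3]

private theorem AN1_strip_succ (q x n : ℕ) :
    strip q x (n + 1) = if strip q x n % q = 0 then strip q x n / q else strip q x n := rfl

private theorem AN1_strip_min {q x : ℕ} (hq : q.Prime) (hx : x ≠ 0) (k : ℕ) :
    strip q x k = x / q ^ (min k (x.factorization q)) := by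
  induction k with
  | zero => simp [strip]
  | succ k ih =>
    rw [AN1_strip_succ, ih]
    rcases lt_or_ge k (x.factorization q) with h | h
    · have e1 : min k (x.factorization q) = k := by omega
      have e2 : min (k + 1) (x.factorization q) = k + 1 := by omega
      rw [e1, e2]
      have h1 : q ^ (k + 1) ∣ x := (pow_dvd_pow q h).trans (Nat.ordProj_dvd x q)
      have h2 : x / q ^ k % q = 0 := by
        obtain ⟨c, hc⟩ := h1
        rw [hc, pow_succ, mul_assoc, Nat.mul_div_cancel_left _ (pow_pos hq.pos k),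
          Nat.mul_mod_right]
      rw [if_pos h2, Nat.div_div_eq_div_mul, pow_succ]
    · have e1 : min k (x.factorization q) = x.factorization q := by omega
      have e2 : min (k + 1) (x.factorization q) = x.factorization q := by omega
      rw [e1, e2, if_neg]
      intro h1
      exact Nat.not_dvd_ordCompl hq hx (Nat.dvd_of_mod_eq_zero h1)

/-- After `n` steps all factors `q` are removed, since `x < 2 ^ n`.  Induction: for `k ≤ v_q(x)` the
state after `k` steps is `x / q ^ k`, after that it does not change. -/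
theorem strip_eq {q x n : ℕ} (hq : q.Prime) (hx : x ≠ 0) (hn : x < 2 ^ n) :
    strip q x n = PrimRoot.cofac x q := by
  have h1 : x.factorization q ≤ n := by
    by_contra h
    push Not at h
    have h2 : 2 ^ n ≤ q ^ x.factorization q :=
      (Nat.pow_le_pow_left hq.two_le n).trans (Nat.pow_le_pow_right hq.pos h.le)
    have h3 := Nat.ordProj_le q hx
    omega
  rw [AN1_strip_min hq hx, min_eq_right h1]
  rfl

theorem cf_eq {p q : ℕ} (hp : 2 ≤ p) (hq : q.Prime) : cf p q = PrimRoot.cofac (p - 1) q := by
  unfold cf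
  apply strip_eq hq (by omega)
  have := Nat.lt_size_self p
  omega

private theorem AN1_count (e n : ℕ) :
    (List.range n).countP (fun j => decide (j < e)) = min n e := by
  induction n with
  | zero => simp
  | succ n ih =>
    rw [List.range_succ, List.countP_append, ih, List.countP_singleton]
    by_cases h : n < e
    · simp only [h, decide_true, if_true]
      omega
    · simp only [h, decide_false, Bool.false_eq_true, if_false]
      omega

/-- The order of `y` is `q ^ e` with `e ≤ n`, and `y ^ (q ^ j) ≠ 1` if and only if `j < e`. -/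
theorem ev_eq (p : ℕ) [Fact p.Prime] {q n z : ℕ} (hq : q.Prime) (y : (ZMod p)ˣ)
    (hz : (z : ZMod p) = y) (hy : y ^ (q ^ n) = 1) : q ^ ev p q n z = orderOf y := by
  have hp : p.Prime := Fact.out
  obtain ⟨e, he, hord⟩ := (Nat.dvd_prime_pow hq).1 (orderOf_dvd_of_pow_eq_one hy)
  have h1 : ∀ j, (pmod z (q ^ j) p ≠ 1) ↔ j < e := by
    intro j
    have h2 : (pmod z (q ^ j) p = 1) ↔ y ^ (q ^ j) = 1 := by
      have h3 := pmod_cast z (q ^ j) hp.ne_zero
      have h4 : pmod z (q ^ j) p < p := by
        unfold pmod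
        rw [if_neg hp.ne_zero]
        exact Nat.mod_lt _ hp.pos
      constructor
      · intro h
        rw [h, hz] at h3
        apply Units.ext
        rw [Units.val_pow_eq_pow_val, ← h3]
        simp
      · intro h
        rw [hz, ← Units.val_pow_eq_pow_val, h, Units.val_one] at h3
        have h5 : ((pmod z (q ^ j) p : ℕ) : ZMod p) = ((1 : ℕ) : ZMod p) := by
          rw [h3]
          simp
        rw [ZMod.natCast_eq_natCast_iff', Nat.mod_eq_of_lt h4, Nat.mod_eq_of_lt hp.one_lt] at h5
        exact h5
    rw [Ne, h2, ← orderOf_dvd_iff_pow_eq_one, hord, Nat.pow_dvd_pow_iff_le_right hq.one_lt]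
    omega
  have h2 : ev p q n z = e := by
    unfold ev
    have h3 : (fun j => decide (pmod z (q ^ j) p ≠ 1)) = fun j => decide (j < e) := by
      funext j
      exact decide_eq_decide.2 (h1 j)
    rw [h3, AN1_count, min_eq_right he]
  rw [h2, hord]

private theorem AN1_am_succ (F : ℕ → ℕ) (B : ℕ) :
    am F (B + 1) = if F (am F B) < F (B + 1) then B + 1 else am F B := rfl

theorem am_spec (F : ℕ → ℕ) {B : ℕ} (hB : 1 ≤ B) :
    am F B ∈ Icc 1 B ∧ ∀ i ∈ Icc 1 B, F i ≤ F (am F B) := by
  induction B, hB using Nat.le_induction with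
  | base =>
    have h : am F 1 = 1 := by
      rw [AN1_am_succ]
      have h0 : am F 0 = 1 := rfl
      rw [h0]
      simp
    rw [h]
    simp
  | succ B hB ih =>
    obtain ⟨h1, h2⟩ := ih
    rw [Finset.mem_Icc] at h1
    rw [AN1_am_succ]
    split_ifs with h
    · refine ⟨Finset.mem_Icc.2 ⟨by omega, le_rfl⟩, fun i hi => ?_⟩
      rw [Finset.mem_Icc] at hi
      rcases Nat.lt_or_ge i (B + 1) with h3 | h3
      · exact (h2 i (Finset.mem_Icc.2 ⟨hi.1, by omega⟩)).trans h.le
      · have : i = B + 1 := by omega
        rw [this]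
    · refine ⟨Finset.mem_Icc.2 ⟨h1.1, by omega⟩, fun i hi => ?_⟩
      rw [Finset.mem_Icc] at hi
      rcases Nat.lt_or_ge i (B + 1) with h3 | h3
      · exact h2 i (Finset.mem_Icc.2 ⟨hi.1, by omega⟩)
      · have : i = B + 1 := by omega
        rw [this]
        omega

end Pool.Agent.PRT
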