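import Pool.Agent.PRT.AN4
import Pool.Agent.MP_18a8a6_lc.Generate

/-! # The index of the group generated by `-1, 2, ..., B`, and few exceptional primes -/

set_option autoImplicit false

namespace Pool.Agent.PRT

open Finset

private theorem AN4b_size {p : ℕ} (hp : p ≠ 0) : Nat.size p = Nat.log 2 p + 1 := by
  apply le_antisymm
  · rw [Nat.size_le]
    exact Nat.lt_pow_succ_log_self (by norm_num) p
  · rw [Nat.succ_le_iff, Nat.lt_size]
    exact Nat.pow_log_le_self 2 hp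

/-- From `PrimRoot.index_lt` and monotonicity (`Subgroup.index_dvd_of_le`). Note
`Nat.size p = Nat.log 2 p + 1`. -/
theorem index_lt' (ε : ℝ) (hε : 0 < ε) : ∃ A p0 : ℕ, 1 ≤ A ∧ 5 ≤ p0 ∧
    ∀ (p : ℕ) [Fact p.Prime], p0 ≤ p → ∀ B : ℕ, Nat.size p ^ A ≤ B →
      ((PrimRoot.genSub (aU p) B).index : ℝ) < (p : ℝ) ^ ε := by
  obtain ⟨A, p0, hA, h⟩ := PrimRoot.index_lt ε hε
  refine ⟨A, max p0 5, hA, le_max_right _ _, fun p _ hp B hB => ?_⟩
  have hpp : p.Prime := Fact.out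
  obtain ⟨-, -, -, h4⟩ := h p ((le_max_left _ _).trans hp)
  rw [AN4b_size hpp.ne_zero] at hB
  refine lt_of_le_of_lt ?_ h4
  have h1 : 1 ≤ (Nat.log 2 p + 1) ^ A := Nat.one_le_pow _ _ (by omega)
  have hle : PrimRoot.genSub (PrimRoot.res p) ((Nat.log 2 p + 1) ^ A) ≤
      PrimRoot.genSub (aU p) B := (genSub_le p h1).trans (genSub_mono _ hB)
  have h2 := Subgroup.index_dvd_of_le hle
  have h3 : (PrimRoot.genSub (PrimRoot.res p) ((Nat.log 2 p + 1) ^ A)).index ≠ 0 :=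
    Subgroup.index_ne_zero_of_finite
  exact_mod_cast Nat.le_of_dvd (Nat.pos_of_ne_zero h3) h2

/-- From `PrimRoot.few_bad` with `1 / k ≤ ε` (`2 ^ (L / k) ≤ 2 ^ (ε L)`) for the set of all primes
with `L` digits which do not satisfy `genSub = ⊤`. -/
theorem few_bad' (ε : ℝ) (hε : 0 < ε) : ∃ A L0 : ℕ, ∀ L, L0 ≤ L → ∃ E : Finset ℕ,
    (E.card : ℝ) ≤ (2 : ℝ) ^ (ε * L) ∧ ∀ (p : ℕ) [Fact p.Prime], Nat.size p = L → p ∉ E →
      ∀ B : ℕ, Nat.size p ^ A ≤ B → PrimRoot.genSub (aU p) B = ⊤ := by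
  classical
  obtain ⟨k, hk⟩ := exists_nat_gt (1 / ε)
  have hk0 : (0 : ℝ) < k := lt_trans (by positivity) hk
  have hk1 : 1 ≤ k := by
    have : 0 < k := by exact_mod_cast hk0
    omega
  obtain ⟨A, L0, hA, h⟩ := PrimRoot.few_bad k hk1
  refine ⟨A, L0, fun L hL => ?_⟩
  obtain ⟨hL4, hLA, hS⟩ := h L hL
  refine ⟨(range (2 ^ L)).filter fun p => p.Prime ∧ 2 ^ (L - 1) ≤ p ∧
    ∀ _ : Fact p.Prime, PrimRoot.genSub (PrimRoot.res p) (L ^ A) ≠ ⊤, ?_, ?_⟩
  · have h1 := hS ((range (2 ^ L)).filter fun p => p.Prime ∧ 2 ^ (L - 1) ≤ p ∧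
      ∀ _ : Fact p.Prime, PrimRoot.genSub (PrimRoot.res p) (L ^ A) ≠ ⊤)
      (fun p hp => by
        rw [mem_filter, mem_range] at hp
        exact ⟨hp.2.1, hp.2.2.1, hp.1⟩)
      (fun p hp => by
        rw [mem_filter] at hp
        exact hp.2.2.2)
    have h2 : ((L / k : ℕ) : ℝ) ≤ ε * L := by
      refine (Nat.cast_div_le).trans ?_
      rw [div_le_iff₀ hk0]
      have h3 : 1 ≤ ε * k := by
        rw [div_lt_iff₀ hε] at hk
        linarith
      have h4 : (0 : ℝ) ≤ L := Nat.cast_nonneg _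
      nlinarith
    calc _ ≤ ((2 ^ (L / k) : ℕ) : ℝ) := by exact_mod_cast h1.le
      _ = (2 : ℝ) ^ ((L / k : ℕ) : ℝ) := by
          rw [Real.rpow_natCast]
          push_cast
          rfl
      _ ≤ (2 : ℝ) ^ (ε * L) := Real.rpow_le_rpow_of_exponent_le (by norm_num) h2
  · intro p _ hp hpE B hB
    have hpp : p.Prime := Fact.out
    rw [hp] at hB
    have h1 : p < 2 ^ L := by
      rw [← hp]
      exact Nat.lt_size_self p
    have h2 : 2 ^ (L - 1) ≤ p := by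
      rw [← Nat.lt_size, hp]
      omega
    have h3 : PrimRoot.genSub (PrimRoot.res p) (L ^ A) = ⊤ := by
      by_contra hne
      apply hpE
      rw [mem_filter, mem_range]
      exact ⟨h1, hpp, h2, fun _ => hne⟩
    have h4 : 1 ≤ L ^ A := Nat.one_le_pow _ _ (by omega)
    have hle : PrimRoot.genSub (PrimRoot.res p) (L ^ A) ≤ PrimRoot.genSub (aU p) B :=
      (genSub_le p h4).trans (genSub_mono _ hB)
    rw [h3] at hle
    exact top_le_iff.1 hle

end Pool.Agent.PRT
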