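import Pool.Agent.PRT.AN3

/-! # `base`, `rough`, `rootN` -/

set_option autoImplicit false

namespace Pool.Agent.PRT

open Finset

/-- state after `k` steps of the loop of `base` -/
private def AN5_st (r k : ℕ) : ℕ :=
  Nat.rec (motive := fun _ => ℕ) r
    (fun i s => if iroot (i + 1) r ^ (i + 1) = r then iroot (i + 1) r else s) k

private theorem AN5_succ (r k : ℕ) : AN5_st r (k + 1) =
    if iroot (k + 1) r ^ (k + 1) = r then iroot (k + 1) r else AN5_st r k := rfl

private theorem AN5_le {q J : ℕ} (hq : q.Prime) (hJ : 1 ≤ J) (k : ℕ) (hk : J ≤ k) :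
    AN5_st (q ^ J) k = q := by
  induction k, hk using Nat.le_induction with
  | base =>
    obtain ⟨j, rfl⟩ : ∃ j, J = j + 1 := ⟨J - 1, by omega⟩
    rw [AN5_succ, iroot_pow (by omega), if_pos rfl]
  | succ k hk ih =>
    rw [AN5_succ, ih]
    split_ifs with h
    · exfalso
      have hd : iroot (k + 1) (q ^ J) ∣ q ^ J :=
        Dvd.intro (iroot (k + 1) (q ^ J) ^ k) (by rw [← pow_succ']; exact h)
      obtain ⟨c, hc1, hc2⟩ := (Nat.dvd_prime_pow hq).1 hd
      rw [hc2, ← pow_mul] at h
      have h2 := Nat.pow_right_injective hq.two_le h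
      rcases Nat.eq_zero_or_pos c with h0 | h0
      · subst h0
        simp at h2
        omega
      · nlinarith
    · rfl

/-- `iroot_pow`, `iroot_spec`; if `b ^ j = q ^ J` then `b` is a power of `q` and `j ∣ J`
(`Nat.dvd_prime_pow`); `J < size (q ^ J)`. -/
theorem base_pow {q J : ℕ} (hq : q.Prime) (hJ : 1 ≤ J) : base (q ^ J) = q := by
  have h : J ≤ Nat.size (q ^ J) :=
    (Nat.lt_size.2 (Nat.pow_le_pow_left hq.two_le J)).le
  exact AN5_le hq hJ _ h

/-- `mN_eq`; `(p - 1) / smoothPart` is the product of `q ^ v_q(p - 1)` over the prime factors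
above `R`. -/
theorem rough_cases {p R : ℕ} (hp : 2 ≤ p)
    (h : ∀ q q' : ℕ, q.Prime → q'.Prime → q ∣ p - 1 → q' ∣ p - 1 → R < q → R < q' → q = q') :
    (rough p R = 1 ∧ ∀ q : ℕ, q.Prime → q ∣ p - 1 → q ≤ R) ∨
    ∃ q J : ℕ, q.Prime ∧ 1 ≤ J ∧ R < q ∧ q ∣ p - 1 ∧ rough p R = q ^ J ∧
      ∀ q' : ℕ, q'.Prime → q' ∣ p - 1 → q' ≠ q → q' ≤ R := by
  have hN : p - 1 ≠ 0 := by omega
  rw [rough, mN_eq hp]
  by_cases hex : ∃ q : ℕ, q.Prime ∧ q ∣ p - 1 ∧ R < q
  · right
    obtain ⟨q, hq, hqd, hqR⟩ := hex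
    have hv : 1 ≤ (p - 1).factorization q := (hq.dvd_iff_one_le_factorization hN).1 hqd
    have hmem : q ∈ (p - 1).primeFactors := Nat.mem_primeFactors.2 ⟨hq, hqd, hN⟩
    have hprod : q ^ (p - 1).factorization q * PrimRoot.smoothPart R (p - 1) = p - 1 := by
      conv_rhs => rw [← Nat.prod_factorization_pow_eq_self hN]
      unfold Finsupp.prod
      rw [Nat.support_factorization, ← Finset.mul_prod_erase _ _ hmem]
      congr 1
      unfold PrimRoot.smoothPart
      apply Finset.prod_congr _ (fun _ _ => rfl)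
      ext r
      rw [PrimRoot.mem_smallPrimes, Finset.mem_erase, Nat.mem_primeFactors]
      constructor
      · rintro ⟨h1, h2⟩
        refine ⟨?_, h1⟩
        rintro rfl
        omega
      · rintro ⟨h1, h2⟩
        refine ⟨h2, ?_⟩
        by_contra hr
        exact h1 (h r q h2.1 hq h2.2.1 hqd (by omega) hqR)
    refine ⟨q, (p - 1).factorization q, hq, hv, hqR, hqd, ?_, ?_⟩
    · have hpos : 0 < PrimRoot.smoothPart R (p - 1) := by
        rcases Nat.eq_zero_or_pos (PrimRoot.smoothPart R (p - 1)) with h0 | h0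
        · exfalso
          rw [h0, mul_zero] at hprod
          exact hN hprod.symm
        · exact h0
      exact Nat.div_eq_of_eq_mul_left hpos hprod.symm
    · intro q' hq' hd hne
      by_contra hr
      exact hne (h q' q hq' hq hd hqd (by omega) hqR)
  · left
    push Not at hex
    have hs : PrimRoot.smoothPart R (p - 1) = p - 1 := by
      conv_rhs => rw [← Nat.prod_factorization_pow_eq_self hN]
      unfold Finsupp.prod PrimRoot.smoothPart
      rw [Nat.support_factorization]
      apply Finset.prod_congr _ (fun _ _ => rfl)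
      ext r
      rw [PrimRoot.mem_smallPrimes, Nat.mem_primeFactors]
      constructor
      · exact fun h1 => h1.1
      · exact fun h1 => ⟨h1, hex r h1.1 h1.2.1⟩
    refine ⟨?_, fun q hq hd => hex q hq hd⟩
    rw [hs, Nat.div_self (Nat.pos_of_ne_zero hN)]

end Pool.Agent.PRT
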