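import Pool.Agent.PRT.Alg

/-! # `strip`, `ev`, `rn`, primes in unary -/

set_option autoImplicit false

namespace Pool.Agent.PRT

open Pool.NPC Pool.NPC.Enc Pool.NPC.Tr Polynomial

variable {α β γ : Type} [Enc α] [Enc β] [Enc γ]

/-- `BT.ite`, `BT.eq`, `BT.mod`, `BT.sub`, `BT.const`. -/
theorem BT.rn {p i : α → ℕ} (hp : BT p) (hi : BT i) : BT (fun a => rn (p a) (i a)) := by
  exact BT.ite (BT.eq hi (BT.const 1)) (BT.sub hp (BT.const 1))
    (BT.ite (BT.eq (BT.mod hi hp) (BT.const 0)) (BT.const 1) (BT.mod hi hp))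

/-- `BT.natRec`; all states are `≤ x` (`Nat.div_le_self`). -/
theorem BT.strip {q x n : α → ℕ} (hq : BT q) (hx : BT x) (hn : PT n) :
    BT (fun a => strip (q a) (x a) (n a)) := by
  obtain ⟨Q, hQ⟩ := hx.size
  have hle : ∀ a i, PRT.strip (q a) (x a) i ≤ x a := by
    intro a i
    induction i with
    | zero => exact le_rfl
    | succ i ih =>
      show (if PRT.strip (q a) (x a) i % q a = 0 then PRT.strip (q a) (x a) i / q a
        else PRT.strip (q a) (x a) i) ≤ _
      split_ifs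
      · exact (Nat.div_le_self _ _).trans ih
      · exact ih
  have hs : BT (fun y : α × (ℕ × Bin) => y.2.2.val) := PT.snd' (PT.snd' PT.id)
  have hq' : BT (fun y : α × (ℕ × Bin) => q y.1) := BT.comp (F := q) hq PT.fst
  exact BT.natRec (n := n) (z := x)
    (g := fun y => if y.2.2.val % q y.1 = 0 then y.2.2.val / q y.1 else y.2.2.val) hn hx
    (BT.ite (BT.eq (BT.mod hs hq') (BT.const 0)) (BT.div hs hq') hs) Q
    fun a i _ => (Nat.size_le_size (hle a i)).trans (hQ a)

theorem BT.cf {p q : α → ℕ} (hp : BT p) (hq : BT q) : BT (fun a => cf (p a) (q a)) :=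
  BT.strip hq (BT.sub hp (BT.const 1)) hp.sizeU

/-- `PT.count`, `BT.pmod`, `BT.powU`, `BT.ne`. -/
theorem PT.ev {p q n y : α → ℕ} (hp : BT p) (hq : BT q) (hn : PT n) (hy : BT y) :
    PT (fun a => ev (p a) (q a) (n a) (y a)) := by
  have hp' : BT (fun x : α × ℕ => p x.1) := BT.comp (F := p) hp PT.fst
  have hq' : BT (fun x : α × ℕ => q x.1) := BT.comp (F := q) hq PT.fst
  have hy' : BT (fun x : α × ℕ => y x.1) := BT.comp (F := y) hy PT.fst
  exact PT.count (p := fun x : α × ℕ => decide (pmod (y x.1) (q x.1 ^ x.2) (p x.1) ≠ 1)) hn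
    (BT.ne (BT.pmod hy' (BT.powU hq' PT.snd) hp') (BT.const 1))

/-- Primality in unary: `Nat.prime_def_lt''` or similar, `PT.all` over `List.range`, `PT.mod`. -/
theorem PT.prime {n : α → ℕ} (hn : PT n) : PT (fun a => decide (n a).Prime) := by
  have h1 : PT (fun a => (List.range (n a)).all fun i =>
      decide (i < 2) || !decide (n a % i = 0)) :=
    PT.all (p := fun x : α × ℕ => decide (x.2 < 2) || !decide (n x.1 % x.2 = 0)) hn
      (PT.or (PT.lt PT.snd (PT.const 2))
        (PT.not (PT.eq (PT.mod (PT.comp (g := n) hn PT.fst) PT.snd) (PT.const 0))))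
  refine (PT.and (PT.le (PT.const 2) hn) h1).congr fun a => ?_
  rw [Bool.eq_iff_iff]
  simp only [decide_eq_true_eq, Bool.and_eq_true, List.all_eq_true, List.mem_range, Bool.or_eq_true,
    Bool.not_eq_true', decide_eq_false_iff_not]
  rw [Nat.prime_def_lt']
  refine and_congr_right fun _ => ⟨fun h i hi => ?_, fun h i h2 hi hd => ?_⟩
  · rcases Nat.lt_or_ge i 2 with h3 | h3
    · exact Or.inl h3
    · exact Or.inr fun h4 => h i h3 hi (Nat.dvd_of_mod_eq_zero h4)
  · rcases h i hi with h3 | h3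
    · omega
    · exact h3 (Nat.mod_eq_zero_of_dvd hd)

end Pool.Agent.PRT
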