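import Pool.Agent.PRT.APT1

/-! # the argmax, `io`, `iel` -/

set_option autoImplicit false

namespace Pool.Agent.PRT

open Pool.NPC Pool.NPC.Enc Pool.NPC.Tr Polynomial

variable {α β γ : Type} [Enc α] [Enc β] [Enc γ]

/-- `PT.natRec` with the (unary) state `s ≤ max 1 (B a)`; the step compares two values of `F`
(`PT.lt`, `PT.comp`). -/
theorem PT.am {F : α × ℕ → ℕ} {B : α → ℕ} (hF : PT F) (hB : PT B) :
    PT (fun a => am (fun i => F (a, i)) (B a)) := by
  obtain ⟨Q, hQ⟩ := hB.size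
  have hle : ∀ a i, PRT.am (fun i => F (a, i)) i ≤ i + 1 := by
    intro a i
    induction i with
    | zero => exact le_rfl
    | succ i ih =>
      show (if F (a, PRT.am (fun i => F (a, i)) i) < F (a, i + 1) then i + 1
        else PRT.am (fun i => F (a, i)) i) ≤ _
      split_ifs
      · omega
      · omega
  have hs : PT (fun y : α × (ℕ × ℕ) => F (y.1, y.2.2)) :=
    PT.comp (g := F) hF (PT.pair PT.fst (PT.snd' (PT.snd' PT.id)))
  have hi : PT (fun y : α × (ℕ × ℕ) => F (y.1, y.2.1 + 1)) :=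
    PT.comp (g := F) hF (PT.pair PT.fst (PT.succ (PT.fst' (PT.snd' PT.id))))
  exact PT.natRec (n := B) (z := fun _ => 1)
    (g := fun y => if F (y.1, y.2.2) < F (y.1, y.2.1 + 1) then y.2.1 + 1 else y.2.2) hB
    (PT.const 1)
    (PT.ite (PT.lt hs hi) (PT.succ (PT.fst' (PT.snd' PT.id))) (PT.snd' (PT.snd' PT.id)))
    (Q + 1) (fun a i hi => by
      have h1 := hle a i
      have h2 := hQ a
      rw [sz_nat] at h2
      show sz (PRT.am (fun i => F (a, i)) i) ≤ _
      rw [sz_nat, eval_add, eval_one]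
      omega)

/-- from `PT.am`, `PT.ev`, `BT.pmod`, `BT.cf` -/
theorem PT.io {p q : α → ℕ} {g : α × ℕ → ℕ} {B : α → ℕ} (hp : BT p) (hg : BT g) (hB : PT B)
    (hq : BT q) : PT (fun a => io (p a) (fun i => g (a, i)) (B a) (q a)) := by
  have hp' : BT (fun x : α × ℕ => p x.1) := BT.comp (F := p) hp PT.fst
  have hq' : BT (fun x : α × ℕ => q x.1) := BT.comp (F := q) hq PT.fst
  exact PT.am (F := fun x : α × ℕ =>
    PRT.ev (p x.1) (q x.1) (Nat.size (p x.1)) (pmod (g x) (cf (p x.1) (q x.1)) (p x.1)))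
    (PT.ev hp' hq' hp'.sizeU (BT.pmod hg (BT.cf hp' hq') hp')) hB

theorem BT.iel {p q : α → ℕ} {g : α × ℕ → ℕ} {B : α → ℕ} (hp : BT p) (hg : BT g) (hB : PT B)
    (hq : BT q) : BT (fun a => iel (p a) (fun i => g (a, i)) (B a) (q a)) := by
  exact BT.pmod (BT.comp (F := g) hg (PT.pair PT.id (PT.io hp hg hB hq))) (BT.cf hp hq) hp

end Pool.Agent.PRT
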