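import Pool.Agent.PRT.BOf

set_option autoImplicit false

namespace Pool.Agent.PRT

open Pool.NPC Pool.NPC.Enc Pool.NPC.Tr Polynomial

variable {α β γ : Type} [Enc α] [Enc β] [Enc γ]

private theorem subMod (x i : ℕ) :
    x % 2 ^ (i + 1) = x % 2 ^ i + 2 ^ i * (x.testBit i).toNat := by
  rw [Nat.mod_pow_succ, Nat.toNat_testBit]

private def subLtStep (x : (Bin × Bin) × (ℕ × Bool)) : Bool :=
  if (x.1.1.val.testBit x.2.1 == x.1.2.val.testBit x.2.1) = true then x.2.2
  else x.1.2.val.testBit x.2.1

private def subLtRun (a : Bin × Bin) (n : ℕ) : Bool :=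
  Nat.rec (motive := fun _ => Bool) false (fun i s => subLtStep (a, (i, s))) n

private theorem subLtInv (a : Bin × Bin) (i : ℕ) :
    subLtRun a i = decide (a.1.val % 2 ^ i < a.2.val % 2 ^ i) := by
  induction i with
  | zero =>
    show false = _
    simp [Nat.mod_one]
  | succ i ih =>
    have hs : subLtRun a (i + 1) = subLtStep (a, (i, subLtRun a i)) := rfl
    rw [hs, ih, subMod, subMod]
    simp only [subLtStep]
    generalize a.1.val.testBit i = u
    generalize a.2.val.testBit i = v
    have hX := Nat.mod_lt a.1.val (pow_pos (show 0 < 2 by norm_num) i)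
    have hY := Nat.mod_lt a.2.val (pow_pos (show 0 < 2 by norm_num) i)
    generalize a.1.val % 2 ^ i = X at hX ⊢
    generalize a.2.val % 2 ^ i = Y at hY ⊢
    generalize 2 ^ i = P at hX hY ⊢
    cases u <;> cases v <;> simp <;> omega

private theorem subLtFull (a : Bin × Bin) :
    subLtRun a (Nat.size a.1.val + Nat.size a.2.val) = decide (a.1.val < a.2.val) := by
  rw [subLtInv]
  have h4 : a.1.val < 2 ^ (Nat.size a.1.val + Nat.size a.2.val) :=
    (Nat.lt_size_self a.1.val).trans_le (Nat.pow_le_pow_right (by norm_num) (by omega))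
  have h5 : a.2.val < 2 ^ (Nat.size a.1.val + Nat.size a.2.val) :=
    (Nat.lt_size_self a.2.val).trans_le (Nat.pow_le_pow_right (by norm_num) (by omega))
  rw [Nat.mod_eq_of_lt h4, Nat.mod_eq_of_lt h5]

private theorem subLtPT : PT (fun x : Bin × Bin => decide (x.1.val < x.2.val)) := by
  have hx : BT (fun x : Bin × Bin => x.1.val) := PT.fst
  have hy : BT (fun x : Bin × Bin => x.2.val) := PT.snd
  have hn : PT (fun x : Bin × Bin => Nat.size x.1.val + Nat.size x.2.val) :=
    PT.add hx.sizeU hy.sizeU
  have h : PT (fun x : Bin × Bin => subLtRun x (Nat.size x.1.val + Nat.size x.2.val)) := by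
    refine PT.natRec (n := fun x : Bin × Bin => Nat.size x.1.val + Nat.size x.2.val)
      (z := fun _ => false) (g := subLtStep) hn (PT.const _) ?_ 1 ?_
    · have hi : PT (fun x : (Bin × Bin) × (ℕ × Bool) => x.2.1) := PT.fst' (PT.snd' PT.id)
      have hu : PT (fun x : (Bin × Bin) × (ℕ × Bool) => x.1.1.val.testBit x.2.1) :=
        BT.testBit (f := fun x : (Bin × Bin) × (ℕ × Bool) => x.1.1.val)
          (PT.fst' (PT.fst' PT.id)) hi
      have hv : PT (fun x : (Bin × Bin) × (ℕ × Bool) => x.1.2.val.testBit x.2.1) :=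
        BT.testBit (f := fun x : (Bin × Bin) × (ℕ × Bool) => x.1.2.val)
          (PT.snd' (PT.fst' PT.id)) hi
      exact PT.cond (PT.beqBool hu hv) (PT.snd' (PT.snd' PT.id)) hv
    · intro a i hi
      show sz (subLtRun a i) ≤ _
      simp
  exact h.congr fun a => (subLtFull a).symm

private def subStep (x : (Bin × Bin) × (ℕ × (Bool × List Bool))) : Bool × List Bool :=
  ((!(x.1.1.val.testBit x.2.1) && (x.1.2.val.testBit x.2.1 || x.2.2.1)) ||
    (x.1.2.val.testBit x.2.1 && x.2.2.1),
    ((x.1.1.val.testBit x.2.1 == x.1.2.val.testBit x.2.1) == x.2.2.1) :: x.2.2.2)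

private def subRun (a : Bin × Bin) (n : ℕ) : Bool × List Bool :=
  Nat.rec (motive := fun _ => Bool × List Bool) (false, []) (fun i s => subStep (a, (i, s))) n

private theorem subInv (a : Bin × Bin) (i : ℕ) : (subRun a i).2.length = i ∧
    bval (subRun a i).2.reverse + a.2.val % 2 ^ i =
      a.1.val % 2 ^ i + 2 ^ i * (subRun a i).1.toNat := by
  induction i with
  | zero =>
    refine ⟨rfl, ?_⟩
    show bval [] + _ = _ + 2 ^ 0 * 0
    simp [Nat.mod_one]
  | succ i ih =>
    obtain ⟨ih1, ih2⟩ := ih
    have hs : subRun a (i + 1) = subStep (a, (i, subRun a i)) := rfl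
    rw [hs]
    generalize subRun a i = s at ih1 ih2
    obtain ⟨c, out⟩ := s
    simp only [subStep] at ih1 ih2 ⊢
    refine ⟨by simp [ih1], ?_⟩
    rw [List.reverse_cons, bval_append, List.length_reverse, ih1, bval_cons, bval_nil,
      subMod, subMod, pow_succ]
    generalize a.1.val.testBit i = u
    generalize a.2.val.testBit i = v
    generalize a.1.val % 2 ^ i = X at ih2 ⊢
    generalize a.2.val % 2 ^ i = Y at ih2 ⊢
    generalize bval out.reverse = W at ih2 ⊢
    generalize 2 ^ i = P at ih2 ⊢
    cases u <;> cases v <;> cases c <;> simp at ih2 ⊢ <;> omega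

private theorem subPT : BT (fun x : Bin × Bin => x.1.val - x.2.val) := by
  have hx : BT (fun x : Bin × Bin => x.1.val) := PT.fst
  have hy : BT (fun x : Bin × Bin => x.2.val) := PT.snd
  have hn : PT (fun x : Bin × Bin => Nat.size x.1.val + Nat.size x.2.val) :=
    PT.add hx.sizeU hy.sizeU
  have h : PT (fun x : Bin × Bin => subRun x (Nat.size x.1.val + Nat.size x.2.val)) := by
    refine PT.natRec (n := fun x : Bin × Bin => Nat.size x.1.val + Nat.size x.2.val)
      (z := fun _ => (false, ([] : List Bool))) (g := subStep) hn (PT.const _) ?_ (X + 1) ?_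
    · have hc : PT (fun x : (Bin × Bin) × (ℕ × (Bool × List Bool)) => x.2.2.1) :=
        PT.fst' (PT.snd' (PT.snd' PT.id))
      have hi : PT (fun x : (Bin × Bin) × (ℕ × (Bool × List Bool)) => x.2.1) :=
        PT.fst' (PT.snd' PT.id)
      have ho : PT (fun x : (Bin × Bin) × (ℕ × (Bool × List Bool)) => x.2.2.2) :=
        PT.snd' (PT.snd' (PT.snd' PT.id))
      have hu : PT (fun x : (Bin × Bin) × (ℕ × (Bool × List Bool)) => x.1.1.val.testBit x.2.1) :=
        BT.testBit (f := fun x : (Bin × Bin) × (ℕ × (Bool × List Bool)) => x.1.1.val)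
          (PT.fst' (PT.fst' PT.id)) hi
      have hv : PT (fun x : (Bin × Bin) × (ℕ × (Bool × List Bool)) => x.1.2.val.testBit x.2.1) :=
        BT.testBit (f := fun x : (Bin × Bin) × (ℕ × (Bool × List Bool)) => x.1.2.val)
          (PT.snd' (PT.fst' PT.id)) hi
      exact PT.pair (PT.or (PT.and (PT.not hu) (PT.or hv hc)) (PT.and hv hc))
        (PT.cons (PT.beqBool (PT.beqBool hu hv) hc) ho)
    · intro a i hi
      show sz (subRun a i) ≤ _
      have h1 := (subInv a i).1
      simp only [sz_prod, sz_bool, sz_list, sz_bin, eval_add, eval_X, eval_one]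
      omega
  refine BT.congr (BT.ite subLtPT (BT.const 0) (BT.bval (PT.reverse (PT.snd' h)))) fun a => ?_
  by_cases hlt : a.1.val < a.2.val
  · rw [if_pos hlt]
    omega
  · rw [if_neg hlt]
    have h3 := (subInv a (Nat.size a.1.val + Nat.size a.2.val)).2
    have h3' := (subInv a (Nat.size a.1.val + Nat.size a.2.val)).1
    have h9 := bval_lt (subRun a (Nat.size a.1.val + Nat.size a.2.val)).2.reverse
    rw [List.length_reverse, h3'] at h9
    set n := Nat.size a.1.val + Nat.size a.2.val with hn
    have h4 : a.1.val < 2 ^ n :=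
      (Nat.lt_size_self a.1.val).trans_le (Nat.pow_le_pow_right (by norm_num) (by omega))
    have h5 : a.2.val < 2 ^ n :=
      (Nat.lt_size_self a.2.val).trans_le (Nat.pow_le_pow_right (by norm_num) (by omega))
    rw [Nat.mod_eq_of_lt h4, Nat.mod_eq_of_lt h5] at h3
    have h7 : (subRun a n).1.toNat = 0 := by
      rcases Nat.eq_zero_or_pos (subRun a n).1.toNat with h8 | h8
      · exact h8
      · have : 2 ^ n * 1 ≤ 2 ^ n * (subRun a n).1.toNat := Nat.mul_le_mul_left _ h8
        omega
    rw [h7] at h3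
    omega

/-- Comparison.  Proof: `PT.natRec` with `n = size x + size y` steps and state `borrow : Bool`,
`borrow (i+1) = if x_i = y_i then borrow i else y_i` with the digits `x.testBit i`, `y.testBit i`;
invariant: `borrow i = true ↔ x % 2 ^ i < y % 2 ^ i`. -/
theorem BT.lt {f g : α → ℕ} (hf : BT f) (hg : BT g) : PT (fun a => decide (f a < g a)) := by
  exact PT.comp (g := fun x : Bin × Bin => decide (x.1.val < x.2.val))
    (f := fun a => ((⟨f a⟩ : Bin), (⟨g a⟩ : Bin))) subLtPT (PT.pair hf hg)

theorem BT.le {f g : α → ℕ} (hf : BT f) (hg : BT g) : PT (fun a => decide (f a ≤ g a)) := by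
  refine (PT.not (BT.lt hg hf)).congr fun a => ?_
  rw [← decide_not]
  simp only [not_lt]

theorem BT.eq {f g : α → ℕ} (hf : BT f) (hg : BT g) : PT (fun a => decide (f a = g a)) := by
  refine (PT.and (BT.le hf hg) (BT.le hg hf)).congr fun a => ?_
  rw [← Bool.decide_and]
  simp only [le_antisymm_iff]

theorem BT.ne {f g : α → ℕ} (hf : BT f) (hg : BT g) : PT (fun a => decide (f a ≠ g a)) := by
  refine (PT.not (BT.eq hf hg)).congr fun a => ?_
  rw [← decide_not]

/-- Truncated subtraction.  Proof: as for the addition, with the borrow; state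
`(borrow, out) : Bool × List Bool`, invariant `out.length = i` and
`bval out.reverse + y % 2 ^ i = x % 2 ^ i + 2 ^ i * borrow`; then `if x < y then 0 else ...`. -/
theorem BT.sub {f g : α → ℕ} (hf : BT f) (hg : BT g) : BT (fun a => f a - g a) := by
  exact BT.comp (F := fun x : Bin × Bin => x.1.val - x.2.val) (h := fun a => (⟨f a⟩, ⟨g a⟩)) subPT
    (PT.pair hf hg)

end Pool.Agent.PRT
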