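import Pool.Agent.PRT.BAdd
import Pool.Agent.PRT.BSub

set_option autoImplicit false

namespace Pool.Agent.PRT

open Pool.NPC Pool.NPC.Enc Pool.NPC.Tr Polynomial

variable {α β γ : Type} [Enc α] [Enc β] [Enc γ]

/-- one step of the school division -/
private def dstep (y q r : ℕ) (b : Bool) : ℕ × ℕ :=
  if (decide (y = 0) || decide (r + r + b.toNat < y)) = true then (q + q, r + r + b.toNat)
  else (q + q + 1, r + r + b.toNat - y)

private theorem dstep_eq (y m : ℕ) (b : Bool) :
    dstep y (m / y) (m % y) b = ((b.toNat + 2 * m) / y, (b.toNat + 2 * m) % y) := by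
  rcases Nat.eq_zero_or_pos y with hy | hy
  · subst hy
    unfold dstep
    simp
    omega
  · have h1 := Nat.div_add_mod m y
    have h2 := Nat.mod_lt m hy
    have h3 : b.toNat ≤ 1 := Bool.toNat_le b
    set q := m / y
    set r := m % y
    unfold dstep
    by_cases hc : r + r + b.toNat < y
    · have e : (b.toNat + 2 * m) / y = q + q ∧ (b.toNat + 2 * m) % y = r + r + b.toNat :=
        (Nat.div_mod_unique hy).2 ⟨by rw [← h1]; ring, hc⟩
      rw [if_pos (by simp [hc]), e.1, e.2]
    · have e : (b.toNat + 2 * m) / y = q + q + 1 ∧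
          (b.toNat + 2 * m) % y = r + r + b.toNat - y := (Nat.div_mod_unique hy).2
        ⟨by
          have h4 : y * (q + q + 1) = 2 * (y * q) + y := by ring
          rw [h4]
          omega, by omega⟩
      rw [if_neg (by simp [hc]; omega), e.1, e.2]

private def dst (y : ℕ) (b : Bool) (s : Bin × Bin) : Bin × Bin :=
  (⟨(dstep y s.1.val s.2.val b).1⟩, ⟨(dstep y s.1.val s.2.val b).2⟩)

private theorem dst_foldr (y : ℕ) (l : List Bool) :
    l.foldr (fun b s => dst y b s) ((⟨0⟩ : Bin), (⟨0⟩ : Bin)) =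
      ((⟨bval l / y⟩ : Bin), (⟨bval l % y⟩ : Bin)) := by
  induction l with
  | nil => simp
  | cons b l ih =>
    rw [List.foldr_cons, ih]
    unfold dst
    simp only [dstep_eq, bval_cons]

private theorem dst_foldl (y : ℕ) (l : List Bool) :
    l.foldl (fun s b => dst y b s) ((⟨0⟩ : Bin), (⟨0⟩ : Bin)) =
      ((⟨bval l.reverse / y⟩ : Bin), (⟨bval l.reverse % y⟩ : Bin)) := by
  rw [← dst_foldr, List.foldr_reverse]

private theorem dst_size (x : ℕ) (l1 : List Bool) (hl1 : l1 <+: (Nat.bits x).reverse) (y : ℕ) :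
    Nat.size (bval l1.reverse / y) ≤ Nat.size x ∧ Nat.size (bval l1.reverse % y) ≤ Nat.size x := by
  have h1 : l1.length ≤ Nat.size x := by
    have := hl1.length_le
    rwa [List.length_reverse, Nat.size_eq_bits_len] at this
  have h2 : bval l1.reverse < 2 ^ Nat.size x := by
    have h3 := bval_lt l1.reverse
    rw [List.length_reverse] at h3
    exact h3.trans_le (Nat.pow_le_pow_right (by norm_num) h1)
  exact ⟨Nat.size_le.2 ((Nat.div_le_self _ _).trans_lt h2),
    Nat.size_le.2 ((Nat.mod_le _ _).trans_lt h2)⟩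

private theorem PT_dst :
    PT (fun x : (Bin × Bin) × (Bool × (Bin × Bin)) => dst x.1.2.val x.2.1 x.2.2) := by
  have hy : BT (fun x : (Bin × Bin) × (Bool × (Bin × Bin)) => x.1.2.val) :=
    BT.ofPT (PT.snd' (PT.fst' PT.id))
  have hq : BT (fun x : (Bin × Bin) × (Bool × (Bin × Bin)) => x.2.2.1.val) :=
    BT.ofPT (PT.fst' (PT.snd' (PT.snd' PT.id)))
  have hr : BT (fun x : (Bin × Bin) × (Bool × (Bin × Bin)) => x.2.2.2.val) :=
    BT.ofPT (PT.snd' (PT.snd' (PT.snd' PT.id)))
  have hb0 : PT (fun x : (Bin × Bin) × (Bool × (Bin × Bin)) => x.2.1) := PT.fst' (PT.snd' PT.id)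
  have hb : BT (fun x : (Bin × Bin) × (Bool × (Bin × Bin)) => x.2.1.toNat) :=
    (BT.ite (p := fun x : (Bin × Bin) × (Bool × (Bin × Bin)) => x.2.1 = true)
      (hb0.congr fun a => by simp) (BT.const 1) (BT.const 0)).congr fun a => by
        cases a.2.1 <;> simp
  have hr' := BT.add (BT.add hr hr) hb
  have hc := PT.or (BT.eq hy (BT.const 0)) (BT.lt hr' hy)
  have h := PT.cond hc (PT.pair (BT.add hq hq) hr')
    (PT.pair (BT.add (BT.add hq hq) (BT.const 1)) (BT.sub hr' hy))
  refine h.congr fun a => ?_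
  unfold dst dstep
  by_cases hc : (decide (a.1.2.val = 0) ||
    decide (a.2.2.2.val + a.2.2.2.val + a.2.1.toNat < a.1.2.val)) = true
  · simp only [if_pos hc]
  · simp only [if_neg hc]

/-- Division with remainder by the school method.  Proof: for `y = 0` the value is `(0, x)`.
Otherwise `PT.foldl` over `(Nat.bits x).reverse` with state `(q, r) : Bin × Bin` and the step
`(q, r) ↦ let r' := r + r + b; if y ≤ r' then (q + q + 1, r' - y) else (q + q, r')`.  Invariant
after the digits of `x / 2 ^ k`: `q = x / 2 ^ k / y`, `r = x / 2 ^ k % y`. -/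
theorem BT.divMod {f g : α → ℕ} (hf : BT f) (hg : BT g) :
    PT (fun a => ((⟨f a / g a⟩ : Bin), (⟨f a % g a⟩ : Bin))) := by
  have h : PT (fun x : Bin × Bin =>
      ((⟨x.1.val / x.2.val⟩ : Bin), (⟨x.1.val % x.2.val⟩ : Bin))) := by
    have hl : PT (fun x : Bin × Bin => (Nat.bits x.1.val).reverse) :=
      PT.reverse (BT.bits (BT.ofPT PT.fst))
    refine (PT.foldl (l := fun x : Bin × Bin => (Nat.bits x.1.val).reverse)
      (i := fun _ => ((⟨0⟩ : Bin), (⟨0⟩ : Bin)))
      (g := fun x => dst x.1.2.val x.2.1 x.2.2) hl (PT.const _) PT_dst (X + X) ?_).congr ?_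
    · intro a l1 hl1
      show sz (l1.foldl (fun s b => dst a.2.val b s) ((⟨0⟩ : Bin), (⟨0⟩ : Bin))) ≤ _
      rw [dst_foldl]
      simp only [sz_prod, sz_bin, eval_add, eval_X]
      have h1 := dst_size a.1.val l1 hl1 a.2.val
      omega
    · intro a
      show _ = (Nat.bits a.1.val).reverse.foldl (fun s b => dst a.2.val b s)
        ((⟨0⟩ : Bin), (⟨0⟩ : Bin))
      rw [dst_foldl, List.reverse_reverse, bval_bits]
  exact PT.comp h (PT.pair hf hg)

theorem BT.div {f g : α → ℕ} (hf : BT f) (hg : BT g) : BT (fun a => f a / g a) :=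
  PT.fst' (BT.divMod hf hg)

theorem BT.mod {f g : α → ℕ} (hf : BT f) (hg : BT g) : BT (fun a => f a % g a) :=
  PT.snd' (BT.divMod hf hg)

end Pool.Agent.PRT
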