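import Pool.Agent.PRT.BMul
import Pool.Agent.PRT.BDiv

set_option autoImplicit false

namespace Pool.Agent.PRT

open Pool.NPC Pool.NPC.Enc Pool.NPC.Tr Polynomial

variable {α β γ : Type} [Enc α] [Enc β] [Enc γ]

/-- product modulo `p`; zero for `p = 0` -/
def mmod (x y p : ℕ) : ℕ := if p = 0 then 0 else x * y % p

/-- power modulo `p`; zero for `p = 0` -/
def pmod (y e p : ℕ) : ℕ := if p = 0 then 0 else y ^ e % p

theorem mmod_le (x y p : ℕ) : mmod x y p ≤ p := by
  unfold mmod
  split_ifs with h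
  · exact Nat.zero_le _
  · exact (Nat.mod_lt _ (Nat.pos_of_ne_zero h)).le

theorem pmod_le (y e p : ℕ) : pmod y e p ≤ p := by
  unfold pmod
  split_ifs with h
  · exact Nat.zero_le _
  · exact (Nat.mod_lt _ (Nat.pos_of_ne_zero h)).le

theorem mmod_cast (x y : ℕ) {p : ℕ} (hp : p ≠ 0) :
    ((mmod x y p : ℕ) : ZMod p) = (x : ZMod p) * (y : ZMod p) := by
  rw [mmod, if_neg hp, ZMod.natCast_mod]; push_cast; rfl

theorem pmod_cast (y e : ℕ) {p : ℕ} (hp : p ≠ 0) :
    ((pmod y e p : ℕ) : ZMod p) = (y : ZMod p) ^ e := by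
  rw [pmod, if_neg hp, ZMod.natCast_mod]; push_cast; rfl

private theorem pstep_eq {y p : ℕ} (hp : p ≠ 0) (m : ℕ) (b : Bool) :
    mmod (mmod (pmod y m p) (pmod y m p) p) (if b = true then y else 1) p =
      pmod y (b.toNat + 2 * m) p := by
  have h1 : ∀ c : ℕ, (y ^ m % p) * (y ^ m % p) % p * c ≡ y ^ m * y ^ m * c [MOD p] := fun c =>
    ((Nat.mod_modEq _ _).trans ((Nat.mod_modEq _ _).mul (Nat.mod_modEq _ _))).mul_right c
  unfold mmod pmod
  simp only [if_neg hp]
  rw [h1]
  congr 1
  cases b
  · simp only [Bool.false_eq_true, if_false, Bool.toNat_false]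
    ring
  · simp only [if_true, Bool.toNat_true]
    ring

private theorem pfold (y p : ℕ) (l : List Bool) :
    l.foldr (fun b s => mmod (mmod s s p) (if b = true then y else 1) p)
      (if p = 0 then 0 else 1 % p) = pmod y (bval l) p := by
  rcases Nat.eq_zero_or_pos p with hp | hp
  · subst hp
    induction l with
    | nil => simp [pmod]
    | cons b l ih =>
      rw [List.foldr_cons]
      simp [pmod, mmod]
  · have hp' : p ≠ 0 := hp.ne'
    induction l with
    | nil => simp [pmod, hp']
    | cons b l ih =>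
      rw [List.foldr_cons, ih, bval_cons, pstep_eq hp']

private theorem pfoldl (y p : ℕ) (l : List Bool) :
    l.foldl (fun s b => mmod (mmod s s p) (if b = true then y else 1) p)
      (if p = 0 then 0 else 1 % p) = pmod y (bval l.reverse) p := by
  rw [← pfold, List.foldr_reverse]

private theorem pbits (x : ℕ) : bval (Nat.bits x).reverse.reverse = x := by
  rw [List.reverse_reverse, bval_bits]

theorem BT.mmod {x y p : α → ℕ} (hx : BT x) (hy : BT y) (hp : BT p) :
    BT (fun a => mmod (x a) (y a) (p a)) :=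
  (BT.ite (BT.eq hp (BT.const 0)) (BT.const 0) (BT.mod (BT.mul hx hy) hp)).congr fun _ => rfl

/-- Modular powers by repeated squaring.  Proof: `BT.foldl` over `(Nat.bits e).reverse` with the
binary state `s`, start `1 % p` (for `p ≠ 0`) and the step
`s ↦ mmod (mmod s s p) (if b then y else 1) p`; all states are at most `max 1 p`. -/
theorem BT.pmod {y e p : α → ℕ} (hy : BT y) (he : BT e) (hp : BT p) :
    BT (fun a => pmod (y a) (e a) (p a)) := by
  obtain ⟨Q, hQ⟩ := BT.size hp
  have hs : BT (fun x : α × (Bool × Bin) => x.2.2.val) := BT.ofPT (PT.snd' (PT.snd' PT.id))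
  have hy' : BT (fun x : α × (Bool × Bin) => y x.1) := BT.comp hy (PT.fst' PT.id)
  have hp' : BT (fun x : α × (Bool × Bin) => p x.1) := BT.comp hp (PT.fst' PT.id)
  have hb : PT (fun x : α × (Bool × Bin) => x.2.1) := PT.fst' (PT.snd' PT.id)
  have hc : BT (fun x : α × (Bool × Bin) => if x.2.1 = true then y x.1 else 1) :=
    BT.ite (hb.congr fun a => by simp) hy' (BT.const 1)
  have hg : BT (fun x : α × (Bool × Bin) => Pool.Agent.PRT.mmod
      (Pool.Agent.PRT.mmod x.2.2.val x.2.2.val (p x.1)) (if x.2.1 = true then y x.1 else 1)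
      (p x.1)) := BT.mmod (BT.mmod hs hs hp') hc hp'
  have hi : BT (fun a => if p a = 0 then 0 else 1 % p a) :=
    BT.ite (BT.eq hp (BT.const 0)) (BT.const 0) (BT.mod (BT.const 1) hp)
  refine (BT.foldl (PT.reverse (BT.bits he)) hi hg Q ?_).congr ?_
  · intro a l1 _
    show Nat.size (l1.foldl (fun s b => Pool.Agent.PRT.mmod (Pool.Agent.PRT.mmod s s (p a))
      (if b = true then y a else 1) (p a)) (if p a = 0 then 0 else 1 % p a)) ≤ _
    rw [pfoldl]
    exact (Nat.size_le_size (pmod_le _ _ _)).trans (hQ a)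
  · intro a
    show _ = (Nat.bits (e a)).reverse.foldl (fun s b => Pool.Agent.PRT.mmod
      (Pool.Agent.PRT.mmod s s (p a)) (if b = true then y a else 1) (p a))
      (if p a = 0 then 0 else 1 % p a)
    rw [pfoldl, pbits]

end Pool.Agent.PRT
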