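import Pool.Agent.PRT.BRoot
import Pool.Agent.PRT.BPow
import Pool.Agent.MP_18a8a6_lc.Smooth
import Pool.Agent.MP_18a8a6_lc.Count

/-!
# The algorithm, with natural numbers

Input: a prime `p` and a function `g : ℕ → ℕ`; the residues of `g 1, ..., g B` are generators of a
subgroup of `(ℤ/p)ˣ`.
-/

set_option autoImplicit false

namespace Pool.Agent.PRT

open Pool.NPC Pool.NPC.Enc Pool.NPC.Tr Polynomial

/-- the generator number `i` modulo `p`: `-1` for `i = 1`, otherwise the residue of `i`, and `1` if
`p` divides `i` -/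
def rn (p i : ℕ) : ℕ := if i = 1 then p - 1 else if i % p = 0 then 1 else i % p

/-- divide `x` by `q`, at most `n` times -/
def strip (q x n : ℕ) : ℕ :=
  Nat.rec (motive := fun _ => ℕ) x (fun _ s => if s % q = 0 then s / q else s) n

/-- the number of `j < n` with `y ^ (q ^ j) ≠ 1` modulo `p` -/
def ev (p q n y : ℕ) : ℕ := (List.range n).countP fun j => decide (pmod y (q ^ j) p ≠ 1)

/-- the first point of `[1, B]` where `F` is maximal -/
def am (F : ℕ → ℕ) (B : ℕ) : ℕ :=
  Nat.rec (motive := fun _ => ℕ) 1 (fun i s => if F s < F (i + 1) then i + 1 else s) B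

/-- the part of `p - 1` which is prime to `q` -/
def cf (p q : ℕ) : ℕ := strip q (p - 1) (Nat.size p)

/-- the index `i` in `[1, B]` for which the `q`-part of the generator number `i` is largest -/
def io (p : ℕ) (g : ℕ → ℕ) (B q : ℕ) : ℕ :=
  am (fun i => ev p q (Nat.size p) (pmod (g i) (cf p q) p)) B

/-- the largest `q`-part of a generator -/
def iel (p : ℕ) (g : ℕ → ℕ) (B q : ℕ) : ℕ := pmod (g (io p g B q)) (cf p q) p

/-- the product of the largest `q`-parts over the prime factors `q ≤ R` of `p - 1` -/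
def uN (p : ℕ) (g : ℕ → ℕ) (B R : ℕ) : ℕ :=
  Nat.rec (motive := fun _ => ℕ) 1
    (fun i s => if (i + 1).Prime ∧ (p - 1) % (i + 1) = 0 then mmod s (iel p g B (i + 1)) p else s) R

/-- the `R`-smooth part of `p - 1` -/
def mN (p R : ℕ) : ℕ :=
  Nat.rec (motive := fun _ => ℕ) 1
    (fun i s => if (i + 1).Prime ∧ (p - 1) % (i + 1) = 0 then s * ((p - 1) / cf p (i + 1)) else s) R

/-- the product of the `(g i) ^ (t ^ i)` over `1 ≤ i ≤ B` (Horner's scheme) -/
def wN (p : ℕ) (g : ℕ → ℕ) (B t : ℕ) : ℕ :=
  Nat.rec (motive := fun _ => ℕ) 1 (fun i s => pmod (mmod s (g (B - i)) p) t p) B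

/-- the candidate with parameter `t`; the generators `g` serve the primes `q ≤ R`, the generators
`g'` the primes `q > R` -/
def candN (p : ℕ) (g : ℕ → ℕ) (B : ℕ) (g' : ℕ → ℕ) (B' R t : ℕ) : ℕ :=
  mmod (uN p g B R) (pmod (wN p g' B' t) (mN p R) p) p

/-- the list of the candidates with `1 ≤ t ≤ T` -/
def candList (p : ℕ) (g : ℕ → ℕ) (B : ℕ) (g' : ℕ → ℕ) (B' R T : ℕ) : List ℕ :=
  (List.range T).map fun i => candN p g B g' B' R (i + 1)

/-- the part of `p - 1` without prime factors `≤ R` -/
def rough (p R : ℕ) : ℕ := (p - 1) / mN p R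

/-- the base `b` of `r = b ^ j` with `j ≤ size r` as large as possible -/
def base (r : ℕ) : ℕ :=
  Nat.rec (motive := fun _ => ℕ) r
    (fun i s => if iroot (i + 1) r ^ (i + 1) = r then iroot (i + 1) r else s) (Nat.size r)

/-- a residue which generates the same group as `g 1, ..., g B` if `p - 1` has at most one prime
factor above `R` -/
def rootN (p : ℕ) (g : ℕ → ℕ) (B R : ℕ) : ℕ :=
  if rough p R = 1 then uN p g B R else mmod (uN p g B R) (iel p g B (base (rough p R))) p

/-- one number, self-delimiting: every binary digit is preceded by `true`, at the end `false` -/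
def enc1 (n : ℕ) : List Bool := (Nat.bits n).flatMap (fun b => [true, b]) ++ [false]

/-- a list of natural numbers in binary; every digit is preceded by `true`, every number is followed
by `false` -/
def encList (l : List ℕ) : List Bool := l.flatMap enc1

/-- the generators `-1, 2, 3, ...` as units -/
noncomputable def aU (p : ℕ) [Fact p.Prime] (i : ℕ) : (ZMod p)ˣ :=
  if i = 1 then -1 else PrimRoot.res p i

end Pool.Agent.PRT
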