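import Pool.Agent.PRT.BOf

set_option autoImplicit false

namespace Pool.Agent.PRT

open Pool.NPC Pool.NPC.Enc Pool.NPC.Tr Polynomial

variable {α β γ : Type} [Enc α] [Enc β] [Enc γ]

private theorem addMod (x i : ℕ) :
    x % 2 ^ (i + 1) = x % 2 ^ i + 2 ^ i * (x.testBit i).toNat := by
  rw [Nat.mod_pow_succ, Nat.toNat_testBit]

private def addStep (x : (Bin × Bin) × (ℕ × (Bool × List Bool))) : Bool × List Bool :=
  ((x.1.1.val.testBit x.2.1 && x.1.2.val.testBit x.2.1) ||
    (x.2.2.1 && (x.1.1.val.testBit x.2.1 || x.1.2.val.testBit x.2.1)),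
    ((x.1.1.val.testBit x.2.1 == x.1.2.val.testBit x.2.1) == x.2.2.1) :: x.2.2.2)

private def addRun (a : Bin × Bin) (n : ℕ) : Bool × List Bool :=
  Nat.rec (motive := fun _ => Bool × List Bool) (false, []) (fun i s => addStep (a, (i, s))) n

/-- Addition of binary numbers.  Proof: `PT.natRec` with `n = size x + size y + 1` steps and state
`(carry, out) : Bool × List Bool` (out reversed), step number `i` uses the digits
`x.testBit i`, `y.testBit i` (`BT.testBit`).  Invariant: `out` has length `i` and
`bval out.reverse + 2 ^ i * carry = x % 2 ^ i + y % 2 ^ i` (`Nat.mod_two_pow_succ` or similar).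
At the end `bval out.reverse = x + y`, use `BT.bval`, `PT.reverse`. -/
theorem BT.add {f g : α → ℕ} (hf : BT f) (hg : BT g) : BT (fun a => f a + g a) := by
  have hx : BT (fun x : Bin × Bin => x.1.val) := PT.fst
  have hy : BT (fun x : Bin × Bin => x.2.val) := PT.snd
  have hn : PT (fun x : Bin × Bin => Nat.size x.1.val + Nat.size x.2.val + 1) :=
    PT.succ (PT.add hx.sizeU hy.sizeU)
  have inv : ∀ (a : Bin × Bin) (i : ℕ), (addRun a i).2.length = i ∧
      PRT.bval (addRun a i).2.reverse + 2 ^ i * (addRun a i).1.toNat =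
        a.1.val % 2 ^ i + a.2.val % 2 ^ i := by
    intro a i
    induction i with
    | zero =>
      refine ⟨rfl, ?_⟩
      show PRT.bval [] + 2 ^ 0 * 0 = _
      simp [Nat.mod_one]
    | succ i ih =>
      obtain ⟨ih1, ih2⟩ := ih
      have hs : addRun a (i + 1) = addStep (a, (i, addRun a i)) := rfl
      rw [hs]
      generalize addRun a i = s at ih1 ih2
      obtain ⟨c, out⟩ := s
      simp only [addStep] at ih1 ih2 ⊢
      refine ⟨by simp [ih1], ?_⟩
      rw [List.reverse_cons, bval_append, List.length_reverse, ih1, bval_cons, bval_nil,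
        addMod, addMod, pow_succ]
      generalize a.1.val.testBit i = u
      generalize a.2.val.testBit i = v
      generalize a.1.val % 2 ^ i = X at ih2 ⊢
      generalize a.2.val % 2 ^ i = Y at ih2 ⊢
      generalize PRT.bval out.reverse = W at ih2 ⊢
      generalize 2 ^ i = P at ih2 ⊢
      cases u <;> cases v <;> cases c <;> simp at ih2 ⊢ <;> omega
  have h : PT (fun x : Bin × Bin =>
      addRun x (Nat.size x.1.val + Nat.size x.2.val + 1)) := by
    refine PT.natRec (n := fun x : Bin × Bin => Nat.size x.1.val + Nat.size x.2.val + 1)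
      (z := fun _ => (false, ([] : List Bool))) (g := addStep) hn (PT.const _) ?_ (X + 2) ?_
    · have hc : PT (fun x : (Bin × Bin) × (ℕ × (Bool × List Bool)) => x.2.2.1) :=
        PT.fst' (PT.snd' (PT.snd' PT.id))
      have hi : PT (fun x : (Bin × Bin) × (ℕ × (Bool × List Bool)) => x.2.1) :=
        PT.fst' (PT.snd' PT.id)
      have ho : PT (fun x : (Bin × Bin) × (ℕ × (Bool × List Bool)) => x.2.2.2) :=
        PT.snd' (PT.snd' (PT.snd' PT.id))
      have hu : PT (fun x : (Bin × Bin) × (ℕ × (Bool × List Bool)) => x.1.1.val.testBit x.2.1) :=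
        BT.testBit (f := fun x : (Bin × Bin) × (ℕ × (Bool × List Bool)) => x.1.1.val)
          (PT.fst' (PT.fst' PT.id)) hi
      have hv : PT (fun x : (Bin × Bin) × (ℕ × (Bool × List Bool)) => x.1.2.val.testBit x.2.1) :=
        BT.testBit (f := fun x : (Bin × Bin) × (ℕ × (Bool × List Bool)) => x.1.2.val)
          (PT.snd' (PT.fst' PT.id)) hi
      exact PT.pair (PT.or (PT.and hu hv) (PT.and hc (PT.or hu hv)))
        (PT.cons (PT.beqBool (PT.beqBool hu hv) hc) ho)
    · intro a i hi
      show sz (addRun a i) ≤ _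
      have h1 := (inv a i).1
      simp only [sz_prod, sz_bool, sz_list, sz_bin, eval_add, eval_X, eval_ofNat]
      omega
  have h2 : BT (fun x : Bin × Bin => x.1.val + x.2.val) := by
    refine BT.congr (BT.bval (PT.reverse (PT.snd' h))) fun a => ?_
    have h3 := (inv a (Nat.size a.1.val + Nat.size a.2.val + 1)).2
    set n := Nat.size a.1.val + Nat.size a.2.val + 1 with hn
    have h4 : a.1.val < 2 ^ (n - 1) :=
      (Nat.lt_size_self a.1.val).trans_le (Nat.pow_le_pow_right (by norm_num) (by omega))
    have h5 : a.2.val < 2 ^ (n - 1) :=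
      (Nat.lt_size_self a.2.val).trans_le (Nat.pow_le_pow_right (by norm_num) (by omega))
    have h6 : 2 ^ n = 2 * 2 ^ (n - 1) := by
      rw [← pow_succ']
      congr 1
    rw [Nat.mod_eq_of_lt (by omega), Nat.mod_eq_of_lt (by omega)] at h3
    have h7 : (addRun a n).1.toNat = 0 := by
      rcases Nat.eq_zero_or_pos (addRun a n).1.toNat with h8 | h8
      · exact h8
      · have : 2 ^ n * 1 ≤ 2 ^ n * (addRun a n).1.toNat := Nat.mul_le_mul_left _ h8
        omega
    rw [h7] at h3
    omega
  exact BT.comp (F := fun x : Bin × Bin => x.1.val + x.2.val) (h := fun a => (⟨f a⟩, ⟨g a⟩)) h2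
    (PT.pair hf hg)

end Pool.Agent.PRT
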