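import Pool.Agent.PRT.BAdd

set_option autoImplicit false

namespace Pool.Agent.PRT

open Pool.NPC Pool.NPC.Enc Pool.NPC.Tr Polynomial

variable {α β γ : Type} [Enc α] [Enc β] [Enc γ]

/-- Horner's scheme -/
private theorem mul_foldr (y : ℕ) (m : List Bool) :
    m.foldr (fun b s => s + s + (if b = true then y else 0)) 0 = bval m * y := by
  induction m with
  | nil => simp
  | cons b m ih =>
    rw [List.foldr_cons, ih, bval_cons]
    cases b <;> simp <;> ring

private theorem mul_size_le (x y : ℕ) : Nat.size (x * y) ≤ Nat.size x + Nat.size y := by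
  rw [Nat.size_le, pow_add]
  exact Nat.mul_lt_mul'' (Nat.lt_size_self x) (Nat.lt_size_self y)

private theorem mul_size_mono {x y : ℕ} (h : x ≤ y) : Nat.size x ≤ Nat.size y :=
  Nat.size_le_size h

/-- Multiplication.  Proof: `BT.foldl` over `(Nat.bits x).reverse` (most significant digit first)
with the binary state `s` and the step `s ↦ s + s + (if b then y else 0)`; after the prefix which
is the reverse of a suffix `m` of `Nat.bits x` the value is `bval m * y`
(write the fold over the reverse as `List.foldr`, `List.foldl_reverse`). -/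
theorem BT.mul {f g : α → ℕ} (hf : BT f) (hg : BT g) : BT (fun a => f a * g a) := by
  obtain ⟨Qf, hQf⟩ := hf.size
  obtain ⟨Qg, hQg⟩ := hg.size
  have hstep : BT (fun x : α × (Bool × Bin) => x.2.2.val + x.2.2.val +
      (if x.2.1 = true then g x.1 else 0)) := by
    have h1 : BT (fun x : α × (Bool × Bin) => x.2.2.val) := BT.ofPT (PT.snd' (PT.snd' PT.id))
    have h2 : PT (fun x : α × (Bool × Bin) => decide (x.2.1 = true)) :=
      (PT.fst' (PT.snd' PT.id)).congr fun x => by simp
    have h3 : BT (fun x : α × (Bool × Bin) => g x.1) := BT.comp hg (PT.fst' PT.id)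
    exact BT.add (BT.add h1 h1) (BT.ite h2 h3 (BT.const 0))
  have key : ∀ (a : α) (l1 : List Bool),
      l1.foldl (fun s b => s + s + (if b = true then g a else 0)) 0 = PRT.bval l1.reverse * g a := by
    intro a l1
    rw [← mul_foldr, ← List.foldl_reverse, List.reverse_reverse]
  refine (BT.foldl (l := fun a => (Nat.bits (f a)).reverse) (i := fun _ => 0)
    (PT.reverse hf.bits) (BT.const 0) hstep (Qf + Qg) ?_).congr ?_
  · intro a l1 h
    show Nat.size (l1.foldl (fun s b => s + s + (if b = true then g a else 0)) 0) ≤ _
    rw [key, eval_add]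
    have h1 : PRT.bval l1.reverse ≤ f a := by
      have h2 : l1.reverse <:+ Nat.bits (f a) := by
        rw [← List.reverse_prefix, List.reverse_reverse]
        exact h
      obtain ⟨t, ht⟩ := h2
      have h3 := bval_bits (f a)
      rw [← ht, bval_append] at h3
      have h4 : PRT.bval l1.reverse ≤ 2 ^ t.length * PRT.bval l1.reverse :=
        Nat.le_mul_of_pos_left _ (by positivity)
      omega
    have h5 := mul_size_mono (Nat.mul_le_mul_right (g a) h1)
    have h6 := mul_size_le (f a) (g a)
    have h7 := hQf a
    have h8 := hQg a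
    omega
  · intro a
    show _ = (Nat.bits (f a)).reverse.foldl (fun s b => s + s + (if b = true then g a else 0)) 0
    rw [key, List.reverse_reverse, bval_bits]

end Pool.Agent.PRT
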