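import Pool.Agent.PRT.Bin

/-!
# The value of a bit string
-/

set_option autoImplicit false

namespace Pool.Agent.PRT

open Pool.NPC Pool.NPC.Enc Pool.NPC.Tr Polynomial

variable {α β γ : Type} [Enc α] [Enc β] [Enc γ]

/-- the value of a string of binary digits, least significant first; zeros at the end allowed -/
def bval (l : List Bool) : ℕ := l.foldr (fun b n => Nat.bit b n) 0

@[simp] theorem bval_nil : bval [] = 0 := rfl

theorem bval_cons (b : Bool) (l : List Bool) : bval (b :: l) = b.toNat + 2 * bval l := by
  show Nat.bit b (bval l) = _
  cases b <;> simp [Nat.bit] <;> omega

theorem bval_append (l m : List Bool) : bval (l ++ m) = bval l + 2 ^ l.length * bval m := by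
  induction l with
  | nil => simp
  | cons b l ih =>
    rw [List.cons_append, bval_cons, ih, bval_cons, List.length_cons, pow_succ]
    ring

theorem bval_lt (l : List Bool) : bval l < 2 ^ l.length := by
  induction l with
  | nil => simp
  | cons b l ih =>
    rw [bval_cons, List.length_cons, pow_succ]
    have : b.toNat ≤ 1 := Bool.toNat_le b
    omega

theorem bval_bits (n : ℕ) : bval (Nat.bits n) = n := by
  induction n using Nat.binaryRec' with
  | zero => simp
  | bit b n h ih =>
    rw [Nat.bits_append_bit n b h]
    show Nat.bit b (bval n.bits) = _
    rw [ih]

private def bvalStep (s : List Bool) (b : Bool) : List Bool :=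
  if (!b && s.head?.isNone) = true then [] else b :: s

/-- The value of a string is polynomial time.  Remove the zeros at the end: fold over the reversed
string with the step `s ↦ if b = false and s = [] then [] else b :: s`; the result is
`Nat.bits (bval l)` (`Nat.bits_append_bit`), then `PT.of_enc_eq`. -/
theorem BT.bval {l : α → List Bool} (hl : PT l) : BT (fun a => bval (l a)) := by
  have hlen : ∀ (l1 s : List Bool), (l1.foldl bvalStep s).length ≤ s.length + l1.length := by
    intro l1
    induction l1 with
    | nil => intro s; simp
    | cons b l1 ih =>
      intro s
      rw [List.foldl_cons]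
      refine (ih _).trans ?_
      have h1 : (bvalStep s b).length ≤ s.length + 1 := by
        unfold bvalStep
        split_ifs <;> simp
      simp only [List.length_cons]
      omega
  have key : ∀ l : List Bool, l.foldr (fun b s => bvalStep s b) [] = Nat.bits (PRT.bval l) := by
    intro l
    induction l with
    | nil => simp
    | cons b l ih =>
      rw [List.foldr_cons, ih]
      show bvalStep (Nat.bits (PRT.bval l)) b = Nat.bits (Nat.bit b (PRT.bval l))
      generalize PRT.bval l = n
      unfold bvalStep
      rcases Nat.eq_zero_or_pos n with h0 | h0
      · subst h0
        cases b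
        · simp
        · rw [Nat.bits_append_bit 0 true (fun _ => rfl)]
          simp
      · rw [Nat.bits_append_bit n b (fun h => by omega)]
        have h1 : n.bits.head?.isNone = false := by
          cases h2 : n.bits with
          | nil =>
            exfalso
            have h3 := bval_bits n
            rw [h2, bval_nil] at h3
            omega
          | cons c m => rfl
        simp [h1]
  have h : PT (fun l : List Bool => Nat.bits (PRT.bval l)) := by
    refine (PT.foldl (l := fun l : List Bool => l.reverse) (i := fun _ => ([] : List Bool))
      (g := fun x => bvalStep x.2.2 x.2.1) (PT.reverse PT.id) (PT.const [])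
      ?_ X ?_).congr ?_
    · exact PT.cond (PT.and (PT.not (PT.fst' (PT.snd' PT.id)))
        (PT.comp (f := fun x : List Bool × (Bool × List Bool) => x.2.2)
          (PT.headCase (fun o => o.isNone)) (PT.snd' (PT.snd' PT.id)))) (PT.const [])
        (PT.cons (PT.fst' (PT.snd' PT.id)) (PT.snd' (PT.snd' PT.id)))
    · intro a l1 h
      have h1 := hlen l1 []
      have h2 := h.length_le
      simp only [List.length_reverse] at h2
      simp only [sz_list, eval_X]
      simp only [List.length_nil] at h1
      exact (h1.trans (by omega))
    · intro a
      show _ = List.foldl (fun s b => bvalStep s b) [] a.reverse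
      rw [List.foldl_reverse, key]
  have h2 : BT (fun l : List Bool => PRT.bval l) := PT.of_enc_eq h rfl fun _ => rfl
  exact BT.comp (F := fun l : List Bool => PRT.bval l) h2 hl

end Pool.Agent.PRT
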