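import Pool.Agent.PRT.BUn

set_option autoImplicit false

namespace Pool.Agent.PRT

open Pool.NPC Pool.NPC.Enc Pool.NPC.Tr Polynomial

variable {α β γ : Type} [Enc α] [Enc β] [Enc γ]

/-- the digit by digit computation of the `j`-th root of `r` : start with `0` and try to add
`2 ^ (n-1), ..., 2, 1` -/
def irootAux (j r n : ℕ) : ℕ → ℕ := fun k =>
  Nat.rec (motive := fun _ => ℕ) 0
    (fun i s => if (s + 2 ^ (n - 1 - i)) ^ j ≤ r then s + 2 ^ (n - 1 - i) else s) k

/-- the integer part of the `j`-th root of `r` (for `j ≥ 1`) -/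
def iroot (j r : ℕ) : ℕ := irootAux j r (Nat.size r) (Nat.size r)

private theorem aux_succ (j r n k : ℕ) : irootAux j r n (k + 1) =
    if (irootAux j r n k + 2 ^ (n - 1 - k)) ^ j ≤ r then irootAux j r n k + 2 ^ (n - 1 - k)
    else irootAux j r n k := rfl

private theorem aux_bound (j r n k : ℕ) (hk : k ≤ n) :
    irootAux j r n k + 2 ^ (n - k) ≤ 2 ^ n := by
  induction k with
  | zero => simp [irootAux]
  | succ k ih =>
    have ih' := ih (by omega)
    have e : 2 ^ (n - k) = 2 ^ (n - 1 - k) + 2 ^ (n - 1 - k) := by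
      rw [← two_mul, ← pow_succ']
      congr 1
      omega
    have e2 : n - (k + 1) = n - 1 - k := by omega
    have e3 : 0 < 2 ^ (n - 1 - k) := by positivity
    rw [aux_succ, e2]
    split_ifs <;> omega

private theorem aux_spec {j : ℕ} (hj : 1 ≤ j) (r n k : ℕ) (hn : r < 2 ^ n) (hk : k ≤ n) :
    irootAux j r n k ^ j ≤ r ∧ r < (irootAux j r n k + 2 ^ (n - k)) ^ j := by
  induction k with
  | zero =>
    refine ⟨?_, ?_⟩
    · show 0 ^ j ≤ r
      rw [zero_pow (by omega)]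
      exact Nat.zero_le _
    · show r < (0 + 2 ^ (n - 0)) ^ j
      rw [zero_add, Nat.sub_zero]
      exact hn.trans_le (Nat.le_self_pow (by omega) _)
  | succ k ih =>
    obtain ⟨h1, h2⟩ := ih (by omega)
    have e : 2 ^ (n - k) = 2 ^ (n - 1 - k) + 2 ^ (n - 1 - k) := by
      rw [← two_mul, ← pow_succ']
      congr 1
      omega
    have e2 : n - (k + 1) = n - 1 - k := by omega
    rw [aux_succ, e2]
    by_cases hc : (irootAux j r n k + 2 ^ (n - 1 - k)) ^ j ≤ r
    · rw [if_pos hc]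
      refine ⟨hc, ?_⟩
      rwa [e, ← Nat.add_assoc] at h2
    · rw [if_neg hc]
      exact ⟨h1, not_le.1 hc⟩

/-- `iroot j r` is the integer part of the `j`-th root.  Invariant of the loop after `k ≤ n` steps
(`n = size r`, so `r < 2 ^ n`): `2 ^ (n - k) ∣ s`, `s ^ j ≤ r` and `r < (s + 2 ^ (n - k)) ^ j`. -/
theorem iroot_spec {j : ℕ} (hj : 1 ≤ j) (r : ℕ) : iroot j r ^ j ≤ r ∧ r < (iroot j r + 1) ^ j := by
  have h := aux_spec hj r (Nat.size r) (Nat.size r) (Nat.lt_size_self r) le_rfl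
  rw [Nat.sub_self, pow_zero] at h
  exact h

theorem iroot_pow {j : ℕ} (hj : 1 ≤ j) (x : ℕ) : iroot j (x ^ j) = x := by
  obtain ⟨h1, h2⟩ := iroot_spec hj (x ^ j)
  have h3 : iroot j (x ^ j) ≤ x := (Nat.pow_le_pow_iff_left (by omega)).1 h1
  have h4 : x < iroot j (x ^ j) + 1 := (Nat.pow_lt_pow_iff_left (by omega)).1 h2
  omega

/-- Proof: `BT.natRec`, `BT.powU`, `BT.le`; all states are `< 2 ^ (size r)`, the powers have size
at most `j * (size r + 1) + 1`; the exponent `n - 1 - i` is unary. -/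
theorem BT.iroot {j r : α → ℕ} (hj : PT j) (hr : BT r) : BT (fun a => iroot (j a) (r a)) := by
  obtain ⟨Q, hQ⟩ := BT.size hr
  have hs : BT (fun x : α × (ℕ × Bin) => x.2.2.val) := BT.ofPT (PT.snd' (PT.snd' PT.id))
  have hi : PT (fun x : α × (ℕ × Bin) => x.2.1) := PT.fst' (PT.snd' PT.id)
  have hj' : PT (fun x : α × (ℕ × Bin) => j x.1) := PT.comp hj (PT.fst' PT.id)
  have hr' : BT (fun x : α × (ℕ × Bin) => r x.1) := BT.comp hr (PT.fst' PT.id)
  have hn' : PT (fun x : α × (ℕ × Bin) => Nat.size (r x.1)) := BT.sizeU hr'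
  have ht : BT (fun x : α × (ℕ × Bin) => x.2.2.val + 2 ^ (Nat.size (r x.1) - 1 - x.2.1)) :=
    BT.add hs (BT.powU (BT.const 2) (PT.sub (PT.sub hn' (PT.const 1)) hi))
  have hg : BT (fun x : α × (ℕ × Bin) =>
      if (x.2.2.val + 2 ^ (Nat.size (r x.1) - 1 - x.2.1)) ^ (j x.1) ≤ r x.1 then
        x.2.2.val + 2 ^ (Nat.size (r x.1) - 1 - x.2.1) else x.2.2.val) :=
    BT.ite (BT.le (BT.powU ht hj') hr') ht hs
  refine (BT.natRec (BT.sizeU hr) (BT.const 0) hg Q ?_).congr ?_
  · intro a i hi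
    have h1 := aux_bound (j a) (r a) (Nat.size (r a)) i hi
    have h2 : irootAux (j a) (r a) (Nat.size (r a)) i < 2 ^ Nat.size (r a) := by
      have : 0 < 2 ^ (Nat.size (r a) - i) := by positivity
      omega
    exact (Nat.size_le.2 h2).trans (hQ a)
  · intro a
    rfl

end Pool.Agent.PRT
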