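import Pool.Agent.PRT.BMul
import Pool.Agent.PRT.BSub

set_option autoImplicit false

namespace Pool.Agent.PRT

open Pool.NPC Pool.NPC.Enc Pool.NPC.Tr Polynomial

variable {α β γ : Type} [Enc α] [Enc β] [Enc γ]

private theorem un_size_self_le (n : ℕ) : Nat.size n ≤ n := by
  rw [Nat.size_le]
  exact Nat.lt_two_pow_self

/-- From unary to binary.  Proof: `BT.natRec` with start `0` and the step `s ↦ s + 1`
(`BT.add`, `BT.const`). -/
theorem BT.ofUnary {n : α → ℕ} (hn : PT n) : BT (fun a => n a) := by
  obtain ⟨Rn, hRn⟩ := hn.size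
  have hstep : BT (fun x : α × (ℕ × Bin) => x.2.2.val + 1) :=
    BT.add (BT.ofPT (PT.snd' (PT.snd' PT.id))) (BT.const 1)
  have key : ∀ i : ℕ, Nat.rec (motive := fun _ => ℕ) 0 (fun _ s => s + 1) i = i := by
    intro i
    induction i with
    | zero => rfl
    | succ i ih =>
      show Nat.rec (motive := fun _ => ℕ) 0 (fun _ s => s + 1) i + 1 = i + 1
      rw [ih]
  refine (BT.natRec (n := n) (z := fun _ => 0) hn (BT.const 0) hstep Rn ?_).congr ?_
  · intro a i hi
    show Nat.size (Nat.rec (motive := fun _ => ℕ) 0 (fun _ s => s + 1) i) ≤ _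
    rw [key]
    have h1 := un_size_self_le i
    have h2 : n a ≤ Rn.eval (sz a) := by simpa using hRn a
    omega
  · intro a
    exact (key (n a)).symm

private theorem un_count (m n : ℕ) :
    (List.range n).countP (fun i => decide (i < m)) = min n m := by
  induction n with
  | zero => simp
  | succ n ih =>
    rw [List.range_succ, List.countP_append, ih]
    by_cases h : n < m
    · simp [h]; omega
    · simp [h]; omega

/-- From binary to unary, below a unary bound.  Proof: `PT.count` of `i < f a` over `i < n a`. -/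
theorem PT.minB {f n : α → ℕ} (hf : BT f) (hn : PT n) : PT (fun a => min (n a) (f a)) := by
  have h1 : PT (fun x : α × ℕ => decide (x.2 < f x.1)) :=
    BT.lt (BT.ofUnary (PT.snd' PT.id)) (BT.comp hf (PT.fst' PT.id))
  refine (PT.count (p := fun x : α × ℕ => decide (x.2 < f x.1)) hn h1).congr fun a => ?_
  exact (un_count (f a) (n a)).symm

private theorem un_size_pow (x i : ℕ) : Nat.size (x ^ i) ≤ i * Nat.size x + 1 := by
  rw [Nat.size_le]
  have h1 : x ^ i ≤ (2 ^ Nat.size x) ^ i := Nat.pow_le_pow_left (Nat.lt_size_self x).le i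
  rw [← pow_mul, mul_comm] at h1
  exact lt_of_le_of_lt h1 (Nat.pow_lt_pow_right (by norm_num) (Nat.lt_succ_self _))

/-- Powers with a unary exponent.  Proof: `BT.natRec` with the step `s ↦ s * f`, the size of
`f ^ i` is at most `i * size f + 1`. -/
theorem BT.powU {f n : α → ℕ} (hf : BT f) (hn : PT n) : BT (fun a => f a ^ n a) := by
  obtain ⟨Qf, hQf⟩ := hf.size
  obtain ⟨Rn, hRn⟩ := hn.size
  have hstep : BT (fun x : α × (ℕ × Bin) => x.2.2.val * f x.1) :=
    BT.mul (BT.ofPT (PT.snd' (PT.snd' PT.id))) (BT.comp hf (PT.fst' PT.id))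
  have key : ∀ x i : ℕ, Nat.rec (motive := fun _ => ℕ) 1 (fun _ s => s * x) i = x ^ i := by
    intro x i
    induction i with
    | zero => rfl
    | succ i ih =>
      show Nat.rec (motive := fun _ => ℕ) 1 (fun _ s => s * x) i * x = x ^ (i + 1)
      rw [ih, pow_succ]
  refine (BT.natRec (n := n) (z := fun _ => 1) hn (BT.const 1) hstep (Rn * Qf + 1) ?_).congr ?_
  · intro a i hi
    show Nat.size (Nat.rec (motive := fun _ => ℕ) 1 (fun _ s => s * f a) i) ≤ _
    rw [key]
    have h2 : n a ≤ Rn.eval (sz a) := by simpa using hRn a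
    have h3 := un_size_pow (f a) i
    have h4 : i * Nat.size (f a) ≤ Rn.eval (sz a) * Qf.eval (sz a) :=
      Nat.mul_le_mul (hi.trans h2) (hQf a)
    rw [eval_add, eval_mul, eval_one]
    omega
  · intro a
    exact (key (f a) (n a)).symm

/-- Finite tables: below the constant `N` the value is looked up.  Induction on `N`, `BT.ite`,
`BT.eq`, `BT.const` (compare `PT.table`). -/
theorem BT.table (t : ℕ → ℕ) (N : ℕ) {f d : α → ℕ} (hf : BT f) (hd : BT d) :
    BT (fun a => if f a < N then t (f a) else d a) := by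
  induction N with
  | zero => exact hd.congr fun a => by simp
  | succ N ih =>
    refine (BT.ite (BT.eq hf (BT.const N)) (BT.const (t N)) ih).congr fun a => ?_
    by_cases h : f a = N
    · simp [h]
    · by_cases h2 : f a < N
      · have h3 : f a < N + 1 := by omega
        simp [h, h2, h3]
      · have h3 : ¬ f a < N + 1 := by omega
        simp [h, h2, h3]

end Pool.Agent.PRT
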