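import Pool.Agent.NPC.More

/-!
# Binary numbers in the class `PT`

`BT f`: the function `f : α → ℕ` is computable in polynomial time when its values are written in
binary.  (In `Pool.NPC` the type `ℕ` itself is encoded in unary.)
-/

set_option autoImplicit false

namespace Pool.Agent.PRT

open Pool.NPC Pool.NPC.Enc Pool.NPC.Tr Polynomial

/-- a natural number which is written in binary, least significant digit first -/
structure Bin where
  val : ℕ

instance : Enc Bin := ⟨.leaf (), fun n => .leaf (Nat.bits n.val), fun _ => rfl⟩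

@[simp] theorem sz_bin (n : Bin) : sz n = Nat.size n.val := Nat.size_eq_bits_len n.val

variable {α β γ : Type} [Enc α] [Enc β] [Enc γ]

/-- `f` is computable in polynomial time with values written in binary -/
def BT (f : α → ℕ) : Prop := PT (fun a => (⟨f a⟩ : Bin))

theorem BT.congr {f g : α → ℕ} (hf : BT f) (h : ∀ a, g a = f a) : BT g :=
  PT.congr hf fun a => by rw [h]

theorem BT.const (n : ℕ) : BT (fun _ : α => n) := PT.const _

/-- the value of a binary component -/
theorem BT.val : BT (fun x : Bin => x.val) := PT.id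

theorem BT.ofPT {f : α → Bin} (hf : PT f) : BT (fun a => (f a).val) := hf

/-- composition with a polynomial time map -/
theorem BT.comp {F : β → ℕ} {h : α → β} (hF : BT F) (hh : PT h) : BT (fun a => F (h a)) :=
  PT.comp (g := fun b => (⟨F b⟩ : Bin)) hF hh

/-- substitution of a binary value into a function of one binary variable and parameters -/
theorem BT.subst {F : α × Bin → ℕ} {g : α → ℕ} (hF : BT F) (hg : BT g) :
    BT (fun a => F (a, ⟨g a⟩)) :=
  PT.comp (g := fun b => (⟨F b⟩ : Bin)) (f := fun a : α => (a, (⟨g a⟩ : Bin))) hF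
    (PT.pair PT.id hg)

theorem BT.substPT {F : α × Bin → β} {g : α → ℕ} (hF : PT F) (hg : BT g) :
    PT (fun a => F (a, ⟨g a⟩)) :=
  PT.comp (f := fun a : α => (a, (⟨g a⟩ : Bin))) hF (PT.pair PT.id hg)

theorem BT.fst : BT (fun x : Bin × α => x.1.val) := PT.fst
theorem BT.snd : BT (fun x : α × Bin => x.2.val) := PT.snd

/-- sizes of values are polynomially bounded -/
theorem BT.size {f : α → ℕ} (hf : BT f) : ∃ Q : ℕ[X], ∀ a, Nat.size (f a) ≤ Q.eval (sz a) := by
  obtain ⟨Q, hQ⟩ := PT.size hf
  exact ⟨Q, fun a => by simpa using hQ a⟩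

theorem BT.ite {p : α → Prop} [DecidablePred p] {f g : α → ℕ} (hp : PT (fun a => decide (p a)))
    (hf : BT f) (hg : BT g) : BT (fun a => if p a then f a else g a) :=
  (PT.ite hp hf hg).congr fun a => by
    by_cases h : p a <;> simp [h]

/-- the digits of a binary value -/
theorem BT.bits {f : α → ℕ} (hf : BT f) : PT (fun a => Nat.bits (f a)) :=
  PT.of_enc_eq (g := fun a => Nat.bits (f a)) hf rfl fun _ => rfl

/-- the length in binary, as a unary number -/
theorem BT.sizeU {f : α → ℕ} (hf : BT f) : PT (fun a => Nat.size (f a)) :=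
  (PT.length hf.bits).congr fun a => (Nat.size_eq_bits_len _).symm

/-- the digit number `i` (unary) of a binary value -/
theorem BT.testBit {f i : α → ℕ} (hf : BT f) (hi : PT i) : PT (fun a => (f a).testBit (i a)) :=
  (PT.getD hf.bits hi).congr fun a => by
    rw [Nat.testBit_eq_inth, List.getI_eq_getElem?_getD, List.getD_eq_getElem?_getD]; rfl

/-- iteration (a unary number of times) with binary states of polynomially bounded length -/
theorem BT.natRec {n : α → ℕ} {z : α → ℕ} {g : α × (ℕ × Bin) → ℕ} (hn : PT n) (hz : BT z)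
    (hg : BT g) (Q : ℕ[X])
    (hQ : ∀ a i, i ≤ n a →
      Nat.size (Nat.rec (motive := fun _ => ℕ) (z a) (fun i s => g (a, (i, ⟨s⟩))) i) ≤
        Q.eval (sz a)) :
    BT (fun a => Nat.rec (motive := fun _ => ℕ) (z a) (fun i s => g (a, (i, ⟨s⟩))) (n a)) := by
  have key : ∀ a i, (Nat.rec (motive := fun _ => Bin) ⟨z a⟩ (fun i s => ⟨g (a, (i, s))⟩) i : Bin) =
      ⟨Nat.rec (motive := fun _ => ℕ) (z a) (fun i s => g (a, (i, ⟨s⟩))) i⟩ := by
    intro a i
    induction i with
    | zero => rfl
    | succ i ih =>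
      show (⟨g (a, (i, Nat.rec (motive := fun _ => Bin) ⟨z a⟩ (fun i s => ⟨g (a, (i, s))⟩) i))⟩ :
        Bin) = _
      rw [ih]
  refine (PT.natRec (β := Bin) (z := fun a => ⟨z a⟩) (g := fun x => ⟨g x⟩) hn hz hg Q ?_).congr ?_
  · intro a i hi
    rw [key, sz_bin]
    exact hQ a i hi
  · intro a
    exact (key a (n a)).symm

/-- folds over bit lists with binary states -/
theorem BT.foldl {l : α → List Bool} {i : α → ℕ} {g : α × (Bool × Bin) → ℕ} (hl : PT l)
    (hi : BT i) (hg : BT g) (Q : ℕ[X])
    (hQ : ∀ a (l1 : List Bool), l1 <+: l a →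
      Nat.size (l1.foldl (fun s b => g (a, (b, ⟨s⟩))) (i a)) ≤ Q.eval (sz a)) :
    BT (fun a => (l a).foldl (fun s b => g (a, (b, ⟨s⟩))) (i a)) := by
  have key : ∀ a (l : List Bool) (x : ℕ), (l.foldl (fun s b => (⟨g (a, (b, s))⟩ : Bin)) ⟨x⟩ : Bin) =
      ⟨l.foldl (fun s b => g (a, (b, ⟨s⟩))) x⟩ := by
    intro a l
    induction l with
    | nil => intro x; rfl
    | cons b l ih => intro x; simp only [List.foldl_cons]; rw [ih]
  refine (PT.foldl (β := Bin) (i := fun a => ⟨i a⟩) (g := fun x => ⟨g x⟩) hl hi hg Q ?_).congr ?_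
  · intro a l1 h
    rw [key, sz_bin]
    exact hQ a l1 h
  · intro a
    exact (key a (l a) (i a)).symm

end Pool.Agent.PRT
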