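import Pool.Agent.PRT.GMain
import Pool.Agent.PRT.AN7

/-! # The list is good -/

set_option autoImplicit false

namespace Pool.Agent.PRT

open Finset

/-- `s ^ 3 < S` for large `n`, `s = size n`, `n ≤ S s` -/
theorem size_facts : ∃ n0 : ℕ, ∀ n N : ℕ, n0 ≤ n → n ≤ Nat.size N * Nat.size n →
    n * (2 * (2 ^ (n / (2 * Nat.size n) + 1))) ≤ N ∧ 2 ^ (n / Nat.size n) ≤ N * N := by
  obtain ⟨j0, hj⟩ := PrimRoot.exists_pow_lt 3
  refine ⟨2 ^ (j0 + 5), fun n N hn hN => ?_⟩
  obtain ⟨s, hs⟩ : ∃ s, s = Nat.size n := ⟨_, rfl⟩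
  obtain ⟨S, hS⟩ : ∃ S, S = Nat.size N := ⟨_, rfl⟩
  rw [← hs, ← hS] at hN
  rw [← hs]
  have hs5 : j0 + 5 < s := by rw [hs]; exact Nat.lt_size.2 hn
  have h1 := hj (s - 1) (by omega)
  rw [Nat.sub_add_cancel (by omega)] at h1
  have h2 : 2 ^ (s - 1) ≤ n := by
    have : s - 1 < Nat.size n := by omega
    exact Nat.lt_size.1 this
  have h3 : 2 * s * (s + 3) ≤ n := by
    have : 2 * s * (s + 3) ≤ s ^ 3 := by
      have h5 : 5 ≤ s := by omega
      nlinarith [Nat.mul_le_mul_left (s * s) h5, Nat.mul_le_mul_left s h5]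
    omega
  have hs0 : 0 < s := by omega
  obtain ⟨q, hq⟩ : ∃ q, q = n / (2 * s) := ⟨_, rfl⟩
  rw [← hq]
  have h4 : 2 * s * q ≤ n := by rw [hq]; exact Nat.mul_div_le _ _
  have h5 : q + s + 3 ≤ S := by
    have h6 : 2 * s * (q + s + 3) ≤ 2 * s * S := by
      calc 2 * s * (q + s + 3) = 2 * s * q + 2 * s * (s + 3) := by ring
        _ ≤ n + n := Nat.add_le_add h4 h3
        _ ≤ S * s + S * s := Nat.add_le_add hN hN
        _ = 2 * s * S := by ring
    exact Nat.le_of_mul_le_mul_left h6 (by omega)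
  have hNS : 2 ^ (S - 1) ≤ N := by
    have : S - 1 < Nat.size N := by omega
    exact Nat.lt_size.1 this
  constructor
  · have h6 : n ≤ 2 ^ s := by rw [hs]; exact (Nat.lt_size_self n).le
    calc n * (2 * 2 ^ (q + 1)) ≤ 2 ^ s * (2 * 2 ^ (q + 1)) := Nat.mul_le_mul_right _ h6
      _ = 2 ^ (s + q + 2) := by rw [pow_add 2 (s + q) 2, pow_add 2 s q, pow_succ]; ring
      _ ≤ 2 ^ (S - 1) := Nat.pow_le_pow_right (by norm_num) (by omega)
      _ ≤ N := hNS
  · have h6 : n / s ≤ S := by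
      calc n / s ≤ S * s / s := Nat.div_le_div_right hN
        _ = S := Nat.mul_div_cancel _ hs0
    calc 2 ^ (n / s) ≤ 2 ^ S := Nat.pow_le_pow_right (by norm_num) h6
      _ ≤ 2 ^ ((S - 1) + (S - 1)) := Nat.pow_le_pow_right (by norm_num) (by omega)
      _ = 2 ^ (S - 1) * 2 ^ (S - 1) := pow_add _ _ _
      _ ≤ N * N := Nat.mul_le_mul hNS hNS

/-- the group of all generators is everything at the end of the search -/
theorem outH_good : ∃ p0 : ℕ, ∀ (p : ℕ) [Fact p.Prime], p0 ≤ p →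
    ∀ (t : ℕ → ℕ) (p0' : ℕ), p0' ≤ p →
      Most (2 ^ (Nat.size p / (2 * Nat.size (Nat.size p)) + 1))
        (outH p0' t p (sN p (Nat.size p)).1) (fun x => orderOf (x : ZMod p) = p - 1) ∧
      ((∀ q q' : ℕ, q.Prime → q'.Prime → q ∣ p - 1 → q' ∣ p - 1 →
        2 ^ (Nat.size p / Nat.size (Nat.size p)) < q →
        2 ^ (Nat.size p / Nat.size (Nat.size p)) < q' → q = q') →
        ∀ x ∈ (outH p0' t p (sN p (Nat.size p)).1).head?, orderOf (x : ZMod p) = p - 1) := by
  obtain ⟨p1, h1⟩ := search_good (1 / 2) (by norm_num)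
  obtain ⟨p2, h2⟩ := index_lt_sq
  obtain ⟨n0, h3⟩ := size_facts
  refine ⟨max (max p1 p2) (max (2 ^ n0) 17), fun p hpf hp t p0' hp0' => ?_⟩
  have hpp : p.Prime := hpf.out
  have hp1 : p1 ≤ p := le_trans (le_trans (le_max_left _ _) (le_max_left _ _)) hp
  have hp2 : p2 ≤ p := le_trans (le_trans (le_max_right _ _) (le_max_left _ _)) hp
  have hpn : 2 ^ n0 ≤ p := le_trans (le_trans (le_max_left _ _) (le_max_right _ _)) hp
  have hp17 : 17 ≤ p := le_trans (le_trans (le_max_right _ _) (le_max_right _ _)) hp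
  obtain ⟨N, hN, hN1, hstop, hle⟩ := h1 p hp1
  rw [hN]
  have hn : n0 ≤ Nat.size p := (Nat.lt_size.2 hpn).le
  unfold stopC at hstop
  rw [Bool.and_eq_true, decide_eq_true_eq] at hstop
  obtain ⟨hsz, hok⟩ := hstop
  obtain ⟨hs1, hs2⟩ := h3 _ N hn hsz
  -- N < p
  have hNp : N < p := by
    have hp17' : (17 : ℝ) ≤ p := by exact_mod_cast hp17
    have hsq : ((p : ℝ) ^ (1 / 2 : ℝ)) ^ 2 = p := by
      rw [← Real.rpow_natCast, ← Real.rpow_mul (by positivity)]
      norm_num
    have hpos : 0 ≤ (p : ℝ) ^ (1 / 2 : ℝ) := by positivity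
    have h4 : (4 : ℝ) < (p : ℝ) ^ (1 / 2 : ℝ) := by nlinarith
    have h5 : (N : ℝ) < p := by
      calc (N : ℝ) ≤ 4 * (p : ℝ) ^ (1 / 2 : ℝ) := hle
        _ < (p : ℝ) ^ (1 / 2 : ℝ) * (p : ℝ) ^ (1 / 2 : ℝ) := by nlinarith
        _ = p := by rw [← pow_two, hsq]
    exact_mod_cast h5
  have hidx := h2 p hp2 N hNp hsz
  have hB : 1 ≤ N + N * N := by omega
  have hcast : ∀ i ∈ Icc 1 (N + N * N), ((gC p N i : ℕ) : ZMod p) = (toU p (gC p N i) : ZMod p) :=
    fun i _ => gC_cast p N i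
  have hokI := okC_index p (a := fun i => toU p (gC p N i)) hB hcast hok
  -- the group of all generators
  have htop : PrimRoot.genSub (fun i => toU p (gC p N i)) (N + N * N) = ⊤ := by
    rw [← Subgroup.index_eq_one]
    by_contra hne
    obtain ⟨q, hq, hqd⟩ := Nat.exists_prime_and_dvd hne
    have h4 : (PrimRoot.genSub (fun i => toU p (gC p N i)) (N + N * N)).index ≤
        (PrimRoot.genSub (aU p) N).index := by
      have h5 := Subgroup.index_dvd_of_le (genSub_le_gC p N)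
      exact Nat.le_of_dvd (Nat.pos_of_ne_zero Subgroup.index_ne_zero_of_finite) h5
    have h6 : q ≤ (PrimRoot.genSub (fun i => toU p (gC p N i)) (N + N * N)).index :=
      Nat.le_of_dvd (Nat.pos_of_ne_zero Subgroup.index_ne_zero_of_finite) hqd
    exact hokI q hq (by omega) hqd
  have hout : outH p0' t p N = rootN p (gC p N) (N + N * N) (N * N) ::
      candList p (gC p N) (N + N * N) (rn p) N (N * N) (N * N) := by
    unfold outH
    rw [if_neg (by omega)]
  rw [hout]
  have hNN : 1 ≤ N * N := Nat.mul_pos hN1 hN1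
  constructor
  · have hmost := most_cand_two p (a := fun i => toU p (gC p N i)) (a' := aU p) hB hcast
      (fun i _ => rn_cast p i) (M := 2 * 2 ^ (Nat.size p / (2 * Nat.size (Nat.size p)) + 1))
      (R := N * N) (T := N * N) hNN le_rfl
      (by
        rw [mul_assoc]
        exact Nat.mul_le_mul_left _ hs1)
      (fun q hq _ => by rw [htop, Subgroup.index_top]; exact hq.one_lt.not_ge ∘ Nat.le_of_dvd one_pos)
      (fun q hq hqR hqd => by
        have := Nat.le_of_dvd (Nat.pos_of_ne_zero Subgroup.index_ne_zero_of_finite) hqd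
        omega)
    have hmost2 : Most (2 * 2 ^ (Nat.size p / (2 * Nat.size (Nat.size p)) + 1))
        (candList p (gC p N) (N + N * N) (rn p) N (N * N) (N * N))
        (fun x => orderOf (x : ZMod p) = p - 1) := by
      refine hmost.mono ?_
      rintro x _ ⟨u, hxu, hu⟩
      rw [hxu, orderOf_units, hu]
    refine hmost2.cons _ ?_
    have hlen : (candList p (gC p N) (N + N * N) (rn p) N (N * N) (N * N)).length = N * N := by
      unfold candList
      rw [List.length_map, List.length_range]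
    rw [hlen]
    have hn1 : 1 ≤ Nat.size p := Nat.size_pos.2 hpp.pos
    calc 2 * 2 ^ (Nat.size p / (2 * Nat.size (Nat.size p)) + 1)
        = 1 * (2 * 2 ^ (Nat.size p / (2 * Nat.size (Nat.size p)) + 1)) := (one_mul _).symm
      _ ≤ Nat.size p * (2 * 2 ^ (Nat.size p / (2 * Nat.size (Nat.size p)) + 1)) :=
          Nat.mul_le_mul_right _ hn1
      _ ≤ N := hs1
      _ = N * 1 := (mul_one _).symm
      _ ≤ N * N := Nat.mul_le_mul_left _ hN1
  · intro hbig x hx
    rw [List.head?_cons, Option.mem_some_iff] at hx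
    rw [← hx]
    obtain ⟨u, hxu, hu⟩ := rootN_gen p (a := fun i => toU p (gC p N i)) (R := N * N) hB hcast
      (fun q q' hq hq' hqp hqp' h4 h5 => hbig q q' hq hq' hqp hqp' (by omega) (by omega))
    have h6 := order_of_gen p hxu hu
    rwa [htop, Subgroup.index_top, mul_one] at h6

end Pool.Agent.PRT
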