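import Pool.Agent.PRT.GTime
import Pool.Agent.PRT.GPT4
import Pool.Agent.PRT.TCmach
import Pool.Agent.PRT.AN6b
import Pool.Agent.PRT.MainList
import Pool.Agent.PRT.AN5b
import Pool.Agent.PRT.APT4

/-! # The machine -/

set_option autoImplicit false

namespace Pool.Agent.PRT

open Pool.NPC Pool.NPC.Enc Pool.NPC.Tr Polynomial

/-- the output for the prime `p` and the end value `N` of the search: for `p < p0` a table; otherwise
first the residue `rootN`, then the candidates -/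
def outH (p0 : ℕ) (t : ℕ → ℕ) (p N : ℕ) : List ℕ :=
  if p < p0 then [t p] else
    rootN p (gC p N) (N + N * N) (N * N) ::
      candList p (gC p N) (N + N * N) (rn p) N (N * N) (N * N)

/-- the function of the machine -/
def funH (p0 : ℕ) (t : ℕ → ℕ) (p : Nat.Primes) : List ℕ :=
  outH p0 t p (sN p (Nat.size p)).1

theorem BT.cand_gC : BT (fun x : (List Bool × (ℕ × Bool)) × ℕ =>
    PRT.candN (PRT.bval x.1.1) (fun i => PRT.gC (PRT.bval x.1.1) x.1.2.1 i) (x.1.2.1 + x.1.2.1 * x.1.2.1)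
      (fun i => PRT.rn (PRT.bval x.1.1) i) x.1.2.1 (x.1.2.1 * x.1.2.1) (x.2 + 1)) := by
  have hp : BT (fun x : (List Bool × (ℕ × Bool)) × ℕ => PRT.bval x.1.1) :=
    BT.bval (PT.fst' (PT.fst' PT.id))
  have hN : PT (fun x : (List Bool × (ℕ × Bool)) × ℕ => x.1.2.1) :=
    PT.fst' (PT.snd' (PT.fst' PT.id))
  have hW := PT.mul hN hN
  have hg : BT (fun y : ((List Bool × (ℕ × Bool)) × ℕ) × ℕ =>
      PRT.gC (PRT.bval y.1.1.1) y.1.1.2.1 y.2) :=
    BT.gC (BT.bval (PT.fst' (PT.fst' (PT.fst' PT.id))))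
      (PT.fst' (PT.snd' (PT.fst' (PT.fst' PT.id)))) (PT.snd' PT.id)
  have hg' : BT (fun y : ((List Bool × (ℕ × Bool)) × ℕ) × ℕ =>
      PRT.rn (PRT.bval y.1.1.1) y.2) :=
    BT.rn (BT.bval (PT.fst' (PT.fst' (PT.fst' PT.id)))) (BT.ofUnary (PT.snd' PT.id))
  exact BT.candN (g := fun y : ((List Bool × (ℕ × Bool)) × ℕ) × ℕ =>
      PRT.gC (PRT.bval y.1.1.1) y.1.1.2.1 y.2)
    (g' := fun y : ((List Bool × (ℕ × Bool)) × ℕ) × ℕ => PRT.rn (PRT.bval y.1.1.1) y.2)
    hp hg (PT.add hN hW) hg' hN hW (BT.ofUnary (PT.succ PT.snd))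

theorem BT.root_gC : BT (fun x : List Bool × (ℕ × Bool) =>
    PRT.rootN (PRT.bval x.1) (fun i => PRT.gC (PRT.bval x.1) x.2.1 i) (x.2.1 + x.2.1 * x.2.1)
      (x.2.1 * x.2.1)) := by
  have hp : BT (fun x : List Bool × (ℕ × Bool) => PRT.bval x.1) := BT.bval (PT.fst' PT.id)
  have hN : PT (fun x : List Bool × (ℕ × Bool) => x.2.1) := PT.fst' (PT.snd' PT.id)
  have hW := PT.mul hN hN
  have hg : BT (fun y : (List Bool × (ℕ × Bool)) × ℕ =>
      PRT.gC (PRT.bval y.1.1) y.1.2.1 y.2) :=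
    BT.gC (BT.bval (PT.fst' (PT.fst' PT.id))) (PT.fst' (PT.snd' (PT.fst' PT.id)))
      (PT.snd' PT.id)
  exact BT.rootN (g := fun y : (List Bool × (ℕ × Bool)) × ℕ =>
      PRT.gC (PRT.bval y.1.1) y.1.2.1 y.2) hp hg (PT.add hN hW) hW

theorem PT.outH (p0 : ℕ) (t : ℕ → ℕ) : PT (fun x : List Bool × (ℕ × Bool) =>
    encList (outH p0 t (bval x.1) x.2.1)) := by
  have hp : BT (fun x : List Bool × (ℕ × Bool) => PRT.bval x.1) := BT.bval (PT.fst' PT.id)
  have hN : PT (fun x : List Bool × (ℕ × Bool) => x.2.1) := PT.fst' (PT.snd' PT.id)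
  have hW := PT.mul hN hN
  have hsmall := PT.enc1 (BT.table t p0 hp (BT.const 0))
  have hroot := PT.enc1 BT.root_gC
  have hcand := PT.encMap BT.cand_gC hW
  have hbig := PT.append hroot hcand
  refine (PT.ite (BT.lt hp (BT.const p0)) hsmall hbig).congr fun x => ?_
  by_cases h : bval x.1 < p0
  · rw [PRT.outH, if_pos h, if_pos h, if_pos h]
    simp [encList]
  · rw [PRT.outH, if_neg h, if_neg h, encList, List.flatMap_cons, candList]
    rfl

/-- the machine and its running time -/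
theorem machineH (p0 : ℕ) (t : ℕ → ℕ) :
    ∃ m : Turing.TM2ComputableInTime (fun p : Nat.Primes => Nat.bits p) encList (funH p0 t),
      Slow m.time := by
  have h1 : MC (fun l : List Bool => encList (outH p0 t (bval (srch l).1) (srch l).2.1))
      (fun l => (sN (bval l) l.length).1) :=
    MC.comp (g := fun x : List Bool × (ℕ × Bool) => encList (outH p0 t (bval x.1) x.2.1))
      (PT.outH p0 t) MC.srch
  obtain ⟨Q, m, hm⟩ := h1.machine (ea := fun p : Nat.Primes => Nat.bits p) (eb := encList)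
    (h := funH p0 t) (fun p => by
      rw [srch_eq]
      show encList (outH p0 t (bval (Nat.bits p)) (sN (bval (Nat.bits p)) (Nat.bits p).length).1) =
        encList (outH p0 t p (sN p (Nat.size p)).1)
      rw [bval_bits, Nat.size_eq_bits_len]) TT (fun p => by
      rw [bval_bits, Nat.size_eq_bits_len]
      exact le_TT p.2)
  exact ⟨m, (slow_TT.poly Q).mono hm⟩

end Pool.Agent.PRT
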