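import Pool.Agent.PRT.GS
import Pool.Agent.PRT.AN3

/-! # Meaning of `qj` -/

set_option autoImplicit false

namespace Pool.Agent.PRT

private theorem GN1_count (n : ℕ) :
    (List.range n).countP (fun m => decide m.Prime) = Nat.count Nat.Prime n := by
  rfl

private theorem GN1_range (N M : ℕ) (h : M ≤ N) :
    (List.range N).countP (fun n => decide (n < M)) = M := by
  obtain ⟨d, rfl⟩ := Nat.exists_eq_add_of_le h
  induction d with
  | zero =>
    rw [Nat.add_zero, List.countP_eq_length.2, List.length_range]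
    intro a ha
    simpa using ha
  | succ d ih =>
    rw [← Nat.add_assoc, List.range_succ, List.countP_append, ih (by omega)]
    simp

/-- `(List.range (n + 1)).countP Prime = Nat.count Nat.Prime (n + 1)`, and this is `≤ j` if and only if
`n < Nat.nth Nat.Prime j` (`Nat.lt_nth_iff_count_lt`, `Nat.count_le_iff_le_nth` or similar). -/
theorem qj_eq {N j : ℕ} (h : Nat.nth Nat.Prime j ≤ N) : qj N j = Nat.nth Nat.Prime j := by
  have h1 : ∀ n : ℕ, ((List.range (n + 1)).countP (fun m => decide m.Prime) ≤ j) ↔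
      n < Nat.nth Nat.Prime j := by
    intro n
    rw [GN1_count, Nat.count_le_iff_le_nth Nat.infinite_setOfPred_prime, Nat.succ_le_iff]
  unfold qj
  simp only [h1]
  exact GN1_range N _ h

/-- a residue as a unit (`1` if it is `0`) -/
noncomputable def toU (p : ℕ) [Fact p.Prime] (x : ℕ) : (ZMod p)ˣ :=
  if h : (x : ZMod p) ≠ 0 then Units.mk0 _ h else 1

theorem toU_val (p : ℕ) [Fact p.Prime] {x : ℕ} (h : (x : ZMod p) ≠ 0) :
    ((toU p x : (ZMod p)ˣ) : ZMod p) = x := by
  rw [toU, dif_pos h, Units.val_mk0]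

end Pool.Agent.PRT
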