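import Pool.Agent.PRT.GN1b

/-! # The numbers `d_j` and their square roots -/

set_option autoImplicit false

namespace Pool.Agent.PRT

/-- `sg z` enumerates the numbers `≤ k` different from `z - 1` -/
theorem sg_spec {z k j : ℕ} (hz : 1 ≤ z) (hz' : z ≤ k + 1) (hj : j < k) :
    sg z j ≤ k ∧ sg z j ≠ z - 1 := by
  unfold sg
  split_ifs <;> omega

theorem sg_inj {z i j : ℕ} (h : sg z i = sg z j) : i = j := by
  unfold sg at h
  split_ifs at h <;> omega

private theorem GN2_mem {G : Type*} [CommGroup G] [Finite G] [IsCyclic G] {x y : G} {n : ℕ}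
    (hn : orderOf y = n) (hx : x ^ n = 1) : x ∈ Subgroup.zpowers y := by
  classical
  cases nonempty_fintype G
  have hn0 : 0 < n := hn ▸ orderOf_pos y
  have h1 := IsCyclic.card_pow_eq_one_le (α := G) hn0
  have h2 : (Subgroup.zpowers y : Set G).toFinset ⊆ Finset.univ.filter (fun a => a ^ n = 1) := by
    intro b hb
    rw [Set.mem_toFinset] at hb
    obtain ⟨m, hm⟩ := Subgroup.mem_zpowers_iff.1 hb
    rw [Finset.mem_filter]
    refine ⟨Finset.mem_univ _, ?_⟩
    rw [← hm, ← zpow_natCast, ← zpow_mul, mul_comm, zpow_mul, zpow_natCast, ← hn,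
      pow_orderOf_eq_one, one_zpow]
  have h3 : (Subgroup.zpowers y : Set G).toFinset.card = n := by
    rw [Set.toFinset_card, ← hn, ← Nat.card_eq_fintype_card]
    exact Nat.card_zpowers y
  have h4 := Finset.eq_of_subset_of_card_le h2 (by rw [h3]; exact h1)
  have h5 : x ∈ Finset.univ.filter (fun a => a ^ n = 1) := by simp [hx]
  rw [← h4, Set.mem_toFinset] at h5
  exact h5

private theorem GN2_order (p : ℕ) [Fact p.Prime] {x : (ZMod p)ˣ} {e : ℕ}
    (h : orderOf x = 2 ^ (e + 1)) : x ^ (2 ^ e) = -1 := by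
  have h1 : (x ^ (2 ^ e)) ^ 2 = 1 := by
    rw [← pow_mul, ← pow_succ, ← h, pow_orderOf_eq_one]
  have h2 : x ^ (2 ^ e) ≠ 1 := by
    intro h1
    have h2 := orderOf_dvd_of_pow_eq_one h1
    rw [h, Nat.pow_dvd_pow_iff_le_right (by norm_num)] at h2
    omega
  have h3 : ((x ^ (2 ^ e) : (ZMod p)ˣ) : ZMod p) ^ 2 = 1 := by
    rw [← Units.val_pow_eq_pow_val, h1, Units.val_one]
  have h4 : (((x ^ (2 ^ e) : (ZMod p)ˣ) : ZMod p) - 1) *
      (((x ^ (2 ^ e) : (ZMod p)ˣ) : ZMod p) + 1) = 0 := by linear_combination h3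
  rcases (mul_eq_zero.1 h4).imp sub_eq_zero.1 eq_neg_of_add_eq_zero_left with h | h
  · exact absurd (Units.ext (by rw [h, Units.val_one])) h2
  · exact Units.ext (by rw [h, Units.val_neg, Units.val_one])

private theorem GN2_pow (p : ℕ) [Fact p.Prime] (x : (ZMod p)ˣ) :
    (x ^ PrimRoot.cofac (p - 1) 2) ^ (2 ^ Nat.size p) = 1 := by
  have hp : p.Prime := Fact.out
  have hN : p - 1 ≠ 0 := by have := hp.two_le; omega
  have hc : Nat.card (ZMod p)ˣ = p - 1 := by
    rw [Nat.card_eq_fintype_card, ZMod.card_units]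
  have h1 := PrimRoot.pow_cofac_pow x 2
  rw [hc] at h1
  have h2 : (p - 1).factorization 2 ≤ Nat.size p := by
    by_contra h
    push Not at h
    have h2 : 2 ^ Nat.size p ≤ 2 ^ (p - 1).factorization 2 :=
      Nat.pow_le_pow_right (by norm_num) h.le
    have h3 := Nat.ordProj_le 2 hN
    have h4 := Nat.lt_size_self p
    omega
  obtain ⟨m, hm⟩ := Nat.exists_eq_add_of_le h2
  rw [hm, pow_add, pow_mul, h1, one_pow]

private theorem GN2_mono {i k : ℕ} (h : i ≤ k) : Nat.nth Nat.Prime i ≤ Nat.nth Nat.Prime k :=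
  Nat.nth_monotone Nat.infinite_setOfPred_prime h

private theorem GN2_qj {N k i : ℕ} (hN : Nat.nth Nat.Prime k ≤ N) (h : i ≤ k) :
    qj N i = Nat.nth Nat.Prime i := qj_eq ((GN2_mono h).trans hN)

private theorem GN2_pz (p : ℕ) (N k : ℕ) : pz p N k ∈ Finset.Icc 1 (k + 1) :=
  io_mem p _ (by omega) 2

/-- All primes `q_0, ..., q_k` are smaller than `p` and at most `N`.  The element `zz` is the 2-part
`x` of the prime number `pz - 1`; its order `2 ^ fz` is the largest one (`io_adm`, `am_spec`,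
`ev_eq`).  If `ford < fz` for `q = q_(sg j)` then its 2-part lies in the group generated by the
square of `zz` (cyclic 2-group), otherwise the product of the two elements of order `2 ^ fz` does.
Then `sq_spec`. -/
theorem rj_sq (p : ℕ) [Fact p.Prime] {N k : ℕ} (hN : Nat.nth Nat.Prime k ≤ N)
    (hp : Nat.nth Nat.Prime k < p) {j : ℕ} (hj : j < k) :
    ((rj p N k j : ℕ) : ZMod p) ^ 2 = ((dj p N k j : ℕ) : ZMod p) := by
  have hpp : p.Prime := Fact.out
  have hp2 : p ≠ 2 := by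
    have h1 := GN2_mono (Nat.zero_le k)
    rw [Nat.nth_prime_zero_eq_two] at h1
    omega
  have hN0 : p - 1 ≠ 0 := by have := hpp.two_le; omega
  set g : ℕ → ℕ := fun i => qj N (i - 1) with hg
  set a : ℕ → (ZMod p)ˣ := fun i => toU p (Nat.nth Nat.Prime (i - 1)) with ha
  have hne : ∀ i, i ≤ k → ((Nat.nth Nat.Prime i : ℕ) : ZMod p) ≠ 0 := by
    intro i hi h0
    rw [ZMod.natCast_eq_zero_iff] at h0
    have h1 := Nat.le_of_dvd (Nat.prime_nth_prime i).pos h0
    have h2 := GN2_mono hi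
    omega
  have hB : 1 ≤ k + 1 := by omega
  have hga : ∀ i ∈ Finset.Icc 1 (k + 1), ((g i : ℕ) : ZMod p) = (a i : ZMod p) := by
    intro i hi
    rw [Finset.mem_Icc] at hi
    show ((qj N (i - 1) : ℕ) : ZMod p) = (toU p (Nat.nth Nat.Prime (i - 1)) : ZMod p)
    rw [toU_val p (hne _ (by omega)), GN2_qj hN (by omega)]
  have hι : pz p N k ∈ Finset.Icc 1 (k + 1) := GN2_pz p N k
  have hι' := Finset.mem_Icc.1 hι
  obtain ⟨hs1, hs2⟩ := sg_spec hι'.1 hι'.2 hj
  -- the unit zeta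
  set ζ : (ZMod p)ˣ := a (pz p N k) ^ PrimRoot.cofac (p - 1) 2 with hζ
  have hzz : ((zz p N k : ℕ) : ZMod p) = ζ := iel_cast p hB hga Nat.prime_two
  have hfz : 2 ^ fz p N k = orderOf ζ := by
    refine ev_eq p Nat.prime_two ζ hzz (GN2_pow p _)
  -- the unit x
  set x : (ZMod p)ˣ := toU p (Nat.nth Nat.Prime (sg (pz p N k) j)) with hx
  have hxv : (x : ZMod p) = ((Nat.nth Nat.Prime (sg (pz p N k) j) : ℕ) : ZMod p) :=
    toU_val p (hne _ hs1)
  have hq : qj N (sg (pz p N k) j) = Nat.nth Nat.Prime (sg (pz p N k) j) := GN2_qj hN hs1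
  have hq0 : qj N (pz p N k - 1) = Nat.nth Nat.Prime (pz p N k - 1) := GN2_qj hN (by omega)
  have hford : 2 ^ ford p (qj N (sg (pz p N k) j)) = orderOf (x ^ PrimRoot.cofac (p - 1) 2) := by
    refine ev_eq p Nat.prime_two _ ?_ (GN2_pow p _)
    rw [pmod_cast _ _ hpp.ne_zero, cf_eq hpp.two_le Nat.prime_two, hq, Units.val_pow_eq_pow_val,
      hxv]
  have hadm := io_adm p hB hga 2
  have h2mem : 2 ∈ PrimRoot.smallPrimes 2 (p - 1) := by
    rw [PrimRoot.mem_smallPrimes]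
    refine ⟨⟨Nat.prime_two, ?_, hN0⟩, le_rfl⟩
    have := hpp.eq_two_or_odd
    omega
  have hle : orderOf (x ^ PrimRoot.cofac (p - 1) 2) ≤ orderOf ζ := by
    have h1 := (hadm 2 h2mem).2 (sg (pz p N k) j + 1) (by rw [Finset.mem_Icc]; omega)
    exact h1
  have hle' : ford p (qj N (sg (pz p N k) j)) ≤ fz p N k := by
    rw [← hford, ← hfz] at hle
    exact (Nat.pow_le_pow_iff_right (by norm_num)).1 hle
  unfold rj
  by_cases hc : ford p (qj N (sg (pz p N k) j)) < fz p N k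
  · have hd : dj p N k j = Nat.nth Nat.Prime (sg (pz p N k) j) := by
      rw [dj, if_pos hc, hq]
    refine sq_spec p hp2 hzz (δ := x) (by rw [hd, hxv]) hfz.symm ?_
    obtain ⟨f, hf⟩ := Nat.exists_eq_succ_of_ne_zero (show fz p N k ≠ 0 by omega)
    rw [hf, Nat.succ_eq_add_one] at hc hfz
    have h3 : orderOf (ζ ^ 2) = 2 ^ f := by
      rw [orderOf_pow, ← hfz, Nat.gcd_eq_right (dvd_pow_self 2 (by omega)), pow_succ,
        Nat.mul_div_cancel _ (by norm_num)]
    refine GN2_mem h3 ?_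
    rw [← orderOf_dvd_iff_pow_eq_one, ← hford, Nat.pow_dvd_pow_iff_le_right (by norm_num)]
    omega
  · have hd : dj p N k j = Nat.nth Nat.Prime (sg (pz p N k) j) *
        Nat.nth Nat.Prime (pz p N k - 1) := by
      rw [dj, if_neg hc, hq, hq0]
    have hav : (a (pz p N k) : ZMod p) = ((Nat.nth Nat.Prime (pz p N k - 1) : ℕ) : ZMod p) :=
      toU_val p (hne _ (by omega))
    refine sq_spec p hp2 hzz (δ := x * a (pz p N k)) (by
      rw [hd, Units.val_mul, hxv, hav]; push_cast; rfl) hfz.symm ?_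
    have heq : ford p (qj N (sg (pz p N k) j)) = fz p N k := by omega
    rw [heq] at hford
    rw [mul_pow, ← hζ]
    rcases Nat.eq_zero_or_pos (fz p N k) with h0 | h0
    · rw [h0, pow_zero] at hfz hford
      rw [orderOf_eq_one_iff.1 hfz.symm, orderOf_eq_one_iff.1 hford.symm, mul_one]
      exact Subgroup.one_mem _
    · obtain ⟨f, hf⟩ := Nat.exists_eq_succ_of_ne_zero h0.ne'
      rw [hf, Nat.succ_eq_add_one] at hfz hford
      have h3 : orderOf (ζ ^ 2) = 2 ^ f := by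
        rw [orderOf_pow, ← hfz, Nat.gcd_eq_right (dvd_pow_self 2 (by omega)), pow_succ,
          Nat.mul_div_cancel _ (by norm_num)]
      refine GN2_mem h3 ?_
      rw [mul_pow, GN2_order p hfz.symm, GN2_order p hford.symm, neg_mul_neg, one_mul]

theorem dj_le (p : ℕ) {N k j : ℕ} (hN : Nat.nth Nat.Prime k ≤ N) (hj : j < k) :
    dj p N k j ≤ Nat.nth Nat.Prime k ^ 2 := by
  have hι := Finset.mem_Icc.1 (GN2_pz p N k)
  obtain ⟨hs1, -⟩ := sg_spec hι.1 hι.2 hj
  have h1 := GN2_mono hs1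
  have h2 : Nat.nth Nat.Prime (pz p N k - 1) ≤ Nat.nth Nat.Prime k := GN2_mono (by omega)
  have h3 := (Nat.prime_nth_prime k).one_lt
  rw [dj, GN2_qj hN hs1, GN2_qj hN (show pz p N k - 1 ≤ k by omega)]
  split_ifs
  · nlinarith
  · rw [pow_two]
    exact Nat.mul_le_mul h1 h2

/-- In the product the prime `q_(sg j)`, `j ∈ J`, occurs exactly once. -/
theorem dj_indep (p : ℕ) {N k : ℕ} (hN : Nat.nth Nat.Prime k ≤ N) (J : Finset (Fin k))
    (hJ : J.Nonempty) : ¬ IsSquare (∏ j ∈ J, dj p N k j) := by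
  classical
  obtain ⟨j0, hj0⟩ := hJ
  have hι := Finset.mem_Icc.1 (GN2_pz p N k)
  set z := pz p N k with hz
  have hinj : ∀ {i i' : ℕ}, Nat.nth Nat.Prime i = Nat.nth Nat.Prime i' → i = i' :=
    fun h => Nat.nth_injective Nat.infinite_setOfPred_prime h
  set q := Nat.nth Nat.Prime (sg z j0) with hq
  have hqp : q.Prime := Nat.prime_nth_prime _
  have hform : ∀ j : Fin k, ∃ c, (c = 1 ∨ c = Nat.nth Nat.Prime (z - 1)) ∧
      dj p N k j = Nat.nth Nat.Prime (sg z j) * c := by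
    intro j
    obtain ⟨hs1, -⟩ := sg_spec hι.1 hι.2 j.2
    rw [dj, ← hz, GN2_qj hN hs1, GN2_qj hN (show z - 1 ≤ k by omega)]
    split_ifs
    · exact ⟨1, Or.inl rfl, (mul_one _).symm⟩
    · exact ⟨_, Or.inr rfl, rfl⟩
  have hc : ∀ c, (c = 1 ∨ c = Nat.nth Nat.Prime (z - 1)) → ¬ q ∣ c := by
    rintro c (rfl | rfl)
    · exact hqp.one_lt.ne' ∘ Nat.dvd_one.1
    · intro h
      have h1 := (Nat.prime_dvd_prime_iff_eq hqp (Nat.prime_nth_prime _)).1 h
      exact (sg_spec hι.1 hι.2 j0.2).2 (hinj h1)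
  obtain ⟨c0, hc0, hd0⟩ := hform j0
  have hrest : ¬ q ∣ c0 * ∏ j ∈ J.erase j0, dj p N k j := by
    intro h
    rcases hqp.dvd_mul.1 h with h | h
    · exact hc c0 hc0 h
    · obtain ⟨j, hj, hdv⟩ := (Prime.dvd_finset_prod_iff hqp.prime _).1 h
      obtain ⟨c, hc1, hd⟩ := hform j
      rw [hd] at hdv
      rcases hqp.dvd_mul.1 hdv with h | h
      · have h1 := (Nat.prime_dvd_prime_iff_eq hqp (Nat.prime_nth_prime _)).1 h
        have h2 := sg_inj (hinj h1)
        exact (Finset.ne_of_mem_erase hj) (Fin.ext h2.symm)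
      · exact hc c hc1 h
  have hprod : ∏ j ∈ J, dj p N k j = q * (c0 * ∏ j ∈ J.erase j0, dj p N k j) := by
    rw [← Finset.mul_prod_erase J _ hj0, hd0, mul_assoc]
  rintro ⟨c, hcc⟩
  rw [hprod] at hcc
  have h1 : q ∣ c := by
    have : q ∣ c * c := ⟨_, hcc.symm⟩
    rcases hqp.dvd_mul.1 this with h | h <;> exact h
  obtain ⟨e, he⟩ := h1
  have h2 : c0 * ∏ j ∈ J.erase j0, dj p N k j = q * (e * e) := by
    apply Nat.eq_of_mul_eq_mul_left hqp.pos
    rw [hcc, he]
    ring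
  exact hrest ⟨_, h2⟩

end Pool.Agent.PRT
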