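import Pool.Agent.PRT.GN1

/-! # Meaning of `EE`, `dg`, `pr`, `sEl` -/

set_option autoImplicit false

namespace Pool.Agent.PRT

private theorem GN3_count (P : ℕ → Prop) [DecidablePred P] (hP : ∀ e e', e ≤ e' → P e' → P e)
    (N : ℕ) : ∀ e, e < (List.range N).countP (fun e => decide (P e)) ↔ e < N ∧ P e := by
  induction N with
  | zero => intro e; simp
  | succ N ih =>
    intro e
    rw [List.range_succ, List.countP_append, List.countP_singleton]
    by_cases h : P N
    · have h1 : (List.range N).countP (fun e => decide (P e)) = N := by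
        apply le_antisymm
        · exact (List.countP_le_length).trans (by simp)
        · by_contra h2
          push Not at h2
          have h3 := (ih ((List.range N).countP (fun e => decide (P e)))).2
            ⟨h2, hP _ _ h2.le h⟩
          exact lt_irrefl _ h3
      rw [h1]
      simp only [h, decide_true, if_true]
      constructor
      · intro h2
        exact ⟨h2, hP _ _ (by omega) h⟩
      · exact fun h2 => h2.1
    · simp only [h, decide_false, Bool.false_eq_true, if_false, add_zero]
      rw [ih e]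
      constructor
      · rintro ⟨h1, h2⟩
        exact ⟨by omega, h2⟩
      · rintro ⟨h1, h2⟩
        refine ⟨?_, h2⟩
        rcases Nat.lt_succ_iff_lt_or_eq.1 h1 with h3 | h3
        · exact h3
        · rw [h3] at h2
          exact absurd h2 h

private theorem GN3_EE {N k : ℕ} (e : ℕ) :
    e < EE N k ↔ e < N ∧ (2 * (e + 1) + 1) ^ nk N k ≤ N := by
  unfold EE
  refine GN3_count (fun e => (2 * (e + 1) + 1) ^ nk N k ≤ N) ?_ N e
  intro e e' h h'
  exact (Nat.pow_le_pow_left (by omega) _).trans h'

theorem EE_pow_le {N k : ℕ} (hN : 1 ≤ N) : (2 * EE N k + 1) ^ nk N k ≤ N := by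
  rcases Nat.eq_zero_or_pos (EE N k) with h | h
  · rw [h]
    simpa using hN
  · have h1 := ((GN3_EE (N := N) (k := k) (EE N k - 1)).1 (by omega)).2
    rwa [Nat.sub_add_cancel h] at h1

/-- `E ≤ N` follows from the hypothesis and `2 ^ k ≥ 1`; the predicate in `EE` is decreasing. -/
theorem le_EE {N k E : ℕ} (hk : 2 ^ k ≤ N) (h : (2 * E + 1) ^ 2 ^ k ≤ N) : E ≤ EE N k := by
  rcases Nat.eq_zero_or_pos E with h0 | h0
  · omega
  · obtain ⟨e, rfl⟩ : ∃ e, E = e + 1 := ⟨E - 1, by omega⟩
    apply Nat.succ_le_of_lt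
    rw [GN3_EE]
    have h1 : nk N k = 2 ^ k := min_eq_right hk
    rw [h1]
    refine ⟨?_, h⟩
    have h2 : 2 * (e + 1) + 1 ≤ (2 * (e + 1) + 1) ^ 2 ^ k :=
      Nat.le_self_pow (by positivity) _
    omega

/-- numbers with given digits -/
theorem exists_digits (b n : ℕ) (a : ℕ → ℕ) (h : ∀ J < n, a J < b) :
    ∃ s < b ^ n, ∀ J < n, s / b ^ J % b = a J := by
  induction n generalizing a with
  | zero => exact ⟨0, by simp, by simp⟩
  | succ n ih =>
    obtain ⟨s, hs, hd⟩ := ih (fun J => a (J + 1)) (fun J hJ => h _ (by omega))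
    have h0 := h 0 (by omega)
    have hb : 0 < b := by omega
    refine ⟨a 0 + b * s, ?_, ?_⟩
    · calc a 0 + b * s < b + b * s := by omega
        _ = b * (s + 1) := by ring
        _ ≤ b * b ^ n := Nat.mul_le_mul_left _ hs
        _ = b ^ (n + 1) := by ring
    · intro J hJ
      rcases Nat.eq_zero_or_pos J with h1 | h1
      · rw [h1, pow_zero, Nat.div_one, Nat.add_mul_mod_self_left, Nat.mod_eq_of_lt h0]
      · obtain ⟨J', rfl⟩ : ∃ J', J = J' + 1 := ⟨J - 1, by omega⟩
        have h2 : (a 0 + b * s) / b = s := by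
          rw [Nat.add_mul_div_left _ _ hb, Nat.div_eq_of_lt h0, zero_add]
        rw [pow_succ', ← Nat.div_div_eq_div_mul, h2]
        exact hd J' (by omega)

theorem pr_cast (p : ℕ) [Fact p.Prime] (N k J : ℕ) : ((pr p N k J : ℕ) : ZMod p) =
    ∏ j ∈ (Finset.range k).filter (fun j => J.testBit j = true), ((rj p N k j : ℕ) : ZMod p) := by
  have hp : p.Prime := Fact.out
  set F : ℕ → ℕ := fun m => Nat.rec (motive := fun _ => ℕ) 1
    (fun j acc => if J.testBit j then mmod acc (rj p N k j) p else acc) m with hF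
  have key : ∀ m, ((F m : ℕ) : ZMod p) =
      ∏ j ∈ (Finset.range m).filter (fun j => J.testBit j = true),
        ((rj p N k j : ℕ) : ZMod p) := by
    intro m
    induction m with
    | zero => simp [hF]
    | succ m ih =>
      have hs : F (m + 1) = if J.testBit m then mmod (F m) (rj p N k m) p else F m := rfl
      rw [hs, Finset.range_add_one, Finset.filter_insert]
      by_cases hb : J.testBit m = true
      · rw [if_pos hb, if_pos hb, Finset.prod_insert (by simp), mmod_cast _ _ hp.ne_zero, ih,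
          mul_comm]
      · rw [if_neg hb, if_neg hb, ih]
  exact key k

private theorem GN3_mod_lt {a b p : ℕ} (hp : 0 < p) : mmod a b p < p := by
  unfold mmod
  rw [if_neg hp.ne']
  exact Nat.mod_lt _ hp

theorem sEl_cast (p : ℕ) [Fact p.Prime] (N k s : ℕ) : ((sEl p N k s : ℕ) : ZMod p) =
    ∑ J ∈ Finset.range (nk N k),
      (((dg N k s J : ℕ) : ZMod p) - ((EE N k : ℕ) : ZMod p)) * ((pr p N k J : ℕ) : ZMod p) := by
  have hp : p.Prime := Fact.out
  set F : ℕ → ℕ := fun m => Nat.rec (motive := fun _ => ℕ) 0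
    (fun J acc => mmod 1 (acc + (dg N k s J + EE N k * (p - 1)) * pr p N k J) p) m with hF
  have hp1 : ((p - 1 : ℕ) : ZMod p) = -1 := by
    rw [Nat.cast_sub hp.one_lt.le]
    simp
  have key : ∀ m, ((F m : ℕ) : ZMod p) = ∑ J ∈ Finset.range m,
      (((dg N k s J : ℕ) : ZMod p) - ((EE N k : ℕ) : ZMod p)) * ((pr p N k J : ℕ) : ZMod p) := by
    intro m
    induction m with
    | zero => simp [hF]
    | succ m ih =>
      have hs : F (m + 1) = mmod 1 (F m + (dg N k s m + EE N k * (p - 1)) * pr p N k m) p := rfl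
      rw [hs, Finset.sum_range_succ, mmod_cast _ _ hp.ne_zero, ← ih]
      push_cast
      rw [hp1]
      ring
  exact key (nk N k)

theorem sEl_lt (p : ℕ) [Fact p.Prime] (N k s : ℕ) : sEl p N k s < p := by
  have hp : p.Prime := Fact.out
  unfold sEl
  rcases Nat.eq_zero_or_pos (nk N k) with h | h
  · rw [h]
    exact hp.pos
  · obtain ⟨m, hm⟩ : ∃ m, nk N k = m + 1 := ⟨nk N k - 1, by omega⟩
    rw [hm]
    exact GN3_mod_lt hp.pos

private theorem GN3_bij (k : ℕ) : Function.Bijective
    (fun J : Fin (2 ^ k) => Finset.univ.filter (fun j : Fin k => (J : ℕ).testBit j = true)) := by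
  rw [Fintype.bijective_iff_injective_and_card]
  constructor
  · intro J J' h
    apply Fin.ext
    apply Nat.eq_of_testBit_eq
    intro i
    rcases lt_or_ge i k with hi | hi
    · have h1 := congrArg (fun S : Finset (Fin k) => (⟨i, hi⟩ : Fin k) ∈ S) h
      simp only [Finset.mem_filter, Finset.mem_univ, true_and, eq_iff_iff] at h1
      exact Bool.eq_iff_iff.2 h1
    · rw [Nat.testBit_lt_two_pow (lt_of_lt_of_le J.2 (Nat.pow_le_pow_right (by norm_num) hi)),
        Nat.testBit_lt_two_pow (lt_of_lt_of_le J'.2 (Nat.pow_le_pow_right (by norm_num) hi))]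
  · rw [Fintype.card_fin, Fintype.card_finset, Fintype.card_fin]

/-- Every integral combination with coefficients `≤ EE` in absolute value is an element of level
`k`.  The numbers `J < 2 ^ k` correspond to the subsets of `Fin k` by their binary digits;
`exists_digits` with `b = 2 EE + 1`, `a J = coefficient + EE`. -/
theorem exists_sEl (p : ℕ) [Fact p.Prime] {N k : ℕ} (hk : 2 ^ k ≤ N) (a : Finset (Fin k) → ℤ)
    (ha : ∀ J, |a J| ≤ (EE N k : ℤ)) : ∃ s < N, ((sEl p N k s : ℕ) : ZMod p) =
      ∑ J : Finset (Fin k), (a J : ZMod p) * ∏ j ∈ J, ((rj p N k j : ℕ) : ZMod p) := by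
  classical
  have hN : 1 ≤ N := le_trans (Nat.one_le_two_pow) hk
  have hnk : nk N k = 2 ^ k := min_eq_right hk
  set S : ℕ → Finset (Fin k) :=
    fun J => Finset.univ.filter (fun j : Fin k => J.testBit j = true) with hS
  obtain ⟨s, hs, hd⟩ := exists_digits (2 * EE N k + 1) (nk N k)
    (fun J => (a (S J) + (EE N k : ℤ)).toNat) (by
      intro J _
      have h1 := abs_le.1 (ha (S J))
      omega)
  refine ⟨s, hs.trans_le (EE_pow_le hN), ?_⟩
  rw [sEl_cast, hnk]
  have h2 : ∀ J ∈ Finset.range (2 ^ k), (((dg N k s J : ℕ) : ZMod p) - ((EE N k : ℕ) : ZMod p)) *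
      ((pr p N k J : ℕ) : ZMod p) =
      (a (S J) : ZMod p) * ∏ j ∈ S J, ((rj p N k j : ℕ) : ZMod p) := by
    intro J hJ
    rw [Finset.mem_range] at hJ
    have h3 : dg N k s J = (a (S J) + (EE N k : ℤ)).toNat := hd J (by rw [hnk]; exact hJ)
    have h4 : ((dg N k s J : ℕ) : ZMod p) - ((EE N k : ℕ) : ZMod p) = (a (S J) : ZMod p) := by
      have h5 : ((dg N k s J : ℕ) : ℤ) = a (S J) + (EE N k : ℤ) := by
        rw [h3]
        have h1 := abs_le.1 (ha (S J))
        omega
      have h6 := congrArg (fun t : ℤ => (t : ZMod p)) h5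
      simp only [Int.cast_natCast, Int.cast_add] at h6
      rw [h6]
      ring
    rw [h4, pr_cast]
    congr 1
    rw [hS, Finset.prod_filter, Finset.prod_filter, Finset.prod_range]
  rw [Finset.sum_congr rfl h2, Finset.sum_range]
  exact Fintype.sum_bijective _ (GN3_bij k) _ _ (fun J => rfl)

end Pool.Agent.PRT
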