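import Pool.Agent.MP_18a8a6_lc.Quant
import Pool.Agent.PRT.AN4

/-! # An index bound -/

set_option autoImplicit false

namespace Pool.Agent.PRT

private theorem GN6_key (k : ℕ) : ∃ s0 : ℕ, ∀ n S : ℕ, s0 ≤ Nat.size n → n ≤ S * Nat.size n →
    Nat.size n ^ k < S := by
  obtain ⟨j0, hj⟩ := PrimRoot.exists_pow_lt (k + 1)
  refine ⟨j0 + 1, fun n S hs hn => ?_⟩
  obtain ⟨s, hsd⟩ : ∃ s, s = Nat.size n := ⟨_, rfl⟩
  rw [← hsd] at hs hn ⊢
  have h1 := hj (s - 1) (by omega)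
  rw [Nat.sub_add_cancel (by omega)] at h1
  have h2 : 2 ^ (s - 1) ≤ n := Nat.lt_size.1 (by omega)
  have h3 : s ^ k * s < S * s := by
    rw [← pow_succ]
    omega
  exact Nat.lt_of_mul_lt_mul_right h3

private theorem GN6_two_pow_le {N : ℕ} (h : 1 ≤ Nat.size N) : 2 ^ (Nat.size N - 1) ≤ N :=
  Nat.lt_size.1 (by omega)

/-- `N ≥ 2 ^ (n / size n - 1)` is much larger than every power of `n`. -/
theorem pow_size_lt (m : ℕ) : ∃ n0 : ℕ, ∀ n N : ℕ, n0 ≤ n → n ≤ Nat.size N * Nat.size n →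
    n ^ m < N := by
  obtain ⟨s0, hk⟩ := GN6_key 2
  refine ⟨2 ^ (s0 + m + 2), fun n N hn hN => ?_⟩
  obtain ⟨s, hsd⟩ : ∃ s, s = Nat.size n := ⟨_, rfl⟩
  have hs : s0 + m + 2 < s := by rw [hsd]; exact Nat.lt_size.2 hn
  have h1 := hk n (Nat.size N) (by omega) hN
  rw [← hsd] at h1
  have h2 : s * m + 2 ≤ Nat.size N - 1 := by
    have h3 : s * (m + 2) ≤ s ^ 2 := by
      rw [pow_two]; exact Nat.mul_le_mul_left _ (by omega)
    have h4 : s * (m + 2) = s * m + s * 2 := by ring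
    omega
  have h5 : n < 2 ^ s := by rw [hsd]; exact Nat.lt_size_self n
  calc n ^ m ≤ (2 ^ s) ^ m := Nat.pow_le_pow_left h5.le m
    _ = 2 ^ (s * m) := (pow_mul 2 s m).symm
    _ < 2 ^ (Nat.size N - 1) := Nat.pow_lt_pow_right (by norm_num) (by omega)
    _ ≤ N := GN6_two_pow_le (by omega)

/-- The index of the group generated by `-1, 2, ..., N` is less than `N ^ 2`, if
`n ≤ size N * size n`, `n = size p`.  Proof: `PrimRoot.card_ge_pow` with `B = N`, `u = Nat.log N (p-1)`,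
`M = N / (4 n)`: the group has at least `M ^ u` elements, and `p ≤ N ^ (u + 1)`, `N < 8 n M`, so the
index is less than `N ^ (u + 1) / M ^ u ≤ N (8 n) ^ u`; `u ≤ n / (size N - 1)` and
`size N ≥ n / size n`, so `u ≤ 2 size n` and `(8 n) ^ u ≤ 2 ^ ((3 + size n) (2 size n)) < N` for
large `n`. -/
theorem index_lt_sq : ∃ p0 : ℕ, ∀ (p : ℕ) [Fact p.Prime], p0 ≤ p → ∀ N : ℕ, N < p →
    Nat.size p ≤ Nat.size N * Nat.size (Nat.size p) →
      (PrimRoot.genSub (aU p) N).index < N * N := by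
  obtain ⟨s0, hk⟩ := GN6_key 3
  obtain ⟨n0, hn0⟩ := pow_size_lt 2
  refine ⟨2 ^ (2 ^ (s0 + 5) + n0 + 8), fun p hpf hp N hNp hN => ?_⟩
  have hpp : p.Prime := hpf.out
  obtain ⟨n, hn⟩ : ∃ n, n = Nat.size p := ⟨_, rfl⟩
  obtain ⟨s, hs⟩ : ∃ s, s = Nat.size n := ⟨_, rfl⟩
  obtain ⟨S, hS⟩ : ∃ S, S = Nat.size N := ⟨_, rfl⟩
  rw [← hn, ← hS] at hN
  have hnlt : 2 ^ (s0 + 5) + n0 + 8 < n := by rw [hn]; exact Nat.lt_size.2 hp
  have hn8 : 8 < n ∧ n0 ≤ n ∧ 2 ^ (s0 + 5) ≤ n := by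
    refine ⟨?_, ?_, ?_⟩
    · exact lt_of_le_of_lt (Nat.le_add_left _ _) hnlt
    · exact le_trans (le_trans (Nat.le_add_left _ _) (Nat.le_add_right _ _)) hnlt.le
    · exact le_trans (le_trans (Nat.le_add_right _ _) (Nat.le_add_right _ _)) hnlt.le
  obtain ⟨hn8, hnn0, hns⟩ := hn8
  have hs5 : s0 + 5 < s := by rw [hs]; exact Nat.lt_size.2 hns
  have h1 : s ^ 3 < S := by
    rw [hs]
    exact hk n S (by omega) (by rw [← hs] at hN ⊢; exact hN)
  have hsq : n ^ 2 < N := hn0 n N hnn0 (by rw [← hS]; exact hN)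
  have hN9 : 4 * n ≤ N := by nlinarith
  have hN6 : 6 ≤ N := by omega
  obtain ⟨M, hM⟩ : ∃ M, M = N / (4 * n) := ⟨_, rfl⟩
  obtain ⟨u, hu⟩ : ∃ u, u = Nat.log N (p - 1) := ⟨_, rfl⟩
  have hp2 := hpp.two_le
  have hM1 : 1 ≤ M := by
    rw [hM]; exact (Nat.one_le_div_iff (by omega)).2 hN9
  have hM4 : 4 * n * M ≤ N := by rw [hM]; exact Nat.mul_div_le _ _
  have hNM : N ≤ 8 * n * M := by
    have h2 : N < 4 * n * (M + 1) := by
      rw [hM]; exact Nat.lt_mul_div_succ N (by omega)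
    nlinarith
  have hu0 : 0 < u := by rw [hu]; exact Nat.log_pos (by omega) (by omega)
  have hu1 : N ^ u ≤ p - 1 := by rw [hu]; exact Nat.pow_log_le_self N (by omega)
  have hu2 : p - 1 < N ^ (u + 1) := by rw [hu]; exact Nat.lt_pow_succ_log_self (by omega) _
  have hpn : p < 2 ^ n := by rw [hn]; exact Nat.lt_size_self p
  have hcard := PrimRoot.card_ge_pow p hN6 hNp (by omega) hpn hM4 hM1 hu0
  -- u is small
  have hS1 : 1 ≤ S := by omega
  have hNS : 2 ^ (S - 1) ≤ N := by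
    rw [hS]; exact GN6_two_pow_le (by omega)
  have hus : u < 2 * s := by
    have h2 : 2 ^ ((S - 1) * u) < 2 ^ n := by
      calc 2 ^ ((S - 1) * u) = (2 ^ (S - 1)) ^ u := pow_mul 2 _ _
        _ ≤ N ^ u := Nat.pow_le_pow_left hNS u
        _ < 2 ^ n := by omega
    have h3 : (S - 1) * u < n := (Nat.pow_lt_pow_iff_right (by norm_num)).1 h2
    have h4 : S ≤ 2 * (S - 1) := by
      have : 2 ≤ S := by
        have : 1 ≤ s ^ 3 := Nat.one_le_pow _ _ (by omega)
        omega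
      omega
    have h5 : n ≤ 2 * (S - 1) * s := by
      rw [← hs] at hN
      exact hN.trans (Nat.mul_le_mul_right _ h4)
    have h6 : (S - 1) * u < (S - 1) * (2 * s) := by
      calc (S - 1) * u < n := h3
        _ ≤ 2 * (S - 1) * s := h5
        _ = (S - 1) * (2 * s) := by ring
    exact Nat.lt_of_mul_lt_mul_left h6
  have h8n : (8 * n) ^ u ≤ N := by
    have h2 : 8 * n ≤ 2 ^ (s + 3) := by
      have : n < 2 ^ s := by rw [hs]; exact Nat.lt_size_self n
      rw [pow_add]; omega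
    calc (8 * n) ^ u ≤ (8 * n) ^ (2 * s) := Nat.pow_le_pow_right (by omega) hus.le
      _ ≤ (2 ^ (s + 3)) ^ (2 * s) := Nat.pow_le_pow_left h2 _
      _ = 2 ^ ((s + 3) * (2 * s)) := (pow_mul 2 _ _).symm
      _ ≤ 2 ^ (S - 1) := by
          apply Nat.pow_le_pow_right (by norm_num)
          have h3 : (s + 3) * (2 * s) + 1 ≤ s ^ 3 := by
            have : 5 ≤ s := by omega
            nlinarith [Nat.mul_le_mul this (Nat.mul_le_mul this this), Nat.mul_le_mul_left (s * s) this,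
              Nat.mul_le_mul_left s this]
          omega
      _ ≤ N := hNS
  -- the index
  obtain ⟨H, hH⟩ : ∃ H, H = PrimRoot.genSub (aU p) N := ⟨_, rfl⟩
  rw [← hH]
  have hle : PrimRoot.genSub (PrimRoot.res p) N ≤ H := by
    rw [hH]; exact genSub_le p (by omega)
  have hcard2 : M ^ u ≤ Nat.card H := by
    refine hcard.trans ?_
    exact Subgroup.card_le_of_le hle
  have hmul : Nat.card H * H.index = p - 1 := by
    rw [Subgroup.card_mul_index, Nat.card_eq_fintype_card, ZMod.card_units]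
  have hMu : 0 < M ^ u := Nat.pow_pos (by omega)
  have hfin : M ^ u * H.index < M ^ u * (N * N) := by
    calc M ^ u * H.index ≤ Nat.card H * H.index := Nat.mul_le_mul_right _ hcard2
      _ = p - 1 := hmul
      _ < N ^ (u + 1) := hu2
      _ = N ^ u * N := pow_succ _ _
      _ ≤ (8 * n * M) ^ u * N := Nat.mul_le_mul_right _ (Nat.pow_le_pow_left hNM u)
      _ = (8 * n) ^ u * M ^ u * N := by rw [mul_pow]
      _ ≤ N * M ^ u * N := Nat.mul_le_mul_right _ (Nat.mul_le_mul_right _ h8n)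
      _ = M ^ u * (N * N) := by ring
  exact Nat.lt_of_mul_lt_mul_left hfin

end Pool.Agent.PRT
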