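import Pool.Agent.PRT.GS
import Pool.Agent.PRT.APT2

/-! # `qj`, `pz`, `zz`, `fz`, `dj`, `sq` in polynomial time -/

set_option autoImplicit false

namespace Pool.Agent.PRT

open Pool.NPC Pool.NPC.Enc Pool.NPC.Tr Polynomial

variable {α β γ : Type} [Enc α] [Enc β] [Enc γ]

/-- `PT.count` twice, `PT.prime`, `PT.le` -/
theorem PT.qj {N j : α → ℕ} (hN : PT N) (hj : PT j) : PT (fun a => qj (N a) (j a)) := by
  have h1 : PT (fun y : α × ℕ => (List.range (y.2 + 1)).countP fun m => decide m.Prime) :=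
    PT.count (n := fun y : α × ℕ => y.2 + 1)
      (p := fun z : (α × ℕ) × ℕ => decide (z.2).Prime) (PT.succ PT.snd) (PT.prime PT.snd)
  have hj' : PT (fun y : α × ℕ => j y.1) := PT.comp (g := j) hj PT.fst
  exact PT.count (n := N) (p := fun y : α × ℕ =>
    decide (((List.range (y.2 + 1)).countP fun m => decide m.Prime) ≤ j y.1)) hN (PT.le h1 hj')

/-- the sequence of the primes as binary numbers, for `PT.io`, `BT.iel` -/
theorem BT.qseq {N : α → ℕ} (hN : PT N) : BT (fun x : α × ℕ => PRT.qj (N x.1) (x.2 - 1)) :=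
  BT.ofUnary (PT.qj (PT.comp hN PT.fst) (PT.pred PT.snd))

theorem PT.pz {p N k : α → ℕ} (hp : BT p) (hN : PT N) (hk : PT k) :
    PT (fun a => pz (p a) (N a) (k a)) := by
  exact PT.io (g := fun x : α × ℕ => PRT.qj (N x.1) (x.2 - 1)) hp (BT.qseq hN) (PT.succ hk)
    (BT.const 2)

theorem BT.zz {p N k : α → ℕ} (hp : BT p) (hN : PT N) (hk : PT k) :
    BT (fun a => zz (p a) (N a) (k a)) := by
  exact BT.iel (g := fun x : α × ℕ => PRT.qj (N x.1) (x.2 - 1)) hp (BT.qseq hN) (PT.succ hk)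
    (BT.const 2)

theorem PT.fz {p N k : α → ℕ} (hp : BT p) (hN : PT N) (hk : PT k) :
    PT (fun a => fz (p a) (N a) (k a)) :=
  PT.ev hp (BT.const 2) hp.sizeU (BT.zz hp hN hk)

private theorem PT.sg' {z j : α → ℕ} (hz : PT z) (hj : PT j) : PT (fun a => sg (z a) (j a)) :=
  PT.ite (PT.lt (PT.succ hj) hz) hj (PT.succ hj)

private theorem PT.ford' {p q : α → ℕ} (hp : BT p) (hq : BT q) :
    PT (fun a => ford (p a) (q a)) :=
  PT.ev hp (BT.const 2) hp.sizeU (BT.pmod hq (BT.cf hp (BT.const 2)) hp)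

theorem BT.dj {p N k j : α → ℕ} (hp : BT p) (hN : PT N) (hk : PT k) (hj : PT j) :
    BT (fun a => dj (p a) (N a) (k a) (j a)) := by
  have hz := PT.pz hp hN hk
  have hq : BT (fun a => PRT.qj (N a) (sg (PRT.pz (p a) (N a) (k a)) (j a))) :=
    BT.ofUnary (PT.qj hN (PT.sg' hz hj))
  have hq0 : BT (fun a => PRT.qj (N a) (PRT.pz (p a) (N a) (k a) - 1)) :=
    BT.ofUnary (PT.qj hN (PT.pred hz))
  exact BT.ite (PT.lt (PT.ford' hp hq) (PT.fz hp hN hk)) hq (BT.mul hq hq0)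

private theorem PT.yi' {p d r : α → ℕ} (hp : BT p) (hd : BT d) (hr : BT r) :
    PT (fun a => yi (p a) (d a) (r a)) :=
  PT.ev hp (BT.const 2) hp.sizeU
    (BT.mmod (BT.mmod hr hr hp) (BT.pmod hd (BT.sub hp (BT.const 2)) hp) hp)

private theorem BT.sqs' {p z f d r : α → ℕ} (hp : BT p) (hz : BT z) (hf : PT f) (hd : BT d)
    (hr : BT r) : BT (fun a => sqs (p a) (z a) (f a) (d a) (r a)) := by
  have hy := PT.yi' hp hd hr
  exact BT.ite (PT.eq hy (PT.const 0)) hr
    (BT.mmod hr (BT.pmod hz (BT.powU (BT.const 2) (PT.sub (PT.sub hf hy) (PT.const 1))) hp) hp)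

/-- `BT.natRec`; all states are `≤ max 1 p` -/
theorem BT.sq {p z f d : α → ℕ} (hp : BT p) (hz : BT z) (hf : PT f) (hd : BT d) :
    BT (fun a => sq (p a) (z a) (f a) (d a)) := by
  obtain ⟨Q, hQ⟩ := hp.size
  have hle : ∀ a i, Nat.rec (motive := fun _ => ℕ) (PRT.pmod (d a) ((PRT.cf (p a) 2 + 1) / 2) (p a))
      (fun _ r => sqs (p a) (z a) (f a) (d a) r) i ≤ p a := by
    intro a i
    induction i with
    | zero => exact pmod_le _ _ _
    | succ i ih =>
      show sqs (p a) (z a) (f a) (d a) (Nat.rec (motive := fun _ => ℕ)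
        (PRT.pmod (d a) ((PRT.cf (p a) 2 + 1) / 2) (p a))
        (fun _ r => sqs (p a) (z a) (f a) (d a) r) i) ≤ p a
      unfold sqs
      split_ifs
      · exact ih
      · exact mmod_le _ _ _
  have hp' : BT (fun y : α × (ℕ × Bin) => p y.1) := BT.comp (F := p) hp PT.fst
  have hz' : BT (fun y : α × (ℕ × Bin) => z y.1) := BT.comp (F := z) hz PT.fst
  have hf' : PT (fun y : α × (ℕ × Bin) => f y.1) := PT.comp (g := f) hf PT.fst
  have hd' : BT (fun y : α × (ℕ × Bin) => d y.1) := BT.comp (F := d) hd PT.fst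
  have hs : BT (fun y : α × (ℕ × Bin) => y.2.2.val) := PT.snd' (PT.snd' PT.id)
  exact BT.natRec (n := fun a => Nat.size (p a))
    (z := fun a => PRT.pmod (d a) ((PRT.cf (p a) 2 + 1) / 2) (p a))
    (g := fun y => sqs (p y.1) (z y.1) (f y.1) (d y.1) y.2.2.val) hp.sizeU
    (BT.pmod hd (BT.div (BT.add (BT.cf hp (BT.const 2)) (BT.const 1)) (BT.const 2)) hp)
    (BT.sqs' hp' hz' hf' hd' hs) Q
    fun a i _ => (Nat.size_le_size (hle a i)).trans (hQ a)

theorem BT.rj {p N k j : α → ℕ} (hp : BT p) (hN : PT N) (hk : PT k) (hj : PT j) :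
    BT (fun a => rj (p a) (N a) (k a) (j a)) :=
  BT.sq hp (BT.zz hp hN hk) (PT.fz hp hN hk) (BT.dj hp hN hk hj)

end Pool.Agent.PRT
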