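import Pool.Agent.PRT.GPT1

/-! # `nk`, `EE`, `dg`, `pr`, `sEl`, `gS` in polynomial time -/

set_option autoImplicit false

namespace Pool.Agent.PRT

open Pool.NPC Pool.NPC.Enc Pool.NPC.Tr Polynomial

variable {α β γ : Type} [Enc α] [Enc β] [Enc γ]

/-- `PT.minB`, `BT.powU` -/
theorem PT.nk {N k : α → ℕ} (hN : PT N) (hk : PT k) : PT (fun a => nk (N a) (k a)) := by
  exact PT.minB (BT.powU (BT.const 2) hk) hN

/-- `PT.count`, `BT.powU`, `BT.le`, `BT.ofUnary` -/
theorem PT.EE {N k : α → ℕ} (hN : PT N) (hk : PT k) : PT (fun a => EE (N a) (k a)) := by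
  have hN' : PT (fun y : α × ℕ => N y.1) := PT.comp (g := N) hN PT.fst
  have hk' : PT (fun y : α × ℕ => k y.1) := PT.comp (g := k) hk PT.fst
  have hb : PT (fun y : α × ℕ => 2 * (y.2 + 1) + 1) :=
    PT.succ (PT.mul (PT.const 2) (PT.succ PT.snd))
  exact PT.count (n := N) (p := fun y : α × ℕ =>
    decide ((2 * (y.2 + 1) + 1) ^ PRT.nk (N y.1) (k y.1) ≤ N y.1)) hN
    (BT.le (BT.powU (BT.ofUnary hb) (PT.nk hN' hk')) (BT.ofUnary hN'))

theorem BT.dg {N k s J : α → ℕ} (hN : PT N) (hk : PT k) (hs : PT s) (hJ : PT J) :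
    BT (fun a => dg (N a) (k a) (s a) (J a)) := by
  have hb : BT (fun a => 2 * PRT.EE (N a) (k a) + 1) :=
    BT.ofUnary (PT.succ (PT.mul (PT.const 2) (PT.EE hN hk)))
  exact BT.mod (BT.div (BT.ofUnary hs) (BT.powU hb hJ)) hb

/-- `BT.natRec`; the states are `≤ max 1 p` -/
theorem BT.pr {p N k J : α → ℕ} (hp : BT p) (hN : PT N) (hk : PT k) (hJ : PT J) :
    BT (fun a => pr (p a) (N a) (k a) (J a)) := by
  obtain ⟨Q, hQ⟩ := hp.size
  have hle : ∀ a i, Nat.rec (motive := fun _ => ℕ) 1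
      (fun j acc => if (J a).testBit j then PRT.mmod acc (PRT.rj (p a) (N a) (k a) j) (p a)
        else acc) i ≤ max 1 (p a) := by
    intro a i
    induction i with
    | zero => exact le_max_left _ _
    | succ i ih =>
      show (if (J a).testBit i then PRT.mmod (Nat.rec (motive := fun _ => ℕ) 1
        (fun j acc => if (J a).testBit j then PRT.mmod acc (PRT.rj (p a) (N a) (k a) j) (p a)
        else acc) i) (PRT.rj (p a) (N a) (k a) i) (p a) else Nat.rec (motive := fun _ => ℕ) 1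
        (fun j acc => if (J a).testBit j then PRT.mmod acc (PRT.rj (p a) (N a) (k a) j) (p a)
        else acc) i) ≤ _
      split_ifs
      · exact (mmod_le _ _ _).trans (le_max_right _ _)
      · exact ih
  have hp' : BT (fun y : α × (ℕ × Bin) => p y.1) := BT.comp (F := p) hp PT.fst
  have hN' : PT (fun y : α × (ℕ × Bin) => N y.1) := PT.comp (g := N) hN PT.fst
  have hk' : PT (fun y : α × (ℕ × Bin) => k y.1) := PT.comp (g := k) hk PT.fst
  have hJ' : PT (fun y : α × (ℕ × Bin) => J y.1) := PT.comp (g := J) hJ PT.fst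
  have hi : PT (fun y : α × (ℕ × Bin) => y.2.1) := PT.fst' (PT.snd' PT.id)
  have hs : BT (fun y : α × (ℕ × Bin) => y.2.2.val) := PT.snd' (PT.snd' PT.id)
  have ht : PT (fun y : α × (ℕ × Bin) => decide ((J y.1).testBit y.2.1 = true)) :=
    (BT.testBit (BT.ofUnary hJ') hi).congr fun y => by simp
  exact BT.natRec (n := k) (z := fun _ => 1)
    (g := fun y => if (J y.1).testBit y.2.1 = true then
      PRT.mmod y.2.2.val (PRT.rj (p y.1) (N y.1) (k y.1) y.2.1) (p y.1) else y.2.2.val) hk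
    (BT.const 1) (BT.ite ht (BT.mmod hs (BT.rj hp' hN' hk' hi) hp') hs) (Q + 1)
    fun a i _ => by
      have h1 := Nat.size_le_size (hle a i)
      have h2 := hQ a
      have h3 : Nat.size (max 1 (p a)) ≤ Nat.size (p a) + 1 := by
        rcases Nat.eq_zero_or_pos (p a) with h | h
        · rw [h]; decide
        · rw [max_eq_right h]; omega
      rw [eval_add, eval_one]
      exact (h1.trans h3).trans (by omega)

/-- `BT.natRec`; the states are `≤ p` -/
theorem BT.sEl {p N k s : α → ℕ} (hp : BT p) (hN : PT N) (hk : PT k) (hs : PT s) :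
    BT (fun a => sEl (p a) (N a) (k a) (s a)) := by
  obtain ⟨Q, hQ⟩ := hp.size
  have hle : ∀ a i, Nat.rec (motive := fun _ => ℕ) 0
      (fun J acc => PRT.mmod 1 (acc + (PRT.dg (N a) (k a) (s a) J +
        PRT.EE (N a) (k a) * (p a - 1)) * PRT.pr (p a) (N a) (k a) J) (p a)) i ≤ p a := by
    intro a i
    induction i with
    | zero => exact Nat.zero_le _
    | succ i ih => exact mmod_le _ _ _
  have hp' : BT (fun y : α × (ℕ × Bin) => p y.1) := BT.comp (F := p) hp PT.fst
  have hN' : PT (fun y : α × (ℕ × Bin) => N y.1) := PT.comp (g := N) hN PT.fst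
  have hk' : PT (fun y : α × (ℕ × Bin) => k y.1) := PT.comp (g := k) hk PT.fst
  have hs' : PT (fun y : α × (ℕ × Bin) => s y.1) := PT.comp (g := s) hs PT.fst
  have hi : PT (fun y : α × (ℕ × Bin) => y.2.1) := PT.fst' (PT.snd' PT.id)
  have ha : BT (fun y : α × (ℕ × Bin) => y.2.2.val) := PT.snd' (PT.snd' PT.id)
  exact BT.natRec (n := fun a => PRT.nk (N a) (k a)) (z := fun _ => 0)
    (g := fun y => PRT.mmod 1 (y.2.2.val + (PRT.dg (N y.1) (k y.1) (s y.1) y.2.1 +
        PRT.EE (N y.1) (k y.1) * (p y.1 - 1)) * PRT.pr (p y.1) (N y.1) (k y.1) y.2.1) (p y.1))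
    (PT.nk hN hk) (BT.const 0)
    (BT.mmod (BT.const 1) (BT.add ha (BT.mul (BT.add (BT.dg hN' hk' hs' hi)
      (BT.mul (BT.ofUnary (PT.EE hN' hk')) (BT.sub hp' (BT.const 1))))
      (BT.pr hp' hN' hk' hi))) hp') Q
    fun a i _ => (Nat.size_le_size (hle a i)).trans (hQ a)

theorem BT.gS {p N i : α → ℕ} (hp : BT p) (hN : PT N) (hi : PT i) :
    BT (fun a => gS (p a) (N a) (i a)) := by
  have h : BT (fun a => PRT.sEl (p a) (N a) ((i a - 1) / N a) ((i a - 1) % N a)) :=
    BT.sEl hp hN (PT.div (PT.pred hi) hN) (PT.mod (PT.pred hi) hN)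
  exact BT.ite (BT.eq h (BT.const 0)) (BT.const 1) h

end Pool.Agent.PRT
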