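import Pool.Agent.PRT.GPT2
import Pool.Agent.PRT.TCfold
import Pool.Agent.PRT.APT3
import Pool.Agent.PRT.ATM

/-! # The search and the output -/

set_option autoImplicit false

namespace Pool.Agent.PRT

open Pool.NPC Pool.NPC.Enc Pool.NPC.Tr Polynomial

variable {α β γ : Type} [Enc α] [Enc β] [Enc γ]

/-- `BT.ite`, `BT.rn`, `BT.gS` -/
theorem BT.gC {p N i : α → ℕ} (hp : BT p) (hN : PT N) (hi : PT i) :
    BT (fun a => gC (p a) (N a) (i a)) := by
  exact BT.ite (PT.le hi hN) (BT.rn hp (BT.ofUnary hi)) (BT.gS hp hN (PT.sub hi hN))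

/-- `PT.all`, `PT.prime`, `BT.pmod`, `BT.ne`; `g (io ..)` is `BT.comp hg (PT.pair PT.id ..)`.  Give the
implicit function arguments (`g := fun x => ..`) explicitly, otherwise the unifier may run for ever. -/
theorem PT.okC {p : α → ℕ} {g : α × ℕ → ℕ} {B R : α → ℕ} (hp : BT p) (hg : BT g) (hB : PT B)
    (hR : PT R) : PT (fun a => okC (p a) (fun i => g (a, i)) (B a) (R a)) := by
  have hp' : BT (fun y : α × ℕ => p y.1) := BT.comp (F := p) hp PT.fst
  have hB' : PT (fun y : α × ℕ => B y.1) := PT.comp (g := B) hB PT.fst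
  have hg' : BT (fun x : (α × ℕ) × ℕ => g (x.1.1, x.2)) :=
    BT.comp (F := g) hg (PT.pair (PT.fst' PT.fst) PT.snd)
  have hq : PT (fun y : α × ℕ => y.2 + 1) := PT.succ PT.snd
  have hqB : BT (fun y : α × ℕ => y.2 + 1) := BT.ofUnary hq
  have hio : PT (fun y : α × ℕ => PRT.io (p y.1) (fun i => g (y.1, i)) (B y.1) (y.2 + 1)) :=
    PT.io (g := fun x : (α × ℕ) × ℕ => g (x.1.1, x.2)) hp' hg' hB' hqB
  have hgi : BT (fun y : α × ℕ =>
      g (y.1, PRT.io (p y.1) (fun i => g (y.1, i)) (B y.1) (y.2 + 1))) :=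
    BT.comp (F := g) hg (PT.pair PT.fst hio)
  have hp1 : BT (fun y : α × ℕ => p y.1 - 1) := BT.sub hp' (BT.const 1)
  exact PT.all (n := R) (p := fun y : α × ℕ => !(decide (y.2 + 1).Prime &&
      decide ((p y.1 - 1) % (y.2 + 1) = 0)) ||
      decide (pmod (g (y.1, PRT.io (p y.1) (fun i => g (y.1, i)) (B y.1) (y.2 + 1)))
        ((p y.1 - 1) / (y.2 + 1)) (p y.1) ≠ 1)) hR
    (PT.or (PT.not (PT.and (PT.prime hq) (BT.eq (BT.mod hp1 hqB) (BT.const 0))))
      (BT.ne (BT.pmod hgi (BT.div hp1 hqB) hp') (BT.const 1)))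

theorem PT.stopC {p N : α → ℕ} (hp : BT p) (hN : PT N) : PT (fun a => stopC (p a) (N a)) := by
  have hs : PT (fun a => Nat.size (p a)) := hp.sizeU
  have hsN : PT (fun a => Nat.size (N a)) := (BT.ofUnary hN).sizeU
  have hss : PT (fun a => Nat.size (Nat.size (p a))) := (BT.ofUnary hs).sizeU
  have hp' : BT (fun y : α × ℕ => p y.1) := BT.comp (F := p) hp PT.fst
  have hN' : PT (fun y : α × ℕ => N y.1) := PT.comp (g := N) hN PT.fst
  exact PT.and (PT.le hs (PT.mul hsN hss))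
    (PT.okC (g := fun y : α × ℕ => PRT.gC (p y.1) (N y.1) y.2) hp (BT.gC hp' hN' PT.snd)
      (PT.add hN (PT.mul hN hN)) (PT.mul hN hN))

theorem PT.stepS {p : α → ℕ} {x : α → ℕ × Bool} (hp : BT p) (hx : PT x) :
    PT (fun a => stepS (p a) (x a)) := by
  have h1 : PT (fun a => (x a).1) := PT.fst' hx
  have h2 : PT (fun a => (x a).2) := PT.snd' hx
  exact PT.cond h2 hx (PT.cond (PT.stopC hp h1) (PT.pair h1 (PT.const true))
    (PT.pair (PT.mul (PT.const 2) h1) (PT.const false)))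

end Pool.Agent.PRT
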