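import Pool.Agent.PRT.Alg

/-!
# The generating set of theorem (G), with natural numbers

Level `k`: `q_0, ..., q_k` are the first primes, `x_j` is the 2-part of `q_j` modulo `p`, the number
`pz - 1` is the index `j` for which the order `2 ^ fz` of `x_j` is largest, `zz` is this `x_j`.  The
`k` other primes give the `d_j` (`d_j = q_j` if the order of `x_j` is smaller than `2 ^ fz`, otherwise
`q_j` times the prime number `pz - 1`), `r_j` is a square root of `d_j` modulo `p`.
-/

set_option autoImplicit false

namespace Pool.Agent.PRT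

/-- the prime number `j` (the first one has the number 0) if it is smaller than `N`, otherwise `N` -/
def qj (N j : ℕ) : ℕ :=
  (List.range N).countP fun n => decide ((List.range (n + 1)).countP (fun m => decide m.Prime) ≤ j)

def pz (p N k : ℕ) : ℕ := io p (fun i => qj N (i - 1)) (k + 1) 2

def zz (p N k : ℕ) : ℕ := iel p (fun i => qj N (i - 1)) (k + 1) 2

def fz (p N k : ℕ) : ℕ := ev p 2 (Nat.size p) (zz p N k)

/-- enumeration of the numbers different from `z - 1` -/
def sg (z j : ℕ) : ℕ := if j + 1 < z then j else j + 1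

/-- the exponent of the order of the 2-part of `q` -/
def ford (p q : ℕ) : ℕ := ev p 2 (Nat.size p) (pmod q (cf p 2) p)

def dj (p N k j : ℕ) : ℕ :=
  if ford p (qj N (sg (pz p N k) j)) < fz p N k then qj N (sg (pz p N k) j)
  else qj N (sg (pz p N k) j) * qj N (pz p N k - 1)

/-- exponent of the order of `r ^ 2 / d` -/
def yi (p d r : ℕ) : ℕ := ev p 2 (Nat.size p) (mmod (mmod r r p) (pmod d (p - 2) p) p)

/-- one step of the computation of a square root of `d`, `z` of order `2 ^ f` -/
def sqs (p z f d r : ℕ) : ℕ :=
  if yi p d r = 0 then r else mmod r (pmod z (2 ^ (f - yi p d r - 1)) p) p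

/-- the computation of a square root of `d` -/
def sq (p z f d : ℕ) : ℕ :=
  Nat.rec (motive := fun _ => ℕ) (pmod d ((cf p 2 + 1) / 2) p) (fun _ r => sqs p z f d r)
    (Nat.size p)

def rj (p N k j : ℕ) : ℕ := sq p (zz p N k) (fz p N k) (dj p N k j)

/-- the degree `2 ^ k` (at most `N`) -/
def nk (N k : ℕ) : ℕ := min N (2 ^ k)

/-- the largest `E` with `(2 E + 1) ^ nk ≤ N` -/
def EE (N k : ℕ) : ℕ := (List.range N).countP fun e => decide ((2 * (e + 1) + 1) ^ nk N k ≤ N)

/-- the digit number `J` of `s` in base `2 E + 1` -/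
def dg (N k s J : ℕ) : ℕ := s / (2 * EE N k + 1) ^ J % (2 * EE N k + 1)

/-- the product of the `r_j` over the binary digits `1` of `J` -/
def pr (p N k J : ℕ) : ℕ :=
  Nat.rec (motive := fun _ => ℕ) 1
    (fun j acc => if J.testBit j then mmod acc (rj p N k j) p else acc) k

/-- the element number `s` of level `k`: the sum of the `(digit - E) * product` modulo `p` -/
def sEl (p N k s : ℕ) : ℕ :=
  Nat.rec (motive := fun _ => ℕ) 0
    (fun J acc => mmod 1 (acc + (dg N k s J + EE N k * (p - 1)) * pr p N k J) p) (nk N k)

/-- the generator number `i`, `1 ≤ i ≤ N ^ 2`: level `(i - 1) / N`, number `(i - 1) % N`, with `0`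
replaced by `1` -/
def gS (p N i : ℕ) : ℕ :=
  if sEl p N ((i - 1) / N) ((i - 1) % N) = 0 then 1 else sEl p N ((i - 1) / N) ((i - 1) % N)

/-- all generators: `-1, 2, ..., N` and the elements of the levels -/
def gC (p N i : ℕ) : ℕ := if i ≤ N then rn p i else gS p N (i - N)

/-- the check: for every prime `q ≤ R` dividing `p - 1` one of the generators (the one with the
largest `q`-part) is not a `q`-th power -/
def okC (p : ℕ) (g : ℕ → ℕ) (B R : ℕ) : Bool :=
  (List.range R).all fun i => !(decide (i + 1).Prime && decide ((p - 1) % (i + 1) = 0)) ||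
    decide (pmod (g (io p g B (i + 1))) ((p - 1) / (i + 1)) p ≠ 1)

/-- the condition to stop the search -/
def stopC (p N : ℕ) : Bool :=
  decide (Nat.size p ≤ Nat.size N * Nat.size (Nat.size p)) && okC p (gC p N) (N + N * N) (N * N)

/-- one step of the search -/
def stepS (p : ℕ) (x : ℕ × Bool) : ℕ × Bool :=
  if x.2 = true then x else if stopC p x.1 = true then (x.1, true) else (2 * x.1, false)

/-- the search: `k` steps -/
def sN (p k : ℕ) : ℕ × Bool :=
  Nat.rec (motive := fun _ => ℕ × Bool) (1, false) (fun _ s => stepS p s) k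

/-- the search as a fold over the input string -/
def srch (l : List Bool) : List Bool × (ℕ × Bool) :=
  l.foldl (fun s _ => (s.1, stepS (bval s.1) s.2)) (l, (1, false))

end Pool.Agent.PRT
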