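import Pool.Agent.GenB.Final

/-! # The generating set, in the form used here -/

set_option autoImplicit false

namespace Pool.Agent.PRT

open Finset

theorem exists_rpow_ge (ε : ℝ) (hε : 0 < ε) (M : ℝ) :
    ∃ p0 : ℕ, ∀ p : ℕ, p0 ≤ p → M < (p : ℝ) ^ ε := by
  have h := (tendsto_rpow_atTop hε).comp (tendsto_natCast_atTop_atTop (R := ℝ))
  obtain ⟨p0, hp0⟩ := Filter.eventually_atTop.1 (h.eventually_gt_atTop M)
  exact ⟨p0, fun p hp => hp0 p hp⟩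

/-- from the theorem on bounded generation (`Pool.Agent.GenB.main'`) -/
theorem thmG (ε : ℝ) (hε : 0 < ε) : ∃ k : ℕ, ∀ D : ℕ, ∃ p0 : ℕ, ∀ (p : ℕ) [Fact p.Prime], p0 ≤ p →
    ∀ (d : Fin k → ℕ) (r : Fin k → ZMod p), (∀ j, d j ≤ D) →
      (∀ J : Finset (Fin k), J.Nonempty → ¬ IsSquare (∏ j ∈ J, d j)) →
      (∀ j, r j ^ 2 = ((d j : ℕ) : ZMod p)) →
      ∀ E : ℕ, (∀ E' : ℕ, (((2 * E' + 1) ^ 2 ^ k : ℕ) : ℝ) ≤ (p : ℝ) ^ ε → E' ≤ E) →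
        Subgroup.closure {u : (ZMod p)ˣ | ∃ a : Finset (Fin k) → ℤ, (∀ J, |a J| ≤ (E : ℤ)) ∧
          (u : ZMod p) = ∑ J : Finset (Fin k), (a J : ZMod p) * ∏ j ∈ J, r j} = ⊤ := by
  obtain ⟨e, he⟩ : ∃ e : ℝ, e = min ε 1 := ⟨_, rfl⟩
  have he0 : 0 < e := by rw [he]; exact lt_min hε one_pos
  have he1 : e ≤ 1 := by rw [he]; exact min_le_right _ _
  have heε : e ≤ ε := by rw [he]; exact min_le_left _ _
  obtain ⟨k, N, _, h⟩ := GenB.main' he0 he1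
  have hk0 : (0 : ℝ) < 2 ^ k := by positivity
  obtain ⟨p1, hp1⟩ := exists_rpow_ge (e / 2 ^ k) (by positivity) 3
  refine ⟨k, fun D => ?_⟩
  obtain ⟨p0, hp0⟩ := h D
  refine ⟨max (max p0 p1) 1, fun p _ hp d r hd hI hr E hE => ?_⟩
  have h2 : p0 ≤ p := le_trans (le_trans (le_max_left _ _) (le_max_left _ _)) hp
  have h3 : p1 ≤ p := le_trans (le_trans (le_max_right _ _) (le_max_left _ _)) hp
  have h4 : (1 : ℝ) ≤ p := by exact_mod_cast le_trans (le_max_right _ _) hp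
  obtain ⟨_, h5⟩ := hp0 p h2 d hd hI r hr
  have h6 : ⌊(p : ℝ) ^ (e / 2 ^ k) / 3⌋₊ ≤ E := by
    apply hE
    have h7 : ((2 * ⌊(p : ℝ) ^ (e / 2 ^ k) / 3⌋₊ + 1 : ℕ) : ℝ) ≤ (p : ℝ) ^ (e / 2 ^ k) := by
      push_cast
      have h8 : (⌊(p : ℝ) ^ (e / 2 ^ k) / 3⌋₊ : ℝ) ≤ (p : ℝ) ^ (e / 2 ^ k) / 3 :=
        Nat.floor_le (by positivity)
      have h9 := hp1 p h3
      linarith
    have h10 : (((2 * ⌊(p : ℝ) ^ (e / 2 ^ k) / 3⌋₊ + 1) ^ 2 ^ k : ℕ) : ℝ) ≤ (p : ℝ) ^ e := by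
      push_cast at h7 ⊢
      calc (2 * (⌊(p : ℝ) ^ (e / 2 ^ k) / 3⌋₊ : ℝ) + 1) ^ 2 ^ k ≤ ((p : ℝ) ^ (e / 2 ^ k)) ^ 2 ^ k :=
            pow_le_pow_left₀ (by positivity) h7 _
        _ = (p : ℝ) ^ e := by
            rw [← Real.rpow_natCast, ← Real.rpow_mul (by positivity)]
            push_cast
            rw [div_mul_cancel₀ _ hk0.ne']
    exact h10.trans (Real.rpow_le_rpow_of_exponent_le h4 heε)
  rw [eq_top_iff]
  intro g _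
  obtain ⟨s, hs1, hs2⟩ := h5 E h6 g
  rw [← hs2]
  apply Subgroup.prod_mem
  intro i _
  apply Subgroup.subset_closure
  obtain ⟨a, ha1, ha2⟩ := hs1 i
  refine ⟨a, fun J => ?_, ha2⟩
  rw [← Int.natCast_natAbs]
  exact_mod_cast ha1 J

end Pool.Agent.PRT
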