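import Mathlib

/-! # Functions which grow more slowly than every `2 ^ (ε n)` -/

set_option autoImplicit false

namespace Pool.Agent.PRT

open Polynomial

/-- `T n ≤ 2 ^ (ε n)` up to a constant factor, for every `ε > 0` -/
def Slow (T : ℕ → ℕ) : Prop :=
  ∀ ε : ℝ, 0 < ε → ∃ C : ℝ, ∀ n : ℕ, (T n : ℝ) ≤ C * (2 : ℝ) ^ (ε * n)

theorem Slow.mono {S T : ℕ → ℕ} (hT : Slow T) (h : ∀ n, S n ≤ T n) : Slow S := by
  intro ε hε
  obtain ⟨C, hC⟩ := hT ε hε
  exact ⟨C, fun n => le_trans (by exact_mod_cast h n) (hC n)⟩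

private theorem grow_const (c : ℕ) : Slow (fun _ => c) := by
  intro ε hε
  refine ⟨c, fun n => ?_⟩
  have h1 : (1 : ℝ) ≤ (2 : ℝ) ^ (ε * n) := Real.one_le_rpow (by norm_num) (by positivity)
  exact le_mul_of_one_le_right (Nat.cast_nonneg c) h1

private theorem grow_add {S T : ℕ → ℕ} (hS : Slow S) (hT : Slow T) :
    Slow (fun n => S n + T n) := by
  intro ε hε
  obtain ⟨C, hC⟩ := hS ε hε
  obtain ⟨D, hD⟩ := hT ε hε
  refine ⟨C + D, fun n => ?_⟩
  push_cast
  rw [add_mul]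
  exact add_le_add (hC n) (hD n)

private theorem grow_mul {S T : ℕ → ℕ} (hS : Slow S) (hT : Slow T) :
    Slow (fun n => S n * T n) := by
  intro ε hε
  obtain ⟨C, hC⟩ := hS (ε / 2) (by positivity)
  obtain ⟨D, hD⟩ := hT (ε / 2) (by positivity)
  refine ⟨C * D, fun n => ?_⟩
  have e1 : (2 : ℝ) ^ (ε * n) = (2 : ℝ) ^ (ε / 2 * n) * (2 : ℝ) ^ (ε / 2 * n) := by
    rw [← Real.rpow_add (by norm_num)]
    congr 1
    ring
  push_cast
  rw [e1]
  calc (S n : ℝ) * (T n : ℝ) ≤ (C * (2 : ℝ) ^ (ε / 2 * n)) * (D * (2 : ℝ) ^ (ε / 2 * n)) :=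
        mul_le_mul (hC n) (hD n) (Nat.cast_nonneg _) ((Nat.cast_nonneg _).trans (hC n))
    _ = C * D * ((2 : ℝ) ^ (ε / 2 * n) * (2 : ℝ) ^ (ε / 2 * n)) := by ring

private theorem grow_id : Slow (fun n => n) := by
  intro ε hε
  have hl : 0 < ε * Real.log 2 := mul_pos hε (Real.log_pos (by norm_num))
  refine ⟨1 / (ε * Real.log 2), fun n => ?_⟩
  have h1 : ε * Real.log 2 * n + 1 ≤ (2 : ℝ) ^ (ε * n) := by
    rw [Real.rpow_def_of_pos (by norm_num)]
    have h2 := Real.add_one_le_exp (Real.log 2 * (ε * n))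
    have e1 : ε * Real.log 2 * n = Real.log 2 * (ε * n) := by ring
    rw [e1]
    exact h2
  rw [one_div, ← div_eq_inv_mul, le_div_iff₀ hl]
  linarith

/-- `n ≤ C 2 ^ (ε n)`; products: `ε / 2` twice; sums; induction on the polynomial. -/
theorem Slow.poly {T : ℕ → ℕ} (hT : Slow T) (Q : ℕ[X]) : Slow (fun n => Q.eval (n + T n)) := by
  induction Q using Polynomial.induction_on' with
  | add p q hp hq =>
    simp only [eval_add]
    exact grow_add hp hq
  | monomial k c =>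
    simp only [eval_monomial]
    refine grow_mul (grow_const c) ?_
    induction k with
    | zero =>
      simp only [pow_zero]
      exact grow_const 1
    | succ k ih =>
      simp only [pow_succ]
      exact grow_mul ih (grow_add grow_id hT)

end Pool.Agent.PRT
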