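import Pool.Agent.PRT.GTop
import Pool.Agent.PRT.Grow

/-! # The search is short -/

set_option autoImplicit false

namespace Pool.Agent.PRT

open Finset

/-- the exponent at which the search stops at the latest -/
theorem stop_at (ε : ℝ) (hε : 0 < ε) : ∃ p0 : ℕ, ∀ (p : ℕ) [Fact p.Prime], p0 ≤ p →
    ∃ i < Nat.size p, stopC p (2 ^ i) = true ∧ ((2 : ℝ) ^ i ≤ 4 * (p : ℝ) ^ ε) := by
  obtain ⟨e, he⟩ : ∃ e : ℝ, e = min ε (1 / 2) := ⟨_, rfl⟩
  have he0 : 0 < e := by rw [he]; exact lt_min hε (by norm_num)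
  have heε : e ≤ ε := by rw [he]; exact min_le_left _ _
  have heh : e ≤ 1 / 2 := by rw [he]; exact min_le_right _ _
  obtain ⟨p1, hp1⟩ := gen_top e he0
  obtain ⟨m, hm⟩ := exists_nat_ge (1 / e)
  refine ⟨max p1 (2 ^ (2 ^ m + 4)), fun p hpf hp => ?_⟩
  have hpp : p.Prime := hpf.out
  have h1 : p1 ≤ p := le_trans (le_max_left _ _) hp
  have h2 : 2 ^ (2 ^ m + 4) ≤ p := le_trans (le_max_right _ _) hp
  obtain ⟨n, hn⟩ : ∃ n, n = Nat.size p := ⟨_, rfl⟩
  have hnm : 2 ^ m + 4 < n := by rw [hn]; exact Nat.lt_size.2 h2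
  have h2m : 1 ≤ 2 ^ m := Nat.one_le_two_pow
  have hplt : p < 2 ^ n := by rw [hn]; exact Nat.lt_size_self p
  have hple : 2 ^ (n - 1) ≤ p := by
    have : n - 1 < Nat.size p := by rw [← hn]; omega
    exact Nat.lt_size.1 this
  have hms : m < Nat.size n := Nat.lt_size.2 (by omega)
  have hn5 : 5 ≤ n := by omega
  have hnr : (5 : ℝ) ≤ n := by exact_mod_cast hn5
  obtain ⟨i, hi⟩ : ∃ i, i = ⌈e * n⌉₊ := ⟨_, rfl⟩
  have hen : 0 ≤ e * n := by positivity
  have hi1 : e * n ≤ i := by rw [hi]; exact Nat.le_ceil _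
  have hi2 : (i : ℝ) < e * n + 1 := by rw [hi]; exact Nat.ceil_lt_add_one hen
  have hin : i < n := by
    have : (i : ℝ) < n := by nlinarith
    exact_mod_cast this
  have hp0 : (0 : ℝ) < p := by exact_mod_cast hpp.pos
  have hp1' : (1 : ℝ) ≤ p := by exact_mod_cast hpp.one_lt.le
  have hpe : (p : ℝ) ^ e ≤ (2 : ℝ) ^ i := by
    calc (p : ℝ) ^ e ≤ ((2 : ℝ) ^ (n : ℝ)) ^ e := by
          apply Real.rpow_le_rpow hp0.le _ he0.le
          rw [Real.rpow_natCast]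
          exact_mod_cast hplt.le
      _ = (2 : ℝ) ^ (e * n) := by rw [← Real.rpow_mul (by norm_num), mul_comm]
      _ ≤ (2 : ℝ) ^ (i : ℝ) := Real.rpow_le_rpow_of_exponent_le (by norm_num) hi1
      _ = (2 : ℝ) ^ i := Real.rpow_natCast _ _
  have hpe2 : (2 : ℝ) ^ i ≤ 4 * (p : ℝ) ^ e := by
    have h3 : (2 : ℝ) ^ (e * (n - 1)) ≤ (p : ℝ) ^ e := by
      calc (2 : ℝ) ^ (e * (n - 1)) = ((2 : ℝ) ^ ((n : ℝ) - 1)) ^ e := by
            rw [← Real.rpow_mul (by norm_num), mul_comm]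
        _ ≤ (p : ℝ) ^ e := by
            apply Real.rpow_le_rpow (by positivity) _ he0.le
            have h4 : ((n - 1 : ℕ) : ℝ) = (n : ℝ) - 1 := by
              rw [Nat.cast_sub (by omega)]; simp
            rw [← h4, Real.rpow_natCast]
            exact_mod_cast hple
    calc (2 : ℝ) ^ i = (2 : ℝ) ^ (i : ℝ) := (Real.rpow_natCast _ _).symm
      _ ≤ (2 : ℝ) ^ (e * (n - 1) + 2) := by
          apply Real.rpow_le_rpow_of_exponent_le (by norm_num)
          nlinarith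
      _ = (2 : ℝ) ^ (e * (n - 1)) * 4 := by
          rw [Real.rpow_add (by norm_num)]; norm_num
      _ ≤ (p : ℝ) ^ e * 4 := by nlinarith
      _ = 4 * (p : ℝ) ^ e := mul_comm _ _
  refine ⟨i, by rw [← hn]; exact hin, ?_, ?_⟩
  · unfold stopC
    rw [Bool.and_eq_true]
    constructor
    · rw [decide_eq_true_eq, ← hn, Nat.size_pow]
      have h5 : (n : ℝ) ≤ ((i + 1 : ℕ) : ℝ) * (Nat.size n : ℝ) := by
        have h6 : (m : ℝ) ≤ Nat.size n := by exact_mod_cast hms.le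
        have h7 : 1 ≤ e * (m : ℝ) := by
          have := (div_le_iff₀ he0).1 hm
          linarith [mul_comm e (m : ℝ)]
        have h8 : 1 ≤ e * (Nat.size n : ℝ) := h7.trans (mul_le_mul_of_nonneg_left h6 he0.le)
        have h9 : (n : ℝ) ≤ e * n * (Nat.size n : ℝ) := by nlinarith
        refine h9.trans ?_
        apply mul_le_mul_of_nonneg_right _ (by positivity)
        push_cast
        linarith
      exact_mod_cast h5
    · have hN : ((p : ℝ) ^ e) ≤ ((2 ^ i : ℕ) : ℝ) := by push_cast; exact hpe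
      refine okC_of_top p _ (Nat.le_add_right_of_le Nat.one_le_two_pow)
        (fun j _ => gC_cast p _ j) ?_
      rw [eq_top_iff, ← hp1 p h1 (2 ^ i) hN]
      exact genSub_gS_le_gC p (2 ^ i)
  · refine hpe2.trans ?_
    have := Real.rpow_le_rpow_of_exponent_le hp1' heε
    linarith

/-- the result of the search for large primes -/
theorem search_good (ε : ℝ) (hε : 0 < ε) : ∃ p0 : ℕ, ∀ (p : ℕ) [Fact p.Prime], p0 ≤ p →
    ∃ N : ℕ, sN p (Nat.size p) = (N, true) ∧ 1 ≤ N ∧ stopC p N = true ∧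
      (N : ℝ) ≤ 4 * (p : ℝ) ^ ε := by
  obtain ⟨p0, h⟩ := stop_at ε hε
  refine ⟨p0, fun p _ hp => ?_⟩
  obtain ⟨i, hi, hs, hle⟩ := h p hp
  rcases sN_spec p (Nat.size p) with ⟨j, hj, hjs, hjm, hje⟩ | ⟨hno, _⟩
  · refine ⟨2 ^ j, hje, Nat.one_le_two_pow, hjs, ?_⟩
    have hji : j ≤ i := by
      by_contra hlt
      push Not at hlt
      rw [hjm i hlt] at hs
      exact Bool.noConfusion hs
    calc ((2 ^ j : ℕ) : ℝ) = (2 : ℝ) ^ j := by push_cast; rfl
      _ ≤ (2 : ℝ) ^ i := pow_le_pow_right₀ (by norm_num) hji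
      _ ≤ _ := hle
  · rw [hno i hi] at hs
    exact Bool.noConfusion hs

theorem sN_le (p k : ℕ) : (sN p k).1 ≤ 2 ^ k := by
  rcases sN_spec p k with ⟨i, hi, _, _, he⟩ | ⟨_, he⟩
  · rw [he]; exact Nat.pow_le_pow_right (by norm_num) hi.le
  · rw [he]

/-- the largest end value of the search for primes with `n` digits -/
noncomputable def TT (n : ℕ) : ℕ := by
  classical
  exact ((Finset.range (2 ^ n)).filter (fun p => p.Prime ∧ Nat.size p = n)).sup
    (fun p => (sN p n).1)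

theorem le_TT {p : ℕ} (hp : p.Prime) : (sN p (Nat.size p)).1 ≤ TT (Nat.size p) := by
  classical
  unfold TT
  refine Finset.le_sup (f := fun q => (sN q (Nat.size p)).1) (b := p) ?_
  rw [Finset.mem_filter, Finset.mem_range]
  exact ⟨Nat.lt_size_self p, hp, rfl⟩

theorem slow_TT : Slow TT := by
  classical
  intro ε hε
  obtain ⟨p0, h⟩ := search_good ε hε
  refine ⟨4 * 2 ^ (Nat.size p0), fun n => ?_⟩
  have hpos : (1 : ℝ) ≤ (2 : ℝ) ^ (ε * n) := Real.one_le_rpow (by norm_num) (by positivity)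
  have hC : (1 : ℝ) ≤ 2 ^ (Nat.size p0) := one_le_pow₀ (by norm_num)
  have key : ∀ p ∈ (Finset.range (2 ^ n)).filter (fun p => p.Prime ∧ Nat.size p = n),
      ((sN p n).1 : ℝ) ≤ 4 * 2 ^ (Nat.size p0) * (2 : ℝ) ^ (ε * n) := by
    intro p hp
    rw [Finset.mem_filter, Finset.mem_range] at hp
    obtain ⟨hlt, hpp, hs⟩ := hp
    have : Fact p.Prime := ⟨hpp⟩
    rcases lt_or_ge p p0 with hsm | hge
    · have h1 : n ≤ Nat.size p0 := by rw [← hs]; exact Nat.size_le_size hsm.le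
      calc ((sN p n).1 : ℝ) ≤ ((2 ^ n : ℕ) : ℝ) := by exact_mod_cast sN_le p n
        _ = (2 : ℝ) ^ n := by push_cast; rfl
        _ ≤ 2 ^ (Nat.size p0) := pow_le_pow_right₀ (by norm_num) h1
        _ ≤ 4 * 2 ^ (Nat.size p0) * (2 : ℝ) ^ (ε * n) := by nlinarith
    · obtain ⟨N, hN, _, _, hle⟩ := h p hge
      rw [hs] at hN
      rw [hN]
      have h2 : (p : ℝ) ^ ε ≤ (2 : ℝ) ^ (ε * n) := by
        calc (p : ℝ) ^ ε ≤ ((2 : ℝ) ^ (n : ℝ)) ^ ε := by
              apply Real.rpow_le_rpow (by positivity) _ hε.le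
              rw [Real.rpow_natCast]
              exact_mod_cast hlt.le
          _ = (2 : ℝ) ^ (ε * n) := by rw [← Real.rpow_mul (by norm_num), mul_comm]
      calc (N : ℝ) ≤ 4 * (p : ℝ) ^ ε := hle
        _ ≤ 4 * (2 : ℝ) ^ (ε * n) := by linarith
        _ ≤ 4 * 2 ^ (Nat.size p0) * (2 : ℝ) ^ (ε * n) := by nlinarith
  have hbound : TT n ≤ ⌊4 * 2 ^ (Nat.size p0) * (2 : ℝ) ^ (ε * n)⌋₊ := by
    unfold TT
    exact Finset.sup_le fun p hp => Nat.le_floor (key p hp)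
  calc ((TT n : ℕ) : ℝ) ≤ ((⌊4 * 2 ^ (Nat.size p0) * (2 : ℝ) ^ (ε * n)⌋₊ : ℕ) : ℝ) := by
        exact_mod_cast hbound
    _ ≤ _ := Nat.floor_le (by positivity)

end Pool.Agent.PRT
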