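import Pool.Agent.PRT.GN2
import Pool.Agent.PRT.GN3
import Pool.Agent.PRT.GN4
import Pool.Agent.PRT.GN5
import Pool.Agent.PRT.GN6
import Pool.Agent.PRT.GThm

/-! # The set `gS` generates -/

set_option autoImplicit false

namespace Pool.Agent.PRT

open Finset

theorem gS_pos (p N i : ℕ) : gS p N i ≠ 0 := by
  unfold gS
  split_ifs with h
  · exact one_ne_zero
  · exact h

theorem gS_cast (p : ℕ) [hp : Fact p.Prime] (N i : ℕ) :
    ((gS p N i : ℕ) : ZMod p) = (toU p (gS p N i) : ZMod p) := by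
  have h : ((gS p N i : ℕ) : ZMod p) ≠ 0 := by
    unfold gS
    split_ifs with h
    · simp
    · rw [Ne, ZMod.natCast_eq_zero_iff]
      intro hd
      exact h (Nat.eq_zero_of_dvd_of_lt hd (sEl_lt p _ _ _))
  rw [toU_val p h]

theorem gen_top (ε : ℝ) (hε : 0 < ε) : ∃ p0 : ℕ, ∀ (p : ℕ) [Fact p.Prime], p0 ≤ p →
    ∀ N : ℕ, (p : ℝ) ^ ε ≤ N →
      PrimRoot.genSub (fun i => toU p (gS p N i)) (N * N) = ⊤ := by
  obtain ⟨k, hk⟩ := thmG ε hε
  obtain ⟨p1, hp1⟩ := hk (Nat.nth Nat.Prime k ^ 2)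
  obtain ⟨p2, hp2⟩ := exists_rpow_ge ε hε ((2 ^ k + Nat.nth Nat.Prime k + k : ℕ) : ℝ)
  refine ⟨max (max p1 p2) (Nat.nth Nat.Prime k + 1), fun p _ hp N hN => ?_⟩
  have h1 : p1 ≤ p := le_trans (le_trans (le_max_left _ _) (le_max_left _ _)) hp
  have h2 : p2 ≤ p := le_trans (le_trans (le_max_right _ _) (le_max_left _ _)) hp
  have h3 : Nat.nth Nat.Prime k < p := by
    have := le_trans (le_max_right _ _) hp; omega
  have h4 : 2 ^ k + Nat.nth Nat.Prime k + k < N := by
    have := (hp2 p h2).trans_le hN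
    exact_mod_cast this
  have hkN : 2 ^ k ≤ N := by
    refine le_trans ?_ h4.le
    rw [add_assoc]; exact Nat.le_add_right _ _
  have h4' : Nat.nth Nat.Prime k + k < N := by
    refine lt_of_le_of_lt ?_ h4
    rw [add_assoc]; exact Nat.le_add_left _ _
  have hN0 : 0 < N := by omega
  have hk1 : k + 1 ≤ N := by omega
  have hqN : Nat.nth Nat.Prime k ≤ N := by omega
  have h := hp1 p h1 (fun j => dj p N k j) (fun j => ((rj p N k j : ℕ) : ZMod p))
    (fun j => dj_le p hqN j.2) (fun J hJ => dj_indep p hqN J hJ) (fun j => rj_sq p hqN h3 j.2)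
    (EE N k) (fun E' hE' => le_EE hkN (by
      have : (((2 * E' + 1) ^ 2 ^ k : ℕ) : ℝ) ≤ (N : ℝ) := hE'.trans hN
      exact_mod_cast this))
  rw [eq_top_iff, ← h, Subgroup.closure_le]
  rintro u ⟨a, ha, hu⟩
  obtain ⟨s, hs, hsv⟩ := exists_sEl p hkN a ha
  have hne : sEl p N k s ≠ 0 := by
    intro h0
    rw [h0, Nat.cast_zero, ← hu] at hsv
    exact u.ne_zero hsv.symm
  have hi1 : (k * N + s + 1 - 1) / N = k := by
    rw [Nat.add_sub_cancel, mul_comm k N, Nat.mul_add_div hN0, Nat.div_eq_of_lt hs, add_zero]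
  have hi2 : (k * N + s + 1 - 1) % N = s := by
    rw [Nat.add_sub_cancel, mul_comm k N, Nat.mul_add_mod, Nat.mod_eq_of_lt hs]
  have hg : gS p N (k * N + s + 1) = sEl p N k s := by
    unfold gS
    rw [hi1, hi2, if_neg hne]
  have hmem : k * N + s + 1 ∈ Icc 1 (N * N) := by
    rw [Finset.mem_Icc]
    constructor
    · omega
    · have : (k + 1) * N ≤ N * N := Nat.mul_le_mul_right _ hk1
      rw [Nat.add_mul, one_mul] at this
      omega
  have hmem2 := PrimRoot.a_mem (fun i => toU p (gS p N i)) (N * N) hmem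
  have hueq : toU p (gS p N (k * N + s + 1)) = u := by
    apply Units.ext
    rw [← gS_cast, hg, hsv, hu]
  show u ∈ PrimRoot.genSub (fun i => toU p (gS p N i)) (N * N)
  rw [← hueq]
  exact hmem2

theorem gC_cast (p : ℕ) [hp : Fact p.Prime] (N i : ℕ) :
    ((gC p N i : ℕ) : ZMod p) = (toU p (gC p N i) : ZMod p) := by
  unfold gC
  split_ifs with h
  · have h1 : ((rn p i : ℕ) : ZMod p) ≠ 0 := by
      rw [rn_cast]; exact (aU p i).ne_zero
    rw [toU_val p h1]
  · exact gS_cast p N (i - N)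

/-- the group of all generators contains `-1, 2, ..., N` -/
theorem genSub_le_gC (p : ℕ) [hp : Fact p.Prime] (N : ℕ) :
    PrimRoot.genSub (aU p) N ≤ PrimRoot.genSub (fun i => toU p (gC p N i)) (N + N * N) := by
  unfold PrimRoot.genSub
  rw [Subgroup.closure_le]
  rintro _ ⟨i, hi, rfl⟩
  apply Subgroup.subset_closure
  refine ⟨i, ⟨hi.1, by have := hi.2; omega⟩, ?_⟩
  apply Units.ext
  show ((toU p (gC p N i) : (ZMod p)ˣ) : ZMod p) = _
  rw [← gC_cast]
  unfold gC
  rw [if_pos hi.2, rn_cast]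

theorem genSub_gS_le_gC (p : ℕ) [hp : Fact p.Prime] (N : ℕ) :
    PrimRoot.genSub (fun i => toU p (gS p N i)) (N * N) ≤
      PrimRoot.genSub (fun i => toU p (gC p N i)) (N + N * N) := by
  unfold PrimRoot.genSub
  rw [Subgroup.closure_le]
  rintro _ ⟨i, hi, rfl⟩
  have h1 := hi.1
  have h2 := hi.2
  apply Subgroup.subset_closure
  refine ⟨N + i, ⟨by omega, by omega⟩, ?_⟩
  show toU p (gC p N (N + i)) = toU p (gS p N i)
  have h3 : gC p N (N + i) = gS p N i := by
    unfold gC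
    rw [if_neg (by omega), Nat.add_sub_cancel_left]
  rw [h3]

end Pool.Agent.PRT
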