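import Pool.Agent.PRT.MainRoot
import Pool.Agent.PRT.AN7

/-! # One list: first one residue for special primes, then the candidates -/

set_option autoImplicit false

namespace Pool.Agent.PRT

open Pool.NPC Pool.NPC.Enc Pool.NPC.Tr Polynomial

/-- the list: for `p < p0` a table; otherwise the residue `rootN`, then the candidates -/
def listG (A c p0 : ℕ) (t : ℕ → ℕ) (p : ℕ) : List ℕ :=
  if p < p0 then [t p] else
    rootN p (rn p) (Nat.size p ^ A) (Nat.size p ^ (c + 1)) ::
      candList p (rn p) (Nat.size p ^ A) (rn p) (Nat.size p ^ A) (Nat.size p ^ (A + 1 + (c + 1)))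
        (Nat.size p ^ (A + 1 + (c + 1)))

theorem listG_poly (A c p0 : ℕ) (t : ℕ → ℕ) :
    Nonempty (Turing.TM2ComputableInPolyTime Nat.bits encList (listG A c p0 t)) := by
  have hp : BT (fun l : List Bool => bval l) := BT.bval PT.id
  have hs : PT (fun l : List Bool => Nat.size (bval l)) := hp.sizeU
  have hr : BT (fun l : List Bool => rootN (bval l) (fun i => rn (bval l) i)
      (Nat.size (bval l) ^ A) (Nat.size (bval l) ^ (c + 1))) :=
    BT.rootN (g := fun x : List Bool × ℕ => rn (bval x.1) x.2) hp (BT.gens hp) (PT.powC hs A)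
      (PT.powC hs (c + 1))
  have hsmall := PT.enc1 (BT.table t p0 hp (BT.const 0))
  have hbig := PT.append (PT.enc1 hr) (PT.listF_enc A (c + 1))
  have h : PT (fun l => encList (listG A c p0 t (bval l))) := by
    refine (PT.ite (BT.lt hp (BT.const p0)) hsmall hbig).congr fun l => ?_
    by_cases h : bval l < p0
    · rw [listG, if_pos h, if_pos h, if_pos h]
      simp [encList]
    · rw [listG, if_neg h, if_neg h, encList, List.flatMap_cons]
      rfl
  exact tm_of h fun p => by rw [bval_bits]

/-- for a prime `p ≥ p0` almost all entries generate the group generated by `-1, 2, ..., L ^ A` -/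
theorem listG_most {A c p0 : ℕ} {t : ℕ → ℕ} (p : ℕ) [hp : Fact p.Prime] (h : p0 ≤ p) :
    Most (Nat.size p ^ c) (listG A c p0 t p) (fun x => ∃ u : (ZMod p)ˣ, (x : ZMod p) = u ∧
      Subgroup.zpowers u = PrimRoot.genSub (aU p) (Nat.size p ^ A)) := by
  have hs : 2 ≤ Nat.size p := by
    have : Nat.size 2 ≤ Nat.size p := Nat.size_le_size hp.out.two_le
    have h5 : Nat.size 2 = 2 := by decide
    omega
  have hs0 : 0 < Nat.size p := by omega
  unfold listG
  rw [if_neg (by omega)]
  have h2M : 2 * Nat.size p ^ c ≤ Nat.size p ^ (c + 1) := by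
    rw [pow_succ, mul_comm]
    exact Nat.mul_le_mul_left _ hs
  refine (most_cand p (Nat.one_le_pow _ _ hs0) (fun i _ => rn_cast p i)
    (M := 2 * Nat.size p ^ c) (Nat.one_le_pow _ _ hs0) ?_).cons _ ?_
  · rw [← pow_succ, pow_add _ (A + 1) (c + 1)]
    exact Nat.mul_le_mul_left _ h2M
  · unfold candList
    rw [List.length_map, List.length_range]
    exact h2M.trans (Nat.pow_le_pow_right hs0 (by omega))

/-- the first entry, for special primes -/
theorem listG_head {A c p0 : ℕ} {t : ℕ → ℕ} (p : ℕ) [hp : Fact p.Prime] (h : p0 ≤ p)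
    (hR : ∀ q q' : ℕ, q.Prime → q'.Prime → q ∣ p - 1 → q' ∣ p - 1 → Nat.size p ^ c < q →
      Nat.size p ^ c < q' → q = q') : ∀ x ∈ (listG A c p0 t p).head?,
    ∃ u : (ZMod p)ˣ, (x : ZMod p) = u ∧
      Subgroup.zpowers u = PrimRoot.genSub (aU p) (Nat.size p ^ A) := by
  intro x hx
  have hs : 0 < Nat.size p := Nat.size_pos.2 hp.out.pos
  unfold listG at hx
  rw [if_neg (by omega), List.head?_cons, Option.mem_some_iff] at hx
  rw [← hx]
  have hle : Nat.size p ^ c ≤ Nat.size p ^ (c + 1) := Nat.pow_le_pow_right hs (by omega)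
  exact rootN_gen p (Nat.one_le_pow _ _ hs) (fun i _ => rn_cast p i)
    (fun q q' hq hq' hqp hqp' h4 h5 => hR q q' hq hq' hqp hqp' (by omega) (by omega))

theorem listG_small {A c p0 : ℕ} {t : ℕ → ℕ} {p : ℕ} (h : p < p0) : listG A c p0 t p = [t p] := by
  unfold listG
  rw [if_pos h]

end Pool.Agent.PRT
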