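import Pool.Agent.PRT.AN4b

/-! # Common facts for the final files -/

set_option autoImplicit false

namespace Pool.Agent.PRT

open Finset

/-- a primitive root for every prime, by choice; used only in the finite tables -/
theorem exists_table : ∃ t : ℕ → ℕ, ∀ p : ℕ, p.Prime → orderOf ((t p : ℕ) : ZMod p) = p - 1 := by
  have h : ∀ p : ℕ, ∃ x : ℕ, p.Prime → orderOf ((x : ℕ) : ZMod p) = p - 1 := by
    intro p
    by_cases hp : p.Prime
    · have : Fact p.Prime := ⟨hp⟩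
      obtain ⟨u, hu⟩ := IsCyclic.exists_ofOrder_eq_natCard (α := (ZMod p)ˣ)
      refine ⟨(u : ZMod p).val, fun _ => ?_⟩
      rw [ZMod.natCast_zmod_val, orderOf_units, hu, Nat.card_eq_fintype_card, ZMod.card_units]
    · exact ⟨0, fun h => absurd h hp⟩
  choose t ht using h
  exact ⟨t, ht⟩

/-- `p ^ ε > 3` for large `p` -/
theorem exists_rpow_gt (ε : ℝ) (hε : 0 < ε) (M : ℝ) : ∃ p0 : ℕ, ∀ p : ℕ, p0 ≤ p → M < (p : ℝ) ^ ε := by
  have h := (tendsto_rpow_atTop hε).comp (tendsto_natCast_atTop_atTop (R := ℝ))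
  obtain ⟨p0, hp0⟩ := Filter.eventually_atTop.1 (h.eventually_gt_atTop M)
  exact ⟨p0, fun p hp => hp0 p hp⟩

/-- the group of `-1, 2, ..., B` is everything for large rough `p` -/
theorem top_of_rough (ε : ℝ) (hε : 0 < ε) : ∃ A p0 : ℕ, 1 ≤ A ∧
    ∀ (p : ℕ) [Fact p.Prime], p0 ≤ p → ∀ B : ℕ, Nat.size p ^ A ≤ B →
      ((PrimRoot.genSub (aU p) B).index : ℝ) < (p : ℝ) ^ ε ∧
      ((∀ q : ℕ, q.Prime → q ∣ p - 1 → q ≠ 2 → (p : ℝ) ^ ε ≤ q) →
        PrimRoot.genSub (aU p) B = ⊤) := by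
  obtain ⟨A, p0, hA, hp0, h⟩ := index_lt' ε hε
  obtain ⟨p1, hp1⟩ := exists_rpow_gt ε hε 3
  refine ⟨A, max p0 p1, hA, fun p _ hp B hB => ?_⟩
  have h1 := h p (le_trans (le_max_left _ _) hp) B hB
  refine ⟨h1, fun hr => ?_⟩
  have hp5 : 5 ≤ p := by have := le_trans (le_max_left _ _) hp; omega
  have hs : 3 ≤ Nat.size p := by
    have : Nat.size 5 ≤ Nat.size p := Nat.size_le_size hp5
    have h5 : Nat.size 5 = 3 := by decide
    omega
  refine genSub_eq_top p (by omega) ?_ ?_ ?_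
  · calc 3 ≤ Nat.size p := hs
      _ = Nat.size p ^ 1 := (pow_one _).symm
      _ ≤ Nat.size p ^ A := Nat.pow_le_pow_right (by omega) hA
      _ ≤ B := hB
  · intro h3
    have h4 := hr 3 Nat.prime_three h3 (by norm_num)
    have h5 := hp1 p (le_trans (le_max_right _ _) hp)
    have : (3 : ℝ) < 3 := h5.trans_le (by exact_mod_cast h4)
    exact absurd this (lt_irrefl _)
  · intro q hq hqp hq2
    have : ((PrimRoot.genSub (aU p) B).index : ℝ) < (q : ℝ) :=
      h1.trans_le (hr q hq hqp hq2)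
    exact_mod_cast this

/-- index and order -/
theorem order_lt {p : ℕ} [hp : Fact p.Prime] {x i : ℕ} {e : ℝ} (h : orderOf (x : ZMod p) * i = p - 1)
    (hi : (i : ℝ) < e) : (p : ℝ) - 1 < e * orderOf (x : ZMod p) := by
  have hp2 := hp.out.two_le
  have h0 : 0 < orderOf (x : ZMod p) := by
    rcases Nat.eq_zero_or_pos (orderOf (x : ZMod p)) with h0 | h0
    · rw [h0, zero_mul] at h; omega
    · exact h0
  have h1 : (p : ℝ) - 1 = (orderOf (x : ZMod p) : ℝ) * i := by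
    have : ((p - 1 : ℕ) : ℝ) = (p : ℝ) - 1 := by
      rw [Nat.cast_sub (by omega)]; simp
    rw [← this, ← h]; push_cast; ring
  rw [h1, mul_comm]
  exact mul_lt_mul_of_pos_right hi (by exact_mod_cast h0)

end Pool.Agent.PRT
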