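import Pool.Agent.PRT.MainList
import Pool.Agent.PRT.AN5b
import Pool.Agent.PRT.APT4

/-! # One residue -/

set_option autoImplicit false

namespace Pool.Agent.PRT

open Pool.NPC Pool.NPC.Enc Pool.NPC.Tr Polynomial

/-- the residue: for `p < p0` a table, otherwise `rootN` -/
def rootF (A C p0 : ℕ) (t : ℕ → ℕ) (p : ℕ) : ℕ :=
  if p < p0 then t p else rootN p (rn p) (Nat.size p ^ A) (Nat.size p ^ (C + 1))

theorem rootF_poly (A C p0 : ℕ) (t : ℕ → ℕ) :
    Nonempty (Turing.TM2ComputableInPolyTime Nat.bits Nat.bits (rootF A C p0 t)) := by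
  have hp : BT (fun l : List Bool => bval l) := BT.bval PT.id
  have hs : PT (fun l : List Bool => Nat.size (bval l)) := hp.sizeU
  have hr : BT (fun l : List Bool => rootN (bval l) (fun i => rn (bval l) i)
      (Nat.size (bval l) ^ A) (Nat.size (bval l) ^ (C + 1))) :=
    BT.rootN (g := fun x : List Bool × ℕ => rn (bval x.1) x.2) hp (BT.gens hp) (PT.powC hs A)
      (PT.powC hs (C + 1))
  have h : BT (fun l : List Bool => rootF A C p0 t (bval l)) :=
    (BT.table t p0 hp hr).congr fun l => rfl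
  exact tm_of h.bits fun p => by rw [bval_bits]

theorem rootF_gen {A C p0 : ℕ} {t : ℕ → ℕ} (p : ℕ) [hp : Fact p.Prime] (h : p0 ≤ p)
    (hR : ∀ q q' : ℕ, q.Prime → q'.Prime → q ∣ p - 1 → q' ∣ p - 1 → Nat.size p ^ (C + 1) < q →
      Nat.size p ^ (C + 1) < q' → q = q') :
    ∃ u : (ZMod p)ˣ, ((rootF A C p0 t p : ℕ) : ZMod p) = u ∧
      Subgroup.zpowers u = PrimRoot.genSub (aU p) (Nat.size p ^ A) := by
  have hs : 0 < Nat.size p := Nat.size_pos.2 hp.out.pos
  unfold rootF
  rw [if_neg (by omega)]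
  exact rootN_gen p (Nat.one_le_pow _ _ hs) (fun i _ => rn_cast p i) hR

end Pool.Agent.PRT
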