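import Pool.Agent.PRT.Bin

/-!
# Functions computed in time polynomial in the size of the argument and a given bound `M`
-/

set_option autoImplicit false

namespace Pool.Agent.PRT

open Pool.NPC Pool.NPC.Enc Pool.NPC.Tr Polynomial

variable {α β γ : Type} [Enc α] [Enc β] [Enc γ]

/-- `f` is computable in time `T a` (compare `Pool.NPC.PTc`) -/
def TC (f : α → β) (T : α → ℕ) : Prop :=
  ∀ (ρ δ : Tr ℕ) (B : ℕ), ρ.shape = sh α → δ.shape = sh β → Fresh ρ δ B →
    ∃ c : Cmd, ∀ (a : α) (S : State), Holds ρ (enc a) S → (∀ r ∈ δ.leaves, S r = []) →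
      (∀ r, B ≤ r → S r = []) →
      ∃ S', ExecLe c S S' (T a) ∧ Holds δ (enc (f a)) S' ∧ ∀ r, r ∉ δ.leaves → S' r = S r

/-- `f` is computable in time polynomial in the size of the argument and `M` -/
def MC (f : α → β) (M : α → ℕ) : Prop := ∃ Q : ℕ[X], TC f (fun a => Q.eval (sz a + M a))

theorem TC.mono {f : α → β} {T T' : α → ℕ} (h : TC f T) (hT : ∀ a, T a ≤ T' a) : TC f T' := by
  intro ρ δ B h1 h2 h3
  obtain ⟨c, hc⟩ := h ρ δ B h1 h2 h3
  refine ⟨c, fun a S k1 k2 k3 => ?_⟩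
  obtain ⟨S', m1, m2, m3⟩ := hc a S k1 k2 k3
  exact ⟨S', m1.mono (hT a), m2, m3⟩

theorem MC.ofPT {f : α → β} (hf : PT f) (M : α → ℕ) : MC f M := by
  obtain ⟨P, hP⟩ := hf
  refine ⟨P, TC.mono (T := fun a => P.eval (sz a)) hP fun a => poly_mono P (by omega)⟩

/-- Copy of `Pool.NPC.PT.size`. -/
theorem MC.size {f : α → β} {M : α → ℕ} (hf : MC f M) :
    ∃ Q : ℕ[X], ∀ a, sz (f a) ≤ Q.eval (sz a + M a) := by
  obtain ⟨P, hP⟩ := hf
  set ρ := alloc (sh α) 0 with hρ
  set δ := alloc (sh β) (sh α).num with hδ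
  have hfresh : Fresh ρ δ ((sh α).num + (sh β).num) := by
    refine ⟨?_, ?_, nodup_alloc _ _, ?_⟩
    · intro r hr
      have := mem_alloc _ _ _ hr
      omega
    · intro r hr
      have := mem_alloc _ _ _ hr
      omega
    · intro r hr hr'
      have := mem_alloc _ _ _ hr
      have := mem_alloc _ _ _ hr'
      omega
  obtain ⟨c, hc⟩ := hP ρ δ _ (shape_alloc _ _) (shape_alloc _ _) hfresh
  refine ⟨C (sh β).num * P, fun a => ?_⟩
  obtain ⟨S, hS, hS'⟩ := exists_holds ρ (enc a) (by rw [shape_alloc, shape_enc])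
    (nodup_alloc _ _) (fun _ => [])
  have he : ∀ r ∈ δ.leaves, S r = [] := fun r hr => hS' r (hfresh.dj r hr)
  obtain ⟨S', ⟨t, ht, hE⟩, h2, h3⟩ := hc a S hS he (fun r hr => hS' r fun hr' => by
    have := hfresh.ρB r hr'; omega)
  have ht' : t ≤ P.eval (sz a + M a) := ht
  have := h2.size_le (T := P.eval (sz a + M a)) (fun r hr => by
    have := hE.length_le r
    rw [he r hr] at this
    simp only [List.length_nil, zero_add] at this
    omega)
  have hnum : δ.num = (sh β).num := by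
    rw [← num_shape, shape_alloc]
  rw [hnum] at this
  simp only [eval_mul, eval_C]
  exact this

/-- Copy of `Pool.NPC.PT.comp`: the time is `T1 a + P (sz (f a)) + 2 * sz (f a) + const`, and
`sz (f a)` is bounded by `MC.size`. -/
theorem MC.comp {g : β → γ} {f : α → β} {M : α → ℕ} (hg : PT g) (hf : MC f M) :
    MC (fun a => g (f a)) M := by
  obtain ⟨R, hR⟩ := hf.size
  obtain ⟨P, hP⟩ := hf
  obtain ⟨Q, hQ⟩ := hg
  refine ⟨P + Q.comp R + (C 2 * R + C (sh β).num), fun ρ δ B h1 h2 h3 => ?_⟩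
  set μ := alloc (sh β) B with hμ
  have hμB : ∀ r ∈ μ.leaves, B ≤ r ∧ r < B + (sh β).num := fun r hr => mem_alloc _ _ _ hr
  obtain ⟨c, hc⟩ := hP ρ μ (B + (sh β).num) h1 (shape_alloc _ _)
    ⟨fun r hr => by have := h3.ρB r hr; omega, fun r hr => (hμB r hr).2, nodup_alloc _ _,
      fun r hr hr' => by have := h3.ρB r hr'; have := hμB r hr; omega⟩
  obtain ⟨d, hd⟩ := hQ μ δ (B + (sh β).num) (shape_alloc _ _) h2
    ⟨fun r hr => (hμB r hr).2, fun r hr => by have := h3.δB r hr; omega, h3.nd,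
      fun r hr hr' => by have := h3.δB r hr; have := hμB r hr'; omega⟩
  refine ⟨.seq c (.seq d (clearT μ)), fun a S hS he hB => ?_⟩
  have hμδ : ∀ r ∈ μ.leaves, r ∉ δ.leaves := fun r hr hr' => by
    have := h3.δB r hr'; have := hμB r hr; omega
  obtain ⟨S1, k1, k2, k3⟩ := hc a S hS (fun r hr => hB r (hμB r hr).1)
    (fun r hr => hB r (by omega))
  obtain ⟨S2, l1, l2, l3⟩ := hd (f a) S1 k2
    (fun r hr => by rw [k3 r fun hr' => hμδ r hr' hr, he r hr])
    (fun r hr => by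
      rw [k3 r fun hr' => ?_, hB r (by omega)]
      have := hμB r hr'; omega)
  obtain ⟨S3, m1, m2, m3⟩ := execLe_clearT μ (enc (f a)) S2 (nodup_alloc _ _)
    (k2.congr fun r hr => l3 r (hμδ r hr))
  refine ⟨S3, (k1.seq (l1.seq m1)).mono ?_, l2.congr fun r hr => m3 r fun hr' => hμδ r hr' hr, ?_⟩
  · simp only [eval_add, eval_mul, eval_C, eval_comp]
    have e1 : (enc (f a)).size ≤ R.eval (sz a + M a) := hR a
    have e2 : Q.eval (sz (f a)) ≤ Q.eval (R.eval (sz a + M a)) := poly_mono Q (hR a)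
    have e3 : μ.num = (sh β).num := by rw [← num_shape, shape_alloc]
    rw [e3]
    omega
  · intro r hr
    by_cases hrμ : r ∈ μ.leaves
    · rw [m2 r hrμ, hB r (hμB r hrμ).1]
    · rw [m3 r hrμ, l3 r hr, k3 r hrμ]

end Pool.Agent.PRT
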